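import Pool.Agent.Lib.MP_d9ddf5_al_h20.DefsOrd

/-!
# Homomorphisms, submodules, quotients; torsion and torsion-free parts
-/

set_option autoImplicit false

namespace Pool.Agent.MP_d9ddf5_al_h20

open Module LinearMap

variable {K : Type} [Field K] {n : ℕ} {m : Fin n → Fin n → ℕ}

namespace IsHom

variable {M N P : QMod K m}

theorem comp {g : N.V →ₗ[K] P.V} {f : M.V →ₗ[K] N.V} (hg : IsHom N P g) (hf : IsHom M N f) :
    IsHom M P (g ∘ₗ f) :=
  ⟨fun i x => by simp [hf.1, hg.1], fun i j k x => by simp [hf.2, hg.2]⟩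

theorem id (M : QMod K m) : IsHom M M LinearMap.id :=
  ⟨fun _ _ => rfl, fun _ _ _ _ => rfl⟩

theorem zero (M N : QMod K m) : IsHom M N 0 :=
  ⟨fun i x => by simp, fun i j k x => by simp⟩

theorem add {f g : M.V →ₗ[K] N.V} (hf : IsHom M N f) (hg : IsHom M N g) : IsHom M N (f + g) :=
  ⟨fun i x => by simp [hf.1, hg.1], fun i j k x => by simp [hf.2, hg.2]⟩

theorem smul (c : K) {f : M.V →ₗ[K] N.V} (hf : IsHom M N f) : IsHom M N (c • f) :=
  ⟨fun i x => by simp [hf.1], fun i j k x => by simp [hf.2]⟩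

theorem sub {f g : M.V →ₗ[K] N.V} (hf : IsHom M N f) (hg : IsHom M N g) : IsHom M N (f - g) :=
  ⟨fun i x => by simp [hf.1, hg.1], fun i j k x => by simp [hf.2, hg.2]⟩

theorem range_inv {f : M.V →ₗ[K] N.V} (hf : IsHom M N f) : N.Inv (range f) := by
  constructor
  · rintro i _ ⟨x, rfl⟩
    exact ⟨M.e i x, hf.1 i x⟩
  · rintro i j k _ ⟨x, rfl⟩
    exact ⟨M.a i j k x, hf.2 i j k x⟩

theorem ker_inv {f : M.V →ₗ[K] N.V} (hf : IsHom M N f) : M.Inv (ker f) := by
  constructor
  · intro i x hx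
    rw [mem_ker] at hx ⊢
    rw [hf.1, hx, map_zero]
  · intro i j k x hx
    rw [mem_ker] at hx ⊢
    rw [hf.2, hx, map_zero]

theorem comap_inv {f : M.V →ₗ[K] N.V} (hf : IsHom M N f) {W : Submodule K N.V} (hW : N.Inv W) :
    M.Inv (W.comap f) := by
  constructor
  · intro i x hx
    rw [Submodule.mem_comap] at hx ⊢
    rw [hf.1]
    exact hW.1 i _ hx
  · intro i j k x hx
    rw [Submodule.mem_comap] at hx ⊢
    rw [hf.2]
    exact hW.2 i j k _ hx

theorem map_inv {f : M.V →ₗ[K] N.V} (hf : IsHom M N f) {W : Submodule K M.V} (hW : M.Inv W) :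
    N.Inv (W.map f) := by
  constructor
  · rintro i _ ⟨x, hx, rfl⟩
    exact ⟨M.e i x, hW.1 i _ hx, hf.1 i x⟩
  · rintro i j k _ ⟨x, hx, rfl⟩
    exact ⟨M.a i j k x, hW.2 i j k _ hx, hf.2 i j k x⟩

theorem symm {e : M.V ≃ₗ[K] N.V} (h : IsHom M N (e : M.V →ₗ[K] N.V)) :
    IsHom N M (e.symm : N.V →ₗ[K] M.V) := by
  constructor
  · intro i x
    have := h.1 i (e.symm x)
    apply e.injective
    simpa using this.symm
  · intro i j k x
    have := h.2 i j k (e.symm x)
    apply e.injective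
    simpa using this.symm

theorem exists_inv {f : M.V →ₗ[K] N.V} (hf : IsHom M N f) (hb : Function.Bijective f) :
    ∃ g : N.V →ₗ[K] M.V, IsHom N M g ∧ Function.Bijective g ∧ (∀ x, g (f x) = x) ∧
      ∀ y, f (g y) = y := by
  let e := LinearEquiv.ofBijective f hb
  have he : IsHom M N (e : M.V →ₗ[K] N.V) := hf
  refine ⟨e.symm, he.symm, e.symm.bijective, fun x => ?_, fun y => ?_⟩
  · exact e.symm_apply_apply x
  · exact e.apply_symm_apply y

theorem exists_lift {f : N.V →ₗ[K] M.V} (hf : IsHom N M f) (hi : Function.Injective f)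
    {X : QMod K m} {φ : X.V →ₗ[K] M.V} (hφ : IsHom X M φ) (h : ∀ x, φ x ∈ range f) :
    ∃ ψ : X.V →ₗ[K] N.V, IsHom X N ψ ∧ ∀ x, f (ψ x) = φ x := by
  let e := LinearEquiv.ofInjective f hi
  have he : ∀ y : range f, f (e.symm y) = y := by
    intro y
    have h1 : e (e.symm y) = y := e.apply_symm_apply y
    have h2 : f (e.symm y) = (e (e.symm y) : M.V) := rfl
    rw [h2, h1]
  obtain ⟨ψ, hψ⟩ : ∃ ψ : X.V →ₗ[K] N.V, ∀ x, f (ψ x) = φ x :=
    ⟨(e.symm : range f →ₗ[K] N.V) ∘ₗ φ.codRestrict (range f) h, fun x => he ⟨φ x, h x⟩⟩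
  refine ⟨ψ, ⟨?_, ?_⟩, hψ⟩
  · intro i x
    apply hi
    rw [hf.1, hψ, hψ, hφ.1]
  · intro i j k x
    apply hi
    rw [hf.2, hψ, hψ, hφ.2]

theorem subtype (W : Submodule K M.V) (hW : M.Inv W) : IsHom (M.sub W hW) M W.subtype :=
  ⟨fun _ _ => rfl, fun _ _ _ _ => rfl⟩

theorem mkQ (W : Submodule K M.V) (hW : M.Inv W) : IsHom M (M.quo W hW) W.mkQ :=
  ⟨fun _ _ => rfl, fun _ _ _ _ => rfl⟩

theorem codRestrict {f : M.V →ₗ[K] N.V} (hf : IsHom M N f) (W : Submodule K N.V) (hW : N.Inv W)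
    (h : ∀ x, f x ∈ W) : IsHom M (N.sub W hW) (f.codRestrict W h) :=
  ⟨fun i x => Subtype.ext (hf.1 i x), fun i j k x => Subtype.ext (hf.2 i j k x)⟩

theorem liftQ {f : M.V →ₗ[K] N.V} (hf : IsHom M N f) (W : Submodule K M.V) (hW : M.Inv W)
    (h : W ≤ ker f) : IsHom (M.quo W hW) N (W.liftQ f h) := by
  constructor
  · intro i x
    obtain ⟨x, rfl⟩ := W.mkQ_surjective x
    exact hf.1 i x
  · intro i j k x
    obtain ⟨x, rfl⟩ := W.mkQ_surjective x
    exact hf.2 i j k x

end IsHom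

theorem QMod.Inv.top (M : QMod K m) : M.Inv ⊤ := ⟨fun _ _ _ => trivial, fun _ _ _ _ _ => trivial⟩

theorem QMod.Inv.bot (M : QMod K m) : M.Inv ⊥ := by
  constructor
  · intro i x hx
    rw [Submodule.mem_bot] at hx ⊢
    rw [hx, map_zero]
  · intro i j k x hx
    rw [Submodule.mem_bot] at hx ⊢
    rw [hx, map_zero]

namespace Tors

variable (T : Tors K m)

theorem mem_of_bij {M N : QMod K m} {f : M.V →ₗ[K] N.V} (hf : IsHom M N f)
    (hb : Function.Bijective f) : T.mem M ↔ T.mem N := by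
  constructor
  · exact T.quot M N f hf hb.2
  · obtain ⟨g, hg, hgb, -⟩ := hf.exists_inv hb
    exact T.quot N M g hg hgb.2

theorem mem_range {M N : QMod K m} {f : M.V →ₗ[K] N.V} (hf : IsHom M N f) (hM : T.mem M) :
    T.mem (N.sub (range f) hf.range_inv) :=
  T.quot M _ (f.codRestrict (range f) fun x => ⟨x, rfl⟩) (hf.codRestrict _ _ _)
    (fun y => by
      obtain ⟨x, hx⟩ := y.2
      exact ⟨x, Subtype.ext hx⟩) hM

/-- Extensions given by an exact sequence. -/
theorem mem_exact {N M P : QMod K m} {f : N.V →ₗ[K] M.V} {g : M.V →ₗ[K] P.V} (hf : IsHom N M f)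
    (hg : IsHom M P g) (hs : Function.Surjective g) (hex : ker g = range f) (hN : T.mem N)
    (hP : T.mem P) : T.mem M := by
  refine T.extn M (range f) hf.range_inv (T.mem_range hf hN) ?_
  have hl : IsHom (M.quo (range f) hf.range_inv) P ((range f).liftQ g hex.ge) :=
    hg.liftQ _ _ _
  refine (T.mem_of_bij hl ⟨?_, ?_⟩).2 hP
  · intro x y hxy
    obtain ⟨x, rfl⟩ := (range f).mkQ_surjective x
    obtain ⟨y, rfl⟩ := (range f).mkQ_surjective y
    have h1 : g x = g y := hxy
    have h2 : x - y ∈ ker g := by rw [mem_ker, map_sub, h1, sub_self]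
    rw [hex] at h2
    exact (Submodule.Quotient.eq _).2 h2
  · intro z
    obtain ⟨x, hx⟩ := hs z
    exact ⟨(range f).mkQ x, hx⟩

variable {T}

theorem Free.of_inj {M N : QMod K m} {f : N.V →ₗ[K] M.V} (hf : IsHom N M f)
    (hi : Function.Injective f) (hM : T.Free M) : T.Free N := by
  intro X g hX hg
  have := hM X (f ∘ₗ g) hX (hf.comp hg)
  ext x
  have h1 : f (g x) = 0 := LinearMap.congr_fun this x
  exact hi (by rw [h1]; simp)

theorem Free.sub {M : QMod K m} (hM : T.Free M) (W : Submodule K M.V) (hW : M.Inv W) :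
    T.Free (M.sub W hW) :=
  hM.of_inj (IsHom.subtype W hW) (Submodule.injective_subtype W)

/-- An extension of torsion-free modules is torsion-free. -/
theorem Free.exact {N M P : QMod K m} {f : N.V →ₗ[K] M.V} {g : M.V →ₗ[K] P.V} (hf : IsHom N M f)
    (hi : Function.Injective f) (hg : IsHom M P g) (hex : ker g = range f) (hN : T.Free N)
    (hP : T.Free P) : T.Free M := by
  intro X φ hX hφ
  have h1 := hP X (g ∘ₗ φ) hX (hg.comp hφ)
  obtain ⟨ψ, hψ, h2⟩ := hf.exists_lift hi hφ (by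
    intro x
    rw [← hex, mem_ker]
    exact LinearMap.congr_fun h1 x)
  have h3 := hN X ψ hX hψ
  ext x
  rw [← h2, h3]
  simp

theorem Free.mono {T' : Tors K m} (h : T ≤ T') {M : QMod K m} (hM : T'.Free M) : T.Free M :=
  fun X f hX hf => hM X f (h X hX) hf

theorem subsingleton_of_mem_free {M : QMod K m} (h : T.mem M) (hf : T.Free M) :
    Subsingleton M.V := by
  have := hf M LinearMap.id h (IsHom.id M)
  refine ⟨fun x y => ?_⟩
  have hx : x = 0 := LinearMap.congr_fun this x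
  have hy : y = 0 := LinearMap.congr_fun this y
  rw [hx, hy]

/-- Every module has a torsion submodule with torsion-free quotient. -/
theorem exists_tor (T : Tors K m) (M : QMod K m) : ∃ (W : Submodule K M.V) (hW : M.Inv W),
    T.mem (M.sub W hW) ∧ T.Free (M.quo W hW) := by
  classical
  have hne : ∃ d : ℕ, ∃ (W : Submodule K M.V) (hW : M.Inv W), T.mem (M.sub W hW) ∧
      finrank K W = d :=
    ⟨_, ⊥, QMod.Inv.bot M, T.zero _ (inferInstanceAs (Subsingleton (⊥ : Submodule K M.V))), rfl⟩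
  have hbd : ∀ d : ℕ, (∃ (W : Submodule K M.V) (hW : M.Inv W), T.mem (M.sub W hW) ∧
      finrank K W = d) → d ≤ finrank K M.V := by
    rintro d ⟨W, hW, -, rfl⟩
    exact W.finrank_le
  obtain ⟨W, hW, hT, hd⟩ := Nat.findGreatest_spec (P := fun d =>
    ∃ (W : Submodule K M.V) (hW : M.Inv W), T.mem (M.sub W hW) ∧ finrank K W = d)
    (hbd _ hne.choose_spec) hne.choose_spec
  refine ⟨W, hW, hT, ?_⟩
  intro X f hX hf
  set W' : Submodule K M.V := (range f).comap W.mkQ with hW'
  have hI : M.Inv W' := (IsHom.mkQ W hW).comap_inv hf.range_inv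
  have hle : W ≤ W' := by
    intro x hx
    rw [hW', Submodule.mem_comap]
    have : W.mkQ x = 0 := (Submodule.Quotient.mk_eq_zero W).2 hx
    rw [this]
    exact Submodule.zero_mem _
  have hmem : T.mem (M.sub W' hI) := by
    have hg : IsHom (M.sub W' hI) (M.quo W hW) (W.mkQ ∘ₗ W'.subtype) :=
      (IsHom.mkQ W hW).comp (IsHom.subtype W' hI)
    have hgr : ∀ x, (W.mkQ ∘ₗ W'.subtype) x ∈ range f := fun x => x.2
    refine T.mem_exact (N := M.sub W hW) (P := (M.quo W hW).sub (range f) hf.range_inv)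
      (f := W'.subtype.codRestrict W' (fun x => x.2) ∘ₗ
        (W.subtype.codRestrict W' fun x => hle x.2))
      (g := (W.mkQ ∘ₗ W'.subtype).codRestrict (range f) hgr) ?_ (hg.codRestrict _ _ hgr) ?_ ?_ hT
      (T.mem_range hf hX)
    · refine IsHom.comp ((IsHom.subtype W' hI).codRestrict _ hI _)
        ((IsHom.subtype W hW).codRestrict _ hI _)
    · rintro ⟨y, hy⟩
      obtain ⟨x, rfl⟩ := W.mkQ_surjective y
      exact ⟨⟨x, hy⟩, rfl⟩
    · ext ⟨x, hx⟩
      constructor
      · intro h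
        have h1 : W.mkQ x = 0 := congrArg Subtype.val h
        exact ⟨⟨x, (Submodule.Quotient.mk_eq_zero W).1 h1⟩, rfl⟩
      · rintro ⟨⟨y, hy⟩, h⟩
        have h1 : y = x := congrArg Subtype.val h
        subst h1
        exact Subtype.ext ((Submodule.Quotient.mk_eq_zero W).2 hy)
  have hfr : finrank K W' ≤ finrank K W := by
    have h1 : finrank K W' ≤ Nat.findGreatest (fun d =>
        ∃ (W : Submodule K M.V) (hW : M.Inv W), T.mem (M.sub W hW) ∧ finrank K W = d)
        (finrank K M.V) :=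
      Nat.le_findGreatest W'.finrank_le ⟨W', hI, hmem, rfl⟩
    omega
  have heq : W = W' := Submodule.eq_of_le_of_finrank_le hle hfr
  ext x
  obtain ⟨y, hy⟩ := W.mkQ_surjective (f x)
  have h2 : y ∈ W' := by
    rw [hW', Submodule.mem_comap, hy]
    exact ⟨x, rfl⟩
  rw [← heq] at h2
  have h3 : f x = 0 := by
    rw [← hy]
    exact (Submodule.Quotient.mk_eq_zero W).2 h2
  rw [h3]
  simp

/-- A module without nonzero homomorphisms to torsion-free modules is torsion. -/
theorem mem_of_perp {T : Tors K m} {M : QMod K m}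
    (h : ∀ (N : QMod K m) (f : M.V →ₗ[K] N.V), T.Free N → IsHom M N f → f = 0) : T.mem M := by
  obtain ⟨W, hW, hT, hF⟩ := T.exists_tor M
  have h1 := h _ W.mkQ hF (IsHom.mkQ W hW)
  have h2 : ∀ x, x ∈ W := fun x =>
    (Submodule.Quotient.mk_eq_zero W).1 (LinearMap.congr_fun h1 x)
  exact T.quot (M.sub W hW) M W.subtype (IsHom.subtype _ hW) (fun x => ⟨⟨x, h2 x⟩, rfl⟩) hT

/-- A module which is not torsion has a nonzero torsion-free quotient. -/
theorem exists_free_quotient {T : Tors K m} {M : QMod K m} (h : ¬ T.mem M) :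
    ∃ (N : QMod K m) (f : M.V →ₗ[K] N.V), T.Free N ∧ IsHom M N f ∧ Function.Surjective f ∧
      ¬ Subsingleton N.V := by
  obtain ⟨W, hW, hT, hF⟩ := T.exists_tor M
  refine ⟨_, W.mkQ, hF, IsHom.mkQ W hW, W.mkQ_surjective, fun hs => h ?_⟩
  refine mem_of_perp fun N f hN hf => ?_
  have h2 : ∀ x, x ∈ W := fun x =>
    (Submodule.Quotient.mk_eq_zero W).1 (hs.elim (W.mkQ x) 0)
  have h3 := hN _ (f ∘ₗ W.subtype) hT (hf.comp (IsHom.subtype _ hW))
  ext x
  exact LinearMap.congr_fun h3 ⟨x, h2 x⟩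

end Tors

/-- All modules without nonzero homomorphisms to the members of `C`. -/
def perpL (C : QMod K m → Prop) : Tors K m where
  mem M := ∀ (N : QMod K m) (f : M.V →ₗ[K] N.V), C N → IsHom M N f → f = 0
  zero M hM N f _ _ := by
    ext x
    have : x = 0 := Subsingleton.elim _ _
    rw [this, map_zero, map_zero]
  quot M N f hf hs hM P g hC hg := by
    have h1 := hM P (g ∘ₗ f) hC (hg.comp hf)
    ext y
    obtain ⟨x, rfl⟩ := hs y
    exact LinearMap.congr_fun h1 x
  extn M W hW h1 h2 P g hC hg := by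
    have h3 := h1 P (g ∘ₗ W.subtype) hC (hg.comp (IsHom.subtype W hW))
    have h4 : W ≤ ker g := by
      intro x hx
      exact LinearMap.congr_fun h3 ⟨x, hx⟩
    have h5 := h2 P (W.liftQ g h4) hC (hg.liftQ W hW h4)
    ext x
    exact LinearMap.congr_fun h5 (W.mkQ x)

/-- The least torsion class containing `T` and `X`. -/
def join (T : Tors K m) (X : QMod K m) : Tors K m :=
  perpL fun N => T.Free N ∧ ∀ f : X.V →ₗ[K] N.V, IsHom X N f → f = 0

theorem le_join (T : Tors K m) (X : QMod K m) : T ≤ join T X :=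
  fun M hM _ f hN hf => hN.1 M f hM hf

theorem mem_join (T : Tors K m) (X : QMod K m) : (join T X).mem X :=
  fun _ f hN hf => hN.2 f hf

theorem join_le {T U : Tors K m} {X : QMod K m} (h : T ≤ U) (hX : U.mem X) : join T X ≤ U :=
  fun _ hM => Tors.mem_of_perp fun N f hN hf =>
    hM N f ⟨hN.mono h, fun g hg => hN X g hX hg⟩ hf

theorem free_join {T : Tors K m} {X N : QMod K m} : (join T X).Free N ↔
    T.Free N ∧ ∀ f : X.V →ₗ[K] N.V, IsHom X N f → f = 0 :=
  ⟨fun h => ⟨h.mono (le_join T X), fun f hf => h X f (mem_join T X) hf⟩,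
    fun h _ f hM hf => hM N f h hf⟩

theorem join_eq_of_covBy {T U : Tors K m} {X : QMod K m} (h : T ⋖ U) (hX : U.mem X)
    (hn : ¬ T.mem X) : join T X = U := by
  rcases h.eq_or_eq (le_join T X) (join_le h.le hX) with h1 | h1
  · exact absurd (h1 ▸ mem_join T X) hn
  · exact h1

/-- Join of two torsion classes. -/
def join2 (T U : Tors K m) : Tors K m := perpL fun N => T.Free N ∧ U.Free N

theorem le_join2_left (T U : Tors K m) : T ≤ join2 T U :=
  fun M hM _ f hN hf => hN.1 M f hM hf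

theorem le_join2_right (T U : Tors K m) : U ≤ join2 T U :=
  fun M hM _ f hN hf => hN.2 M f hM hf

theorem join2_le {T U S : Tors K m} (h : T ≤ S) (h' : U ≤ S) : join2 T U ≤ S :=
  fun _ hM => Tors.mem_of_perp fun N f hN hf => hM N f ⟨hN.mono h, hN.mono h'⟩ hf

theorem free_join2 {T U : Tors K m} {N : QMod K m} : (join2 T U).Free N ↔ T.Free N ∧ U.Free N :=
  ⟨fun h => ⟨h.mono (le_join2_left T U), h.mono (le_join2_right T U)⟩, fun h _ f hM hf => hM N f h hf⟩

end Pool.Agent.MP_d9ddf5_al_h20
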