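import Pool.Agent.Lib.MP_d9ddf5_al_h20.Sep

/-!
# The separation theorem
-/

set_option autoImplicit false

namespace Pool.Agent.MP_d9ddf5_al_h20

open Module LinearMap

variable {K : Type} [Field K] {n : ℕ} {m : Fin n → Fin n → ℕ}

section glued

variable {a b : Fin n} {B N : QMod K m} {w : B.V} {x : N.V} {l : B.V →ₗ[K] K} {ξ : ℕ → K}
  (hab : a < b) (hB : SocData B a w) (hN : CycData N b x) (hl : ∀ y, l (B.e a y) = l y)
  (hw : l w = 1)

/-- The glued module. -/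
noncomputable abbrev X (B N : QMod K m) (a b : Fin n) (l : B.V →ₗ[K] K) (x : N.V) (ξ : ℕ → K)
    (hl : ∀ y, l (B.e a y) = l y) (hx : N.e b x = x) : QMod K m :=
  glue B N (coc B N a b l x ξ hl hx)

include hab hB hw in
theorem X_arrow (k : Fin (m a b)) :
    (X B N a b l x ξ hl hN.e_x).a a b k (w, 0) = ((0, ξ k • x) : B.V × N.V) := by
  have h1 : B.a a b k w = 0 := by
    rw [← B.a_tgt, hB.low b hab]
  apply Prod.ext
  · exact h1
  · change N.a a b k 0 + (if a = a ∧ b = b then ξ k • l.smulRight x else 0 : B.V →ₗ[K] N.V) w = _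
    rw [map_zero, zero_add, if_pos ⟨rfl, rfl⟩]
    simp [hw]

include hab hN in
theorem X_e_a (z : B.V × N.V) :
    (X B N a b l x ξ hl hN.e_x).e a z = ((B.e a z.1, 0) : B.V × N.V) :=
  Prod.ext rfl (hN.high a hab _)

include hab hB in
theorem X_e_b (z : B.V × N.V) :
    (X B N a b l x ξ hl hN.e_x).e b z = ((0, N.e b z.2) : B.V × N.V) :=
  Prod.ext (hB.low b hab _) rfl

include hab hB hw in
/-- No homomorphism from the glued module to `N`. -/
theorem X_hom_zero (hm : 0 < m a b) (h0 : ξ 0 = 1) (φ : B.V × N.V →ₗ[K] N.V)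
    (hφ : IsHom (X B N a b l x ξ hl hN.e_x) N φ) : φ = 0 := by
  have h1 : φ (w, 0) = 0 := by
    have h2 := hφ.1 a (w, 0)
    rw [X_e_a hab hN hl, hB.e_w] at h2
    rw [h2]
    exact hN.high a hab _
  have h3 : φ (0, x) = 0 := by
    have h4 := hφ.2 a b ⟨0, hm⟩ (w, 0)
    rw [X_arrow hab hB hN hl hw, h1, map_zero] at h4
    simpa [h0] using h4
  have h5 : ker (φ ∘ₗ inr K B.V N.V) = ⊤ := by
    refine hN.top _ (IsHom.ker_inv (M := N) (N := N) ?_) h3
    exact hφ.comp (glue_inr _)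
  apply LinearMap.ext
  rintro ⟨p, q⟩
  have h6 : φ (0, q) = 0 := by
    have : q ∈ ker (φ ∘ₗ inr K B.V N.V) := by rw [h5]; trivial
    exact this
  have h7 : φ (p, 0) = 0 := by
    rw [← N.e_sum (φ (p, 0))]
    refine Finset.sum_eq_zero fun u _ => ?_
    rcases lt_or_ge u b with hu | hu
    · exact hN.high u hu _
    · rw [← hφ.1 u (p, 0)]
      have h8 : (X B N a b l x ξ hl hN.e_x).e u (p, 0) = ((0, 0) : B.V × N.V) :=
        Prod.ext (hB.low u (hab.trans_le hu) p) (map_zero (N.e u))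
      rw [h8]
      exact map_zero φ
  have h9 : ((p, q) : B.V × N.V) = (p, 0) + (0, q) := by simp
  rw [h9, map_add, h6, h7]
  simp

include hab hB in
/-- The glued module is not in the first class. -/
theorem X_not_mem {T U : Tors K m} (h : T ⋖ U) (hLB : IsLabel T U B) (hNF : T.Free N) :
    ¬ U.mem (X B N a b l x ξ hl hN.e_x) := by
  intro hU
  obtain ⟨W, hW, hT, hF⟩ := T.exists_tor (X B N a b l x ξ hl hN.e_x)
  have h1 : ∀ z : W, z.1 ∈ range (inr K B.V N.V) := by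
    intro z
    rw [← glue_exact]
    have h2 := hLB.free _ (fst K B.V N.V ∘ₗ W.subtype) hT
      ((glue_fst _).comp (IsHom.subtype W hW))
    exact LinearMap.congr_fun h2 z
  obtain ⟨ψ, hψ, h2⟩ := (glue_inr (coc B N a b l x ξ hl hN.e_x)).exists_lift
    (glue_inr_inj) (IsHom.subtype W hW) h1
  have h3 := hNF _ ψ hT hψ
  have h4 : W = ⊥ := by
    rw [Submodule.eq_bot_iff]
    intro z hz
    have h5 := h2 ⟨z, hz⟩
    rw [h3] at h5
    rw [LinearMap.zero_apply, map_zero] at h5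
    exact h5.symm
  obtain ⟨r, hr, -, -⟩ := hLB.exists_mult h _ _ le_rfl
    (U.quot _ _ W.mkQ (IsHom.mkQ W hW) W.mkQ_surjective hU) hF
  have h5 : B.dim b = 0 := by
    rw [B.dim_eq_zero]
    rintro ⟨y, hy⟩
    exact hy (hB.low b hab y)
  have h6 := hr b
  rw [h5, mul_zero, QMod.dim_eq_zero] at h6
  apply h6
  refine ⟨W.mkQ ((0, x) : B.V × N.V), ?_⟩
  intro h7
  have h8 : W.mkQ ((X B N a b l x ξ hl hN.e_x).e b ((0, x) : B.V × N.V)) = 0 := h7
  rw [X_e_b hab hB hN hl] at h8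
  have h9 : ((0, N.e b x) : B.V × N.V) ∈ W := (Submodule.Quotient.mk_eq_zero W).1 h8
  rw [h4, Submodule.mem_bot, hN.e_x] at h9
  exact hN.x0 (congrArg Prod.snd h9)

include hab hB hw in
/-- The glued module is torsion-free as long as it is not torsion. -/
theorem X_free (hm : 0 < m a b) (h0 : ξ 0 = 1) {U : Tors K m} (hUB : U.mem B) (hUN : U.Free N)
    (hX : ¬ U.mem (X B N a b l x ξ hl hN.e_x)) : U.Free (X B N a b l x ξ hl hN.e_x) := by
  obtain ⟨W, hW, hT, hF⟩ := U.exists_tor (X B N a b l x ξ hl hN.e_x)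
  suffices h4 : W = ⊥ by
    have h5 : ker W.mkQ = ⊥ := by rw [W.ker_mkQ, h4]
    exact hF.of_inj (IsHom.mkQ W hW) (ker_eq_bot.1 h5)
  by_cases hA : ∀ z : W, z.1 ∈ range (inr K B.V N.V)
  · obtain ⟨ψ, hψ, h2⟩ := (glue_inr (coc B N a b l x ξ hl hN.e_x)).exists_lift
      (glue_inr_inj) (IsHom.subtype W hW) hA
    have h3 := hUN _ ψ hT hψ
    rw [Submodule.eq_bot_iff]
    intro z hz
    have h5 := h2 ⟨z, hz⟩
    rw [h3] at h5
    rw [LinearMap.zero_apply, map_zero] at h5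
    exact h5.symm
  · exfalso
    push Not at hA
    obtain ⟨z, hz⟩ := hA
    have h1 : W.map (fst K B.V N.V) ≠ ⊥ := by
      intro h
      apply hz
      rw [← glue_exact]
      have : fst K B.V N.V z ∈ W.map (fst K B.V N.V) := ⟨z, z.2, rfl⟩
      rw [h, Submodule.mem_bot] at this
      exact this
    have h2 := hB.soc _ ((glue_fst (coc B N a b l x ξ hl hN.e_x)).map_inv hW) h1
    obtain ⟨⟨w', q⟩, hq, hw'⟩ := h2
    have hw'' : w' = w := hw'
    subst hw''
    have h3 := hW.1 a _ hq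
    rw [X_e_a hab hN hl, hB.e_w] at h3
    have h4 := hW.2 a b ⟨0, hm⟩ _ h3
    rw [X_arrow hab hB hN hl hw] at h4
    have h5 : ((0, x) : B.V × N.V) ∈ W := by simpa [h0] using h4
    have h6 : W.comap (inr K B.V N.V) = ⊤ :=
      hN.top _ ((glue_inr (coc B N a b l x ξ hl hN.e_x)).comap_inv hW) h5
    obtain ⟨θ, hθ, h7⟩ := (glue_fst (coc B N a b l x ξ hl hN.e_x)).exists_factor
      (glue_fst_surj) (IsHom.mkQ W hW) (by
        rw [glue_exact]
        rintro _ ⟨q, rfl⟩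
        have : q ∈ W.comap (inr K B.V N.V) := by rw [h6]; trivial
        exact (Submodule.Quotient.mk_eq_zero W).2 this)
    have h8 := hF _ θ hUB hθ
    apply hX
    have h10 : ∀ z, z ∈ W := by
      intro z
      have h9 := h7 z
      rw [h8] at h9
      exact (Submodule.Quotient.mk_eq_zero W).1 h9.symm
    exact U.quot ((X B N a b l x ξ hl hN.e_x).sub W hW) _ W.subtype (IsHom.subtype W hW)
      (fun z => ⟨⟨z, h10 z⟩, rfl⟩) hT

include hab hB in
/-- The glued module has dimension one at `a`. -/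
theorem X_dim : (X B N a b l x ξ hl hN.e_x).dim a = 1 := by
  have h1 := (glue_inr (coc B N a b l x ξ hl hN.e_x)).dim_add (glue_inr_inj)
    (glue_fst (coc B N a b l x ξ hl hN.e_x)) (glue_fst_surj) glue_exact a
  have h2 : N.dim a = 0 := by
    rw [N.dim_eq_zero]
    rintro ⟨y, hy⟩
    exact hy (hN.high a hab y)
  have h3 : B.dim a = 1 := by
    unfold QMod.dim
    have : range (B.e a) = Submodule.span K {w} := by
      ext y
      rw [Submodule.mem_span_singleton]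
      constructor
      · rintro ⟨z, rfl⟩
        obtain ⟨c, hc⟩ := hB.span z
        exact ⟨c, hc.symm⟩
      · rintro ⟨c, rfl⟩
        exact ⟨c • w, by rw [map_smul, hB.e_w]⟩
    rw [this, finrank_span_singleton hB.w0]
  rw [h2, h3] at h1
  exact h1

include hab hB hw in
/-- Different coefficients give nonisomorphic modules. -/
theorem X_not_iso (hm : 2 ≤ m a b) {ξ' : ℕ → K} (h0 : ξ 0 = 1) (h0' : ξ' 0 = 1)
    (h1 : ξ 1 ≠ ξ' 1) (θ : B.V × N.V →ₗ[K] B.V × N.V)
    (hθ : IsHom (X B N a b l x ξ hl hN.e_x) (X B N a b l x ξ' hl hN.e_x) θ)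
    (hi : Function.Injective θ) : False := by
  obtain ⟨c, hc⟩ : ∃ c : K, θ (w, 0) = c • ((w, 0) : B.V × N.V) := by
    have h2 := hθ.1 a (w, 0)
    rw [X_e_a hab hN hl, hB.e_w, X_e_a hab hN hl] at h2
    obtain ⟨c, hc⟩ := hB.span (θ (w, 0)).1
    refine ⟨c, ?_⟩
    rw [h2, hc]
    simp
  obtain ⟨d, hd⟩ : ∃ d : K, θ (0, x) = d • ((0, x) : B.V × N.V) := by
    have h2 := hθ.1 b (0, x)
    rw [X_e_b hab hB hN hl, hN.e_x, X_e_b hab hB hN hl] at h2
    obtain ⟨d, hd⟩ := hN.span (θ (0, x)).2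
    refine ⟨d, ?_⟩
    rw [h2, hd]
    simp
  have key : ∀ k : Fin (m a b), ξ k * d = c * ξ' k := by
    intro k
    have h2 := hθ.2 a b k (w, 0)
    rw [X_arrow hab hB hN hl hw, hc] at h2
    have h3 : ((0, ξ k • x) : B.V × N.V) = ξ k • ((0, x) : B.V × N.V) := by simp
    have h4 : (X B N a b l x ξ' hl hN.e_x).a a b k (c • ((w, 0) : B.V × N.V)) =
        c • ((0, ξ' k • x) : B.V × N.V) :=
      (map_smul ((X B N a b l x ξ' hl hN.e_x).a a b k) c _).trans
        (congrArg (c • ·) (X_arrow hab hB hN hl hw k))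
    rw [h4, h3, map_smul, hd] at h2
    have h5 : ξ k • d • x = c • ξ' k • x := congrArg Prod.snd h2
    rw [smul_smul, smul_smul, ← sub_eq_zero, ← sub_smul, smul_eq_zero] at h5
    exact sub_eq_zero.1 (h5.resolve_right hN.x0)
  have k0 := key ⟨0, by omega⟩
  have k1 := key ⟨1, by omega⟩
  simp only [h0, h0', one_mul, mul_one] at k0 k1
  rw [k0] at k1
  have h6 : c * (ξ 1 - ξ' 1) = 0 := by
    rw [mul_sub, ← k1]
    ring
  have h7 : c = 0 := (mul_eq_zero.1 h6).resolve_right (sub_ne_zero.2 h1)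
  rw [h7, zero_smul] at hc
  have h8 : ((w, 0) : B.V × N.V) = 0 := hi (by rw [hc, map_zero])
  exact hB.w0 (congrArg Prod.fst h8)

end glued

theorem exists_functional {V : Type} [AddCommGroup V] [Module K V] {w : V} (hw : w ≠ 0) :
    ∃ f : V →ₗ[K] K, f w = 1 := by
  have h := (Module.forall_dual_apply_eq_zero_iff K w).not.2 hw
  push Not at h
  obtain ⟨f, hf⟩ := h
  exact ⟨(f w)⁻¹ • f, by simp [hf]⟩

/-- **Separation theorem.** -/
theorem sep_step [IsAlgClosed K] (hac : ∀ i j, m i j ≠ 0 → i < j) {T x : Tors K m} {L : ℕ}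
    (hT : T.Sep) (h : T ⋖ x) (hx : Up x L) : x.Sep := by
  intro a b hm ha hb
  have hab : a < b := hac a b (by omega)
  obtain ⟨N0, hN0, y, hy⟩ := hb
  have hna : ¬ T.Supp a := fun h1 => hT a b hm h1 ⟨N0, hN0.mono h.le, y, hy⟩
  obtain ⟨B, w, hLB, hB⟩ := exists_socData hac h ha hna
  obtain ⟨f, hf⟩ := exists_functional (K := K) hB.w0
  have hl : ∀ z, (f ∘ₗ B.e a) (B.e a z) = (f ∘ₗ B.e a) z := by
    intro z
    simp [B.e_e]
  have hw : (f ∘ₗ B.e a) w = 1 := by simp [hB.e_w, hf]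
  have hxb : N0.e b (N0.e b y) = N0.e b y := N0.e_e b y
  obtain ⟨c, hc0, hcL, hcc⟩ := chain_of_up hx
  set N1 := N0.sub (N0.gen (N0.e b y)) (N0.gen_inv _) with hN1
  have hP : ∃ k, (c k).mem N1 := ⟨L, hcL _⟩
  classical
  have hs0 : ¬ (c 0).mem N1 := by
    intro h1
    rw [hc0] at h1
    have h2 := Tors.subsingleton_of_mem_free h1 (hN0.sub _ _)
    have h3 : (⟨N0.e b y, N0.mem_gen _⟩ : N0.gen (N0.e b y)) = 0 := h2.elim _ _
    exact hy (congrArg Subtype.val h3)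
  obtain ⟨l, hl1⟩ : ∃ l, Nat.find hP = l + 1 := by
    refine ⟨Nat.find hP - 1, ?_⟩
    have h1 : Nat.find hP ≠ 0 := by
      intro h1
      have h2 := Nat.find_spec hP
      rw [h1] at h2
      exact hs0 h2
    omega
  have hlL : l + 1 ≤ L := by
    rw [← hl1]
    exact Nat.find_le (hcL _)
  have hmem : (c (l + 1)).mem N1 := by
    rw [← hl1]
    exact Nat.find_spec hP
  have hnot : ¬ (c l).mem N1 := Nat.find_min hP (by omega)
  obtain ⟨N, n0, hNU, hNF, hN⟩ := exists_cycData hac hxb hmem hnot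
  have hm0 : 0 < m a b := by omega
  have hcl : ∀ s, s ≤ l → (c s).Free N := fun s hs =>
    hNF.mono (chain_le hcc hs (by omega))
  have hcB : ∀ s, s ≤ L → (c s).mem B := fun s hs =>
    chain_le hcc (Nat.zero_le s) hs B (by rw [hc0]; exact hLB.mem)
  have hTN : T.Free N := (hcl 0 (Nat.zero_le l)).mono (by rw [hc0]; exact h.le)
  have hN0' : ¬ Subsingleton N.V := by
    intro h1
    exact hN.x0 (h1.elim _ _)
  -- the glued modules
  let ξ : K → ℕ → K := fun κ k => if k = 0 then 1 else κ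
  have hξ : ∀ κ, ξ κ 0 = 1 := fun κ => by simp [ξ]
  let Y : K → QMod K m := fun κ => X B N a b (f ∘ₗ B.e a) n0 (ξ κ) hl hN.e_x
  have hYmem : ∀ κ, (c l).mem (Y κ) := by
    intro κ
    by_contra h1
    have h2 : (c (l + 1)).mem (Y κ) :=
      (c (l + 1)).mem_exact (glue_inr _) (glue_fst _) glue_fst_surj glue_exact hNU
        (hcB _ hlL)
    have h3 := join_eq_of_covBy (hcc l (by omega)) h2 h1
    have h4 : (c (l + 1)).Free N := by
      rw [← h3, free_join]
      exact ⟨hNF, fun φ hφ => X_hom_zero hab hB hN hl hw hm0 (hξ κ) φ hφ⟩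
    exact hN0' (Tors.subsingleton_of_mem_free hNU h4)
  have hYnot : ∀ κ, ¬ (c 0).mem (Y κ) := by
    intro κ
    rw [hc0]
    exact X_not_mem hab hB hN hl h hLB hTN
  have hstep : ∀ κ, ∃ s : Fin l, ¬ (c s).mem (Y κ) ∧ (c (s + 1)).mem (Y κ) := by
    intro κ
    have hQ : ∃ k, (c k).mem (Y κ) := ⟨l, hYmem κ⟩
    have h1 : Nat.find hQ ≠ 0 := by
      intro h1
      have h2 := Nat.find_spec hQ
      rw [h1] at h2
      exact hYnot κ h2
    have h2 : Nat.find hQ ≤ l := Nat.find_le (hYmem κ)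
    refine ⟨⟨Nat.find hQ - 1, by omega⟩, Nat.find_min hQ (by simp only; omega), ?_⟩
    have h3 : (Nat.find hQ - 1) + 1 = Nat.find hQ := by omega
    change (c (Nat.find hQ - 1 + 1)).mem (Y κ)
    rw [h3]
    exact Nat.find_spec hQ
  choose s hs1 hs2 using hstep
  have : Infinite K := inferInstance
  obtain ⟨κ, κ', hne, heq⟩ := Finite.exists_ne_map_eq_of_infinite s
  have hcov : c (s κ) ⋖ c (s κ + 1) := hcc _ (by have := (s κ).2; omega)
  obtain ⟨C, hC⟩ := exists_label hcov.lt.not_ge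
  have hiso : ∀ κ₁, s κ₁ = s κ → ∃ g : C.V →ₗ[K] (Y κ₁).V, IsHom C (Y κ₁) g ∧
      Function.Bijective g := by
    intro κ₁ h1
    have h2 : (c (s κ + 1)).mem (Y κ₁) := by
      rw [← h1]
      exact hs2 κ₁
    have h3 : ¬ (c (s κ)).mem (Y κ₁) := by
      rw [← h1]
      exact hs1 κ₁
    have hsl := (s κ).2
    have h4 : (c (s κ)).Free (Y κ₁) :=
      X_free hab hB hN hl hw hm0 (hξ κ₁) (hcB _ (by omega)) (hcl _ hsl.le) h3
    obtain ⟨r, hr, -, h5⟩ := hC.exists_mult hcov _ _ le_rfl h2 h4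
    have h6 := hr a
    have h7 : (Y κ₁).dim a = 1 := X_dim hab hB hN hl
    rw [h7] at h6
    exact h5 (Nat.eq_one_of_mul_eq_one_right h6.symm)
  obtain ⟨g, hg, hgb⟩ := hiso κ rfl
  obtain ⟨g', hg', hgb'⟩ := hiso κ' heq.symm
  obtain ⟨h1, hh1, hb1, -, -⟩ := hg.exists_inv hgb
  refine X_not_iso hab hB hN hl hw hm (hξ κ) (hξ κ') ?_ (g' ∘ₗ h1) (hg'.comp hh1)
    (hgb'.1.comp hb1.1)
  simpa [ξ] using hne

end Pool.Agent.MP_d9ddf5_al_h20
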