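import Pool.Agent.Lib.MP_d9ddf5_al_h20.Roots
import Pool.Agent.Lib.MP_d9ddf5_al_h20.SepStep

/-!
# A bounded measure of separated torsion classes; existence of covers
-/

set_option autoImplicit false

namespace Pool.Agent.MP_d9ddf5_al_h20

open Module LinearMap

variable {K : Type} [Field K] {n : ℕ} {m : Fin n → Fin n → ℕ}

/-- The measure: the number of roots which are dimension vectors of modules of `T`. -/
noncomputable def mu (T : Tors K m) : ℕ :=
  Set.ncard {d : Fin n → ℤ | (Thin m d ∧ form m d d ≤ 1) ∧ ∃ M : QMod K m, T.mem M ∧ M.dimZ = d}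

theorem mu_le (hP : Pos m) (T : Tors K m) :
    mu T ≤ Set.ncard {d : Fin n → ℤ | Thin m d ∧ form m d d ≤ 1} :=
  Set.ncard_le_ncard (fun _ hd => hd.1) (finite_roots hP)

theorem dimZ_ne_zero {M : QMod K m} (h : ¬ Subsingleton M.V) : M.dimZ ≠ 0 := by
  intro h0
  apply h
  rw [← finrank_zero_iff (R := K), M.finrank_eq_sum]
  refine Finset.sum_eq_zero fun i _ => ?_
  have : (M.dim i : ℤ) = 0 := congrFun h0 i
  exact_mod_cast this

theorem thin_of_supp {M : QMod K m} (h : ∀ i j, Mult m i j → M.Supp i → ¬ M.Supp j) :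
    Thin m M.dimZ := by
  intro i j hij
  by_cases hi : M.Supp i
  · right
    have := (M.dim_eq_zero j).2 (h i j hij hi)
    simp [QMod.dimZ, this]
  · left
    have := (M.dim_eq_zero i).2 hi
    simp [QMod.dimZ, this]

theorem mu_lt_aux [IsAlgClosed K] (hP : Pos m) {U U' : Tors K m} (h : U ≤ U') {B : QMod K m}
    (hB : IsLabel U U' B) (ht : Thin m B.dimZ) : mu U < mu U' := by
  refine Set.ncard_lt_ncard ?_ ((finite_roots hP).subset fun _ hd => hd.1)
  refine ⟨?_, ?_⟩
  · rintro d ⟨hd, M, hM, rfl⟩
    exact ⟨hd, M, h M hM, rfl⟩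
  · intro hsub
    have h1 : B.dimZ ∈ {d : Fin n → ℤ | (Thin m d ∧ form m d d ≤ 1) ∧
        ∃ M : QMod K m, U'.mem M ∧ M.dimZ = d} :=
      ⟨⟨ht, form_le_one B fun f hf => hB.scalar hf⟩, B, hB.mem, rfl⟩
    obtain ⟨-, M, hM, hMd⟩ := hsub h1
    have h2 : 0 < form m M.dimZ B.dimZ := by
      rw [hMd]
      have := form_pos hP (dimZ_ne_zero hB.nonzero) ht
      omega
    obtain ⟨f, hf, hf0⟩ := exists_hom_of_form_pos M B h2
    exact hf0 (hB.free M f hM hf)

/-- The simple module at the vertex `y`. -/
noncomputable def simple (K : Type) [Field K] {n : ℕ} (m : Fin n → Fin n → ℕ) (y : Fin n) :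
    QMod K m where
  V := K
  e i := if i = y then LinearMap.id else 0
  a _ _ _ := 0
  rep :=
    { e_e := fun i x => by
        split_ifs <;> simp
      e_ne := fun i j h x => by
        by_cases h1 : i = y
        · have h2 : j ≠ y := fun h3 => h (h1.trans h3.symm)
          simp [h2]
        · simp [h1]
      e_sum := fun x => by
        rw [Finset.sum_eq_single y]
        · simp
        · intro j _ hj
          simp [hj]
        · intro h
          exact absurd (Finset.mem_univ y) h
      a_src := fun i j k x => by simp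
      a_tgt := fun i j k x => by simp }

/-- A vertex outside the support of the free modules is in the support of the class. -/
theorem supp_of_not_fsupp {T : Tors K m} {b : Fin n} (h : ¬ T.FSupp b) : T.Supp b := by
  refine ⟨simple K m b, ?_, (1 : K), ?_⟩
  · refine Tors.mem_of_perp fun N f hN hf => ?_
    have h1 : ∀ x : K, f x = 0 := by
      intro x
      have h2 := hf.1 b x
      have h3 : (simple K m b).e b x = x := by
        change (if b = b then LinearMap.id else 0 : K →ₗ[K] K) x = x
        rw [if_pos rfl]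
        rfl
      rw [h3] at h2
      rw [h2]
      by_contra h4
      exact h ⟨N, hN, f x, h4⟩
    ext
    exact h1 1
  · intro h1
    have h3 : (simple K m b).e b (1 : K) = (1 : K) := by
      change (if b = b then LinearMap.id else 0 : K →ₗ[K] K) 1 = 1
      rw [if_pos rfl]
      rfl
    rw [h3] at h1
    exact one_ne_zero (α := K) h1

theorem Tors.Sep.mult {T : Tors K m} (hT : T.Sep) {i j : Fin n} (h : Mult m i j)
    (hi : T.Supp i) : ¬ T.FSupp j := by
  induction h with
  | single h => exact hT _ _ h hi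
  | tail _ h ih => exact hT _ _ h (supp_of_not_fsupp ih)

/-- Labels of covers of separated classes contain no pair joined by multiple arrows. -/
theorem label_supp (hac : ∀ i j, m i j ≠ 0 → i < j) {T x : Tors K m} (hT : T.Sep) (h : T ⋖ x)
    {B : QMod K m} (hB : IsLabel T x B) : ∀ i j, Mult m i j → B.Supp i → ¬ B.Supp j := by
  intro i j hij hi hj
  by_cases hTi : T.Supp i
  · exact hT.mult hij hTi ⟨B, hB.free, hj⟩
  · obtain ⟨B', w, hB', hS⟩ := exists_socData hac h ⟨B, hB.mem, hi⟩ hTi
    obtain ⟨r, hr, -, -⟩ := hB'.exists_mult h _ B le_rfl hB.mem hB.free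
    have h1 : B'.dim j = 0 := by
      rw [B'.dim_eq_zero]
      rintro ⟨y, hy⟩
      exact hy (hS.low j (hij.lt hac) y)
    have h2 := hr j
    rw [h1, mul_zero, B.dim_eq_zero] at h2
    exact h2 hj

theorem mu_lt [IsAlgClosed K] (hac : ∀ i j, m i j ≠ 0 → i < j) (hP : Pos m)
    {T x : Tors K m} (hT : T.Sep) (h : T ⋖ x) : mu T < mu x := by
  obtain ⟨B, hB⟩ := exists_label h.lt.not_ge
  exact mu_lt_aux hP h.le hB (thin_of_supp (label_supp hac hT h hB))

theorem simple_supp {y i : Fin n} (h : (simple K m y).Supp i) : i = y := by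
  by_contra hne
  obtain ⟨x, hx⟩ := h
  apply hx
  change (if i = y then LinearMap.id else 0 : K →ₗ[K] K) x = 0
  rw [if_neg hne]
  rfl

/-- The torsion class of modules with support in `S`. -/
def suppClass (K : Type) [Field K] {n : ℕ} (m : Fin n → Fin n → ℕ) (S : Set (Fin n)) :
    Tors K m where
  mem M := ∀ i, M.Supp i → i ∈ S
  zero M h i := by
    rintro ⟨x, hx⟩
    exact absurd (h.elim _ _) hx
  quot M N f hf hs h i hi := h i (hf.supp_of_surj hs hi)
  extn M W hW h1 h2 i := by
    rintro ⟨x, hx⟩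
    by_cases h3 : M.e i x ∈ W
    · refine h1 i ⟨⟨M.e i x, h3⟩, fun h4 => hx ?_⟩
      have h5 : M.e i (M.e i x) = 0 := congrArg Subtype.val h4
      rwa [M.e_e] at h5
    · refine h2 i ⟨W.mkQ x, fun h4 => h3 ?_⟩
      exact (Submodule.Quotient.mk_eq_zero W).1 h4

theorem exists_supp {M : QMod K m} (h : ¬ Subsingleton M.V) : ∃ i, M.Supp i := by
  by_contra hn
  push Not at hn
  apply h
  have h1 : ∀ x : M.V, x = 0 := by
    intro x
    rw [← M.e_sum x]
    refine Finset.sum_eq_zero fun i _ => ?_
    by_contra h2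
    exact hn i ⟨x, h2⟩
  exact ⟨fun x y => by rw [h1 x, h1 y]⟩

/-- A simple module at the last vertex of the support of the torsion-free modules is free. -/
theorem simple_free (hac : ∀ i j, m i j ≠ 0 → i < j) {T : Tors K m} {y : Fin n}
    (hy : T.FSupp y) (hmax : ∀ j, y < j → ¬ T.FSupp j) : T.Free (simple K m y) := by
  obtain ⟨N, hN, z, hz⟩ := hy
  let f : K →ₗ[K] N.V := LinearMap.toSpanSingleton K N.V (N.e y z)
  have hf : IsHom (simple K m y) N f := by
    constructor
    · intro i x
      change f ((if i = y then LinearMap.id else 0 : K →ₗ[K] K) x) = N.e i (x • N.e y z)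
      split_ifs with h
      · subst h
        rw [map_smul, N.e_e]
        rfl
      · rw [map_smul, N.e_ne i y h, smul_zero]
        simp
    · intro i j k x
      change f 0 = N.a i j k (x • N.e y z)
      rw [map_zero, map_smul]
      have h1 : N.a i j k (N.e y z) = 0 := by
        by_cases h : i = y
        · subst h
          have hij : i < j := hac i j fun h0 => by
            rw [h0] at k
            exact k.elim0
          by_contra h2
          apply hmax j hij
          refine ⟨N, hN, N.a i j k (N.e i z), ?_⟩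
          rwa [N.a_tgt]
        · rw [← N.a_src, N.e_ne i y h, map_zero]
      rw [h1, smul_zero]
  refine hN.of_inj hf ?_
  intro (a : K) (b : K) hab
  have h1 : a • N.e y z = b • N.e y z := hab
  rw [← sub_eq_zero, ← sub_smul, smul_eq_zero] at h1
  exact sub_eq_zero.1 (h1.resolve_right hz)

/-- Every separated class which is not the greatest has a separated cover. -/
theorem exists_cover [IsAlgClosed K] (hac : ∀ i j, m i j ≠ 0 → i < j) (hP : Pos m)
    {T : Tors K m} (hT : T.Sep) (h : ¬ ∀ M, T.mem M) : ∃ x, T ⋖ x ∧ x.Sep := by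
  classical
  push Not at h
  obtain ⟨M, hM⟩ := h
  obtain ⟨N, -, hN, -, -, hN0⟩ := Tors.exists_free_quotient hM
  obtain ⟨i0, hi0⟩ := exists_supp hN0
  have hne : (Finset.univ.filter fun i => T.FSupp i).Nonempty :=
    ⟨i0, by simp only [Finset.mem_filter, Finset.mem_univ, true_and]; exact ⟨N, hN, hi0⟩⟩
  obtain ⟨y, hy, hmax⟩ := Finset.exists_max_image _ id hne
  have hyF : T.FSupp y := (Finset.mem_filter.1 hy).2
  have hmax' : ∀ j, y < j → ¬ T.FSupp j := by
    intro j hj hF
    have := hmax j (by simp only [Finset.mem_filter, Finset.mem_univ, true_and]; exact hF)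
    exact absurd (lt_of_lt_of_le hj this) (lt_irrefl _)
  have hS := simple_free (K := K) hac hyF hmax'
  have hS0 : ¬ Subsingleton (simple K m y).V := by
    intro hs
    have h1 : (1 : K) = 0 := hs.elim _ _
    exact one_ne_zero h1
  have hSn : ¬ T.mem (simple K m y) := fun h1 => hS0 (Tors.subsingleton_of_mem_free h1 hS)
  -- the supports of the classes below the join
  have hsupp : ∀ U : Tors K m, U ≤ join T (simple K m y) → ∀ i, U.Supp i → T.Supp i ∨ i = y := by
    intro U hU i hi
    obtain ⟨X, hX, hXi⟩ := hi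
    have h1 : join T (simple K m y) ≤ suppClass K m {i | T.Supp i ∨ i = y} :=
      join_le (fun M hM i hi => Or.inl ⟨M, hM, hi⟩) fun i hi => Or.inr (simple_supp hi)
    exact h1 X (hU X hX) i hXi
  have hsep : ∀ U : Tors K m, T ≤ U → U ≤ join T (simple K m y) → U.Sep := by
    intro U h1 h2 i j hij hi hj
    have hj' : T.FSupp j := by
      obtain ⟨X, hX, hXj⟩ := hj
      exact ⟨X, hX.mono h1, hXj⟩
    rcases hsupp U h2 i hi with h3 | rfl
    · exact hT i j hij h3 hj'
    · exact hmax' j (hac i j (by omega)) hj'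
  have hex : ∃ d : ℕ, ∃ U : Tors K m, T < U ∧ U ≤ join T (simple K m y) ∧ mu U = d := by
    refine ⟨_, join T (simple K m y), ?_, le_rfl, rfl⟩
    refine lt_of_le_of_ne (le_join T _) fun h1 => hSn ?_
    rw [h1]
    exact mem_join T _
  obtain ⟨U, hTU, hUJ, hd⟩ := Nat.find_spec hex
  refine ⟨U, ⟨hTU, fun V hTV hVU => ?_⟩, hsep U hTU.le hUJ⟩
  obtain ⟨B, hB⟩ := exists_label (T := V) (T' := U) hVU.not_ge
  have hBthin : Thin m B.dimZ := by
    apply thin_of_supp
    intro i j hij hi hj
    have hj' : T.FSupp j := ⟨B, hB.free.mono hTV.le, hj⟩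
    rcases hsupp U hUJ i ⟨B, hB.mem, hi⟩ with h3 | rfl
    · exact hT.mult hij h3 hj'
    · exact hmax' j (hij.lt hac) hj'
  have h1 := mu_lt_aux hP hVU.le hB hBthin
  have h2 : Nat.find hex ≤ mu V := Nat.find_le ⟨V, hTV, hVU.le.trans hUJ, rfl⟩
  omega

end Pool.Agent.MP_d9ddf5_al_h20
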