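import Mathlib

/-!
# Torsion classes of finite-dimensional modules over the path algebra of an acyclic quiver

`m i j` is the number of arrows from `i` to `j`. A module over the path algebra is given by its
underlying space `V`, the idempotents `e i` and the arrows `a i j k`.
-/

set_option autoImplicit false

namespace Pool.Agent.MP_d9ddf5_al_h20

/-- The relations of the path algebra: the `e i` are orthogonal idempotents of sum one and each
arrow `k` from `i` to `j` satisfies `e j * a i j k * e i = a i j k`. -/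
structure IsRep {K : Type} [Field K] {V : Type} [AddCommGroup V] [Module K V] {n : ℕ}
    (m : Fin n → Fin n → ℕ) (e : Fin n → V →ₗ[K] V)
    (a : (i j : Fin n) → Fin (m i j) → V →ₗ[K] V) : Prop where
  e_e : ∀ i x, e i (e i x) = e i x
  e_ne : ∀ i j, i ≠ j → ∀ x, e i (e j x) = 0
  e_sum : ∀ x, ∑ i, e i x = x
  a_src : ∀ i j k x, a i j k (e i x) = a i j k x
  a_tgt : ∀ i j k x, e j (a i j k x) = a i j k x

/-- A finite-dimensional module over the path algebra `KQ` of the quiver `Q` with vertex set
`Fin n` and `m i j` arrows from `i` to `j`: a vector space `V` with linear maps `e i` for the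
vertices and `a i j k` for the arrows which satisfy the relations of the path algebra. -/
structure QMod (K : Type) [Field K] {n : ℕ} (m : Fin n → Fin n → ℕ) where
  V : Type
  [acg : AddCommGroup V]
  [mod : Module K V]
  [fin : FiniteDimensional K V]
  e : Fin n → V →ₗ[K] V
  a : (i j : Fin n) → Fin (m i j) → V →ₗ[K] V
  rep : IsRep m e a

attribute [instance] QMod.acg QMod.mod QMod.fin

variable {K : Type} [Field K] {n : ℕ} {m : Fin n → Fin n → ℕ}

theorem QMod.e_e (M : QMod K m) (i : Fin n) (x : M.V) : M.e i (M.e i x) = M.e i x :=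
  M.rep.e_e i x

theorem QMod.e_ne (M : QMod K m) (i j : Fin n) (h : i ≠ j) (x : M.V) : M.e i (M.e j x) = 0 :=
  M.rep.e_ne i j h x

theorem QMod.e_sum (M : QMod K m) (x : M.V) : ∑ i, M.e i x = x := M.rep.e_sum x

theorem QMod.a_src (M : QMod K m) (i j : Fin n) (k : Fin (m i j)) (x : M.V) :
    M.a i j k (M.e i x) = M.a i j k x := M.rep.a_src i j k x

theorem QMod.a_tgt (M : QMod K m) (i j : Fin n) (k : Fin (m i j)) (x : M.V) :
    M.e j (M.a i j k x) = M.a i j k x := M.rep.a_tgt i j k x

/-- `f` intertwines `g` and `g'`. -/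
@[reducible] def Comm {V V' : Type} [AddCommGroup V] [Module K V] [AddCommGroup V'] [Module K V']
    (f : V →ₗ[K] V') (g : V →ₗ[K] V) (g' : V' →ₗ[K] V') : Prop := ∀ x, f (g x) = g' (f x)

/-- `f` is a homomorphism of `KQ`-modules. -/
def IsHom (M N : QMod K m) (f : M.V →ₗ[K] N.V) : Prop :=
  (∀ i, Comm f (M.e i) (N.e i)) ∧ ∀ i j k, Comm f (M.a i j k) (N.a i j k)

/-- `W` is a submodule of the `KQ`-module `M`. -/
def QMod.Inv (M : QMod K m) (W : Submodule K M.V) : Prop :=
  (∀ i x, x ∈ W → M.e i x ∈ W) ∧ ∀ i j k x, x ∈ W → M.a i j k x ∈ W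

namespace QMod

variable (M : QMod K m) {W : Submodule K M.V} (hW : M.Inv W)

/-- The action of `e i` on a submodule. -/
def eSub (i : Fin n) : W →ₗ[K] W := (M.e i).restrict (hW.1 i)

/-- The action of an arrow on a submodule. -/
def aSub (i j : Fin n) (k : Fin (m i j)) : W →ₗ[K] W := (M.a i j k).restrict (hW.2 i j k)

/-- The action of `e i` on a quotient. -/
def eQuo (i : Fin n) : (M.V ⧸ W) →ₗ[K] (M.V ⧸ W) := W.mapQ W (M.e i) (hW.1 i)

/-- The action of an arrow on a quotient. -/
def aQuo (i j : Fin n) (k : Fin (m i j)) : (M.V ⧸ W) →ₗ[K] (M.V ⧸ W) :=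
  W.mapQ W (M.a i j k) (hW.2 i j k)

theorem rep_sub : IsRep m (M.eSub hW) (M.aSub hW) where
  e_e i x := Subtype.ext (M.e_e i x)
  e_ne i j h x := Subtype.ext (M.e_ne i j h x)
  e_sum x := Subtype.ext (by
    rw [AddSubmonoidClass.coe_finsetSum]
    exact M.e_sum x)
  a_src i j k x := Subtype.ext (M.a_src i j k x)
  a_tgt i j k x := Subtype.ext (M.a_tgt i j k x)

theorem rep_quo : IsRep m (M.eQuo hW) (M.aQuo hW) where
  e_e i x := by
    obtain ⟨x, rfl⟩ := W.mkQ_surjective x
    exact congrArg W.mkQ (M.e_e i x)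
  e_ne i j h x := by
    obtain ⟨x, rfl⟩ := W.mkQ_surjective x
    exact (congrArg W.mkQ (M.e_ne i j h x)).trans (map_zero _)
  e_sum x := by
    obtain ⟨x, rfl⟩ := W.mkQ_surjective x
    have h := congrArg W.mkQ (M.e_sum x)
    rw [map_sum] at h
    exact h
  a_src i j k x := by
    obtain ⟨x, rfl⟩ := W.mkQ_surjective x
    exact congrArg W.mkQ (M.a_src i j k x)
  a_tgt i j k x := by
    obtain ⟨x, rfl⟩ := W.mkQ_surjective x
    exact congrArg W.mkQ (M.a_tgt i j k x)

end QMod

/-- The submodule `W` as a module. -/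
def QMod.sub (M : QMod K m) (W : Submodule K M.V) (hW : M.Inv W) : QMod K m where
  V := W
  e := M.eSub hW
  a := M.aSub hW
  rep := M.rep_sub hW

/-- The quotient of `M` by the submodule `W`. -/
def QMod.quo (M : QMod K m) (W : Submodule K M.V) (hW : M.Inv W) : QMod K m where
  V := M.V ⧸ W
  e := M.eQuo hW
  a := M.aQuo hW
  rep := M.rep_quo hW

/-- A torsion class of `mod KQ`: it contains the zero modules and is closed under homomorphic
images and extensions. -/
structure Tors (K : Type) [Field K] {n : ℕ} (m : Fin n → Fin n → ℕ) where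
  mem : QMod K m → Prop
  zero : ∀ M : QMod K m, Subsingleton M.V → mem M
  quot : ∀ (M N : QMod K m) (f : M.V →ₗ[K] N.V), IsHom M N f → Function.Surjective f →
    mem M → mem N
  extn : ∀ (M : QMod K m) (W : Submodule K M.V) (hW : M.Inv W),
    mem (M.sub W hW) → mem (M.quo W hW) → mem M

theorem Tors.eq_of_mem {T T' : Tors K m} (h : ∀ M, T.mem M → T'.mem M)
    (h' : ∀ M, T'.mem M → T.mem M) : T = T' := by
  have : T.mem = T'.mem := funext fun M => propext ⟨h M, h' M⟩
  cases T; cases T'; cases this; rfl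

/-- Torsion classes ordered by inclusion. -/
instance : PartialOrder (Tors K m) where
  le T T' := ∀ M, T.mem M → T'.mem M
  le_refl _ _ h := h
  le_trans _ _ _ h h' M hM := h' M (h M hM)
  le_antisymm _ _ h h' := Tors.eq_of_mem h h'

/-- `L` is the length of a finite maximal chain of torsion classes of `mod KQ`: a chain from the
zero class to the class of all modules in which every step is a covering relation. -/
def IsLength (K : Type) [Field K] {n : ℕ} (m : Fin n → Fin n → ℕ) (L : ℕ) : Prop :=
  ∃ T : ℕ → Tors K m, (∀ M, (T 0).mem M ↔ Subsingleton M.V) ∧ (∀ M, (T L).mem M) ∧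
    ∀ k < L, T k ⋖ T (k + 1)

end Pool.Agent.MP_d9ddf5_al_h20
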