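import Pool.Agent.Lib.MP_d9ddf5_al_h20.Defs

/-!
# Deletion of multiple arrows and full subquivers: definitions
-/

set_option autoImplicit false

namespace Pool.Agent.MP_d9ddf5_al_h20

variable {K : Type} [Field K] {n n1 n2 : ℕ} {m : Fin n → Fin n → ℕ}

/-- The vertex `i` is in the support of the module `M`. -/
def QMod.Supp (M : QMod K m) (i : Fin n) : Prop := ∃ x, M.e i x ≠ 0

/-- `N` is in the torsion-free class of the torsion class `T`: every homomorphism from a module in
`T` to `N` is zero. -/
def Tors.Free (T : Tors K m) (N : QMod K m) : Prop :=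
  ∀ (X : QMod K m) (f : X.V →ₗ[K] N.V), T.mem X → IsHom X N f → f = 0

/-- The vertex `i` is in the support of some module of the torsion class `T`. -/
def Tors.Supp (T : Tors K m) (i : Fin n) : Prop := ∃ M, T.mem M ∧ M.Supp i

/-- The vertex `i` is in the support of some module of the torsion-free class of `T`. -/
def Tors.FSupp (T : Tors K m) (i : Fin n) : Prop := ∃ M, T.Free M ∧ M.Supp i

/-- The quiver with all multiple arrows deleted. -/
def single (m : Fin n → Fin n → ℕ) : Fin n → Fin n → ℕ := fun i j => if m i j = 1 then 1 else 0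

/-- `L` is the length of a finite maximal chain of torsion classes of the quiver `m₀` such that for
`R i j` at each step either the larger torsion class has no module supported at `i` or the
torsion-free class of the smaller one has no module supported at `j`. -/
def IsOrdLength (K : Type) [Field K] {n : ℕ} (m₀ : Fin n → Fin n → ℕ)
    (R : Fin n → Fin n → Prop) (L : ℕ) : Prop :=
  ∃ T : ℕ → Tors K m₀, (∀ M, (T 0).mem M ↔ Subsingleton M.V) ∧ (∀ M, (T L).mem M) ∧
    ∀ k < L, T k ⋖ T (k + 1) ∧ ∀ i j, R i j → ¬ (T (k + 1)).Supp i ∨ ¬ (T k).FSupp j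

/-- The full subquiver on the first `n1` vertices. -/
def fstPart (m : Fin (n1 + n2) → Fin (n1 + n2) → ℕ) : Fin n1 → Fin n1 → ℕ :=
  fun i j => m (Fin.castAdd n2 i) (Fin.castAdd n2 j)

/-- The full subquiver on the last `n2` vertices. -/
def sndPart (m : Fin (n1 + n2) → Fin (n1 + n2) → ℕ) : Fin n2 → Fin n2 → ℕ :=
  fun i j => m (Fin.natAdd n1 i) (Fin.natAdd n1 j)

end Pool.Agent.MP_d9ddf5_al_h20
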