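import Pool.Agent.Lib.MP_d9ddf5_al_h20.Main

/-!
# Deleting the multiple arrows
-/

set_option autoImplicit false

namespace Pool.Agent.MP_d9ddf5_al_h20

open Module LinearMap

variable {K : Type} [Field K] {n : ℕ} {m : Fin n → Fin n → ℕ}

theorem single_le (i j : Fin n) : single m i j ≤ m i j := by
  unfold single
  split_ifs with h
  · exact h.ge
  · exact Nat.zero_le _

theorem two_le_of_single_le {i j : Fin n} {k : ℕ} (hk : k < m i j) (h : single m i j ≤ k) :
    2 ≤ m i j := by
  unfold single at h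
  split_ifs at h with h1
  · omega
  · omega

/-- Forget the multiple arrows. -/
@[reducible] def flat (M : QMod K m) : QMod K (single m) where
  V := M.V
  e := M.e
  a i j k := M.a i j (Fin.castLE (single_le i j) k)
  rep :=
    { e_e := M.e_e
      e_ne := M.e_ne
      e_sum := M.e_sum
      a_src := fun i j _ x => M.a_src i j _ x
      a_tgt := fun i j _ x => M.a_tgt i j _ x }

/-- Let the multiple arrows act as zero. -/
@[reducible] def ext0 (M : QMod K (single m)) : QMod K m where
  V := M.V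
  e := M.e
  a i j k := if h : k.1 < single m i j then M.a i j ⟨k.1, h⟩ else 0
  rep :=
    { e_e := M.e_e
      e_ne := M.e_ne
      e_sum := M.e_sum
      a_src := fun i j k x => by
        split_ifs with h
        · exact M.a_src i j _ x
        · rfl
      a_tgt := fun i j k x => by
        split_ifs with h
        · exact M.a_tgt i j _ x
        · exact map_zero _ }

theorem ext0_a_lt (M : QMod K (single m)) {i j : Fin n} {k : Fin (m i j)}
    (h : k.1 < single m i j) (x : M.V) : (ext0 M).a i j k x = M.a i j ⟨k.1, h⟩ x := by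
  change (if h : k.1 < single m i j then M.a i j ⟨k.1, h⟩ else 0) x = _
  rw [dif_pos h]

theorem ext0_a_ge (M : QMod K (single m)) {i j : Fin n} {k : Fin (m i j)}
    (h : ¬ k.1 < single m i j) (x : M.V) : (ext0 M).a i j k x = 0 := by
  change (if h : k.1 < single m i j then M.a i j ⟨k.1, h⟩ else 0) x = _
  rw [dif_neg h]
  rfl

theorem IsHom.flat {M N : QMod K m} {f : M.V →ₗ[K] N.V} (hf : IsHom M N f) :
    IsHom (flat M) (flat N) f :=
  ⟨hf.1, fun i j _ x => hf.2 i j _ x⟩

theorem IsHom.ext0 {M N : QMod K (single m)} {f : M.V →ₗ[K] N.V} (hf : IsHom M N f) :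
    IsHom (ext0 M) (ext0 N) f := by
  refine ⟨hf.1, fun i j k x => ?_⟩
  by_cases h : k.1 < single m i j
  · rw [ext0_a_lt M h, ext0_a_lt N h]
    exact hf.2 i j _ x
  · rw [ext0_a_ge M h, ext0_a_ge N h, map_zero]

/-- The multiple arrows act as zero on `M`. -/
def Killed (M : QMod K m) : Prop := ∀ i j (k : Fin (m i j)) x, 2 ≤ m i j → M.a i j k x = 0

theorem isHom_id_ext0 {M : QMod K m} (hM : Killed M) :
    IsHom M (ext0 (flat M)) LinearMap.id := by
  refine ⟨fun _ _ => rfl, fun i j k x => ?_⟩
  by_cases h : k.1 < single m i j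
  · rw [ext0_a_lt _ h]
    rfl
  · rw [ext0_a_ge _ h]
    exact hM i j k x (two_le_of_single_le k.2 (not_lt.1 h))

theorem isHom_id_flat (M : QMod K (single m)) : IsHom M (flat (ext0 M)) LinearMap.id := by
  refine ⟨fun _ _ => rfl, fun i j k x => ?_⟩
  change M.a i j k x = (ext0 M).a i j (Fin.castLE (single_le i j) k) x
  rw [ext0_a_lt M (k := Fin.castLE (single_le i j) k) k.2]
  rfl

theorem Inv_flat {M : QMod K m} {W : Submodule K M.V} (hW : M.Inv W) : (flat M).Inv W :=
  ⟨hW.1, fun i j _ x hx => hW.2 i j _ x hx⟩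

theorem Inv_ext0 {M : QMod K (single m)} {W : Submodule K M.V} (hW : M.Inv W) :
    (ext0 M).Inv W := by
  refine ⟨hW.1, fun i j k x hx => ?_⟩
  by_cases h : k.1 < single m i j
  · rw [ext0_a_lt M h]
    exact hW.2 i j _ x hx
  · rw [ext0_a_ge M h]
    exact W.zero_mem

/-- The torsion class of the smaller quiver. -/
def down (T : Tors K m) : Tors K (single m) where
  mem M := T.mem (ext0 M)
  zero _ h := T.zero _ h
  quot _ _ f hf hs hM := T.quot _ _ f hf.ext0 hs hM
  extn M W hW h1 h2 := by
    refine T.extn (ext0 M) W (Inv_ext0 hW) ?_ ?_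
    · refine (T.mem_of_bij (M := ext0 (M.sub W hW)) (N := (ext0 M).sub W (Inv_ext0 hW))
        (f := LinearMap.id) ⟨fun _ _ => rfl, fun i j k x => ?_⟩ Function.bijective_id).1 h1
      refine Subtype.ext (a1 := (ext0 (M.sub W hW)).a i j k x) ?_
      change _ = (ext0 M).a i j k x.1
      by_cases h : k.1 < single m i j
      · rw [ext0_a_lt M h]
        exact congrArg Subtype.val (ext0_a_lt (M.sub W hW) h x)
      · rw [ext0_a_ge M h]
        exact congrArg Subtype.val (ext0_a_ge (M.sub W hW) h x)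
    · refine (T.mem_of_bij (M := ext0 (M.quo W hW)) (N := (ext0 M).quo W (Inv_ext0 hW))
        (f := LinearMap.id) ⟨fun _ _ => rfl, fun i j k x => ?_⟩ Function.bijective_id).1 h2
      obtain ⟨x, rfl⟩ := W.mkQ_surjective x
      by_cases h : k.1 < single m i j
      · change (ext0 (M.quo W hW)).a i j k (W.mkQ x) = W.mkQ ((ext0 M).a i j k x)
        rw [ext0_a_lt _ h, ext0_a_lt _ h]
        rfl
      · change (ext0 (M.quo W hW)).a i j k (W.mkQ x) = W.mkQ ((ext0 M).a i j k x)
        rw [ext0_a_ge _ h, ext0_a_ge _ h]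
        exact (map_zero W.mkQ).symm

/-- The torsion class of the larger quiver. -/
def up (y : Tors K (single m)) : Tors K m where
  mem M := y.mem (flat M)
  zero _ h := y.zero _ h
  quot _ _ f hf hs hM := y.quot _ _ f hf.flat hs hM
  extn M W hW h1 h2 := y.extn (flat M) W (Inv_flat hW) h1 h2

theorem down_up (y : Tors K (single m)) : down (up y) = y :=
  Tors.eq_of_mem
    (fun M h => (y.mem_of_bij (isHom_id_flat M) Function.bijective_id).2 h)
    (fun M h => (y.mem_of_bij (isHom_id_flat M) Function.bijective_id).1 h)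

theorem down_mono {T U : Tors K m} (h : T ≤ U) : down T ≤ down U := fun _ hM => h _ hM

theorem up_mono {y z : Tors K (single m)} (h : y ≤ z) : (up y : Tors K m) ≤ up z :=
  fun _ hM => h _ hM

theorem e_zero_of_not_supp {T : Tors K m} {M : QMod K m} (hM : T.mem M) {i : Fin n}
    (h : ¬ T.Supp i) (x : M.V) : M.e i x = 0 := by
  by_contra hx
  exact h ⟨M, hM, x, hx⟩

theorem e_zero_of_not_fsupp {T : Tors K m} {M : QMod K m} (hM : T.Free M) {i : Fin n}
    (h : ¬ T.FSupp i) (x : M.V) : M.e i x = 0 := by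
  by_contra hx
  exact h ⟨M, hM, x, hx⟩

theorem a_zero_src {M : QMod K m} {i j : Fin n} (k : Fin (m i j)) {x : M.V} (h : M.e i x = 0) :
    M.a i j k x = 0 := by
  rw [← M.a_src, h, map_zero]

theorem a_zero_tgt {M : QMod K m} {i j : Fin n} (k : Fin (m i j)) (h : ∀ x, M.e j x = 0)
    (x : M.V) : M.a i j k x = 0 := by
  rw [← M.a_tgt, h]

theorem a_mem_tgt {M : QMod K m} {W : Submodule K M.V} {i j : Fin n} (k : Fin (m i j))
    (h : ∀ x, M.e j x ∈ W) (x : M.V) : M.a i j k x ∈ W := by
  rw [← M.a_tgt]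
  exact h _

theorem e_mem_of_quo {M : QMod K m} {W : Submodule K M.V} (hW : M.Inv W) {j : Fin n}
    (h : ∀ z, (M.quo W hW).e j z = 0) (x : M.V) : M.e j x ∈ W :=
  (Submodule.Quotient.mk_eq_zero W).1 (h (W.mkQ x))

theorem mem_of_quo_subsingleton {T : Tors K m} {M : QMod K m} {W : Submodule K M.V}
    (hW : M.Inv W) (hT : T.mem (M.sub W hW)) (h : Subsingleton (M.quo W hW).V) : T.mem M := by
  have h2 : ∀ x, x ∈ W := fun x => (Submodule.Quotient.mk_eq_zero W).1 (h.elim (W.mkQ x) 0)
  exact T.quot (M.sub W hW) M W.subtype (IsHom.subtype _ hW) (fun x => ⟨⟨x, h2 x⟩, rfl⟩) hT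

/-- Separated torsion classes do not see the multiple arrows. -/
theorem mem_ext0_flat {T : Tors K m} (hT : T.Sep) (M : QMod K m) :
    T.mem M ↔ T.mem (ext0 (flat M)) := by
  constructor
  · intro hM
    obtain ⟨W, hW, hTW, hF⟩ := T.exists_tor (ext0 (flat M))
    have key : ∀ i j (k : Fin (m i j)) x, ¬ k.1 < single m i j → M.a i j k x ∈ W := by
      intro i j k x hk
      by_cases hi : T.Supp i
      · have hj := hT i j (two_le_of_single_le k.2 (not_lt.1 hk)) hi
        have hj' : ∀ z : M.V, M.e j z ∈ W := fun z =>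
          e_mem_of_quo (M := ext0 (flat M)) hW (e_zero_of_not_fsupp hF hj) z
        exact a_mem_tgt (M := M) k hj' x
      · rw [a_zero_src (M := M) k (e_zero_of_not_supp hM hi x)]
        exact W.zero_mem
    have hWM : M.Inv W := by
      refine ⟨hW.1, fun i j k x hx => ?_⟩
      by_cases h : k.1 < single m i j
      · have := hW.2 i j k x hx
        rwa [ext0_a_lt _ h] at this
      · exact key i j k x h
    have hid : IsHom (M.quo W hWM) ((ext0 (flat M)).quo W hW) LinearMap.id := by
      refine ⟨fun _ _ => rfl, fun i j k x => ?_⟩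
      obtain ⟨x, rfl⟩ := W.mkQ_surjective x
      change W.mkQ (M.a i j k x) = W.mkQ ((ext0 (flat M)).a i j k x)
      by_cases h : k.1 < single m i j
      · rw [ext0_a_lt _ h]
        rfl
      · rw [ext0_a_ge _ h, map_zero]
        exact (Submodule.Quotient.mk_eq_zero W).2 (key i j k x h)
    have h1 : T.mem (M.quo W hWM) :=
      T.quot M _ W.mkQ (IsHom.mkQ (M := M) W hWM) W.mkQ_surjective hM
    have h2 : T.Free (M.quo W hWM) := hF.of_inj hid Function.injective_id
    have h3 : Subsingleton (M.quo W hWM).V := T.subsingleton_of_mem_free h1 h2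
    exact mem_of_quo_subsingleton hW hTW h3
  · intro hM
    obtain ⟨W, hW, hTW, hF⟩ := T.exists_tor M
    have key : ∀ i j (k : Fin (m i j)) x, ¬ k.1 < single m i j → M.a i j k x ∈ W := by
      intro i j k x hk
      by_cases hi : T.Supp i
      · have hj := hT i j (two_le_of_single_le k.2 (not_lt.1 hk)) hi
        exact a_mem_tgt k (fun z => e_mem_of_quo hW (e_zero_of_not_fsupp hF hj) z) x
      · have h0 : M.e i x = 0 := e_zero_of_not_supp (M := ext0 (flat M)) hM hi x
        rw [a_zero_src (M := M) k h0]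
        exact W.zero_mem
    have hW' : (ext0 (flat M)).Inv W := Inv_ext0 (Inv_flat hW)
    have hid : IsHom ((ext0 (flat M)).quo W hW') (M.quo W hW) LinearMap.id := by
      refine ⟨fun _ _ => rfl, fun i j k x => ?_⟩
      obtain ⟨x, rfl⟩ := W.mkQ_surjective x
      change W.mkQ ((ext0 (flat M)).a i j k x) = W.mkQ (M.a i j k x)
      by_cases h : k.1 < single m i j
      · rw [ext0_a_lt _ h]
        rfl
      · rw [ext0_a_ge _ h, map_zero]
        exact ((Submodule.Quotient.mk_eq_zero W).2 (key i j k x h)).symm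
    have h1 : T.mem ((ext0 (flat M)).quo W hW') :=
      T.quot (ext0 (flat M)) _ W.mkQ (IsHom.mkQ (M := ext0 (flat M)) W hW') W.mkQ_surjective hM
    have h2 : T.mem (M.quo W hW) := (T.mem_of_bij hid Function.bijective_id).1 h1
    exact mem_of_quo_subsingleton hW hTW (T.subsingleton_of_mem_free h2 hF)

theorem up_down {T : Tors K m} (hT : T.Sep) : up (down T) = T :=
  Tors.eq_of_mem (fun M h => (mem_ext0_flat hT M).2 h) (fun M h => (mem_ext0_flat hT M).1 h)

theorem down_covBy {T x : Tors K m} (hT : T.Sep) (hx : x.Sep) (h : T ⋖ x) : down T ⋖ down x := by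
  refine ⟨lt_of_le_not_ge (down_mono h.le) fun h1 => ?_, fun z h1 h2 => ?_⟩
  · have h2 := up_mono (m := m) h1
    rw [up_down hT, up_down hx] at h2
    exact h.lt.not_ge h2
  · have h3 := up_mono (m := m) h1.le
    have h4 := up_mono (m := m) h2.le
    rw [up_down hT] at h3
    rw [up_down hx] at h4
    rcases h.eq_or_eq h3 h4 with h5 | h5
    · rw [← down_up (m := m) z, h5] at h1
      exact lt_irrefl _ h1
    · rw [← down_up (m := m) z, h5] at h2
      exact lt_irrefl _ h2

theorem supp_down {T : Tors K m} {i : Fin n} (h : (down T).Supp i) : T.Supp i := by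
  obtain ⟨M, hM, x, hx⟩ := h
  exact ⟨ext0 M, hM, x, hx⟩

theorem fsupp_down {T : Tors K m} (hT : T.Sep) {j : Fin n} (h : (down T).FSupp j) :
    T.FSupp j := by
  obtain ⟨N, hN, z, hz⟩ := h
  refine ⟨ext0 N, ?_, z, hz⟩
  intro X f hX hf
  have h1 : (down T).mem (flat X) := (mem_ext0_flat hT X).1 hX
  refine hN (flat X) f h1 ⟨hf.1, fun i j k x => ?_⟩
  have h2 := hf.2 i j (Fin.castLE (single_le i j) k) x
  rw [ext0_a_lt N (k := Fin.castLE (single_le i j) k) k.2] at h2
  exact h2

/-- Each step of a separated chain satisfies the order condition. -/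
theorem step_cond (hac : ∀ i j, m i j ≠ 0 → i < j) {T x : Tors K m} (hT : T.Sep) (hx : x.Sep)
    (h : T ⋖ x) {i j : Fin n} (hij : 2 ≤ m i j) : ¬ x.Supp i ∨ ¬ T.FSupp j := by
  by_contra hcon
  push Not at hcon
  obtain ⟨hi, hj⟩ := hcon
  have hTi : ¬ T.Supp i := fun h1 => hT i j hij h1 hj
  have hxj : ¬ x.FSupp j := hx i j hij hi
  obtain ⟨B, hB⟩ := exists_label h.lt.not_ge
  -- `B` is supported at `i`
  obtain ⟨N, hNx, hNF, hNi⟩ := exists_free_supp hi hTi
  obtain ⟨r, hr, -, -⟩ := hB.exists_mult h _ N le_rfl hNx hNF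
  have hBi : B.Supp i := by
    by_contra h1
    have h2 := hr i
    rw [(B.dim_eq_zero i).2 h1, mul_zero, N.dim_eq_zero] at h2
    exact h2 hNi
  -- `B` is supported at `j`
  obtain ⟨P, hPF, y, hy⟩ := hj
  obtain ⟨W, hW, hTW, hFW⟩ := x.exists_tor P
  have h3 : T.Free (P.sub W hW) := hPF.sub W hW
  obtain ⟨s, hs, -, -⟩ := hB.exists_mult h _ (P.sub W hW) le_rfl hTW h3
  have hBj : B.Supp j := by
    by_contra h1
    have h2 := hs j
    rw [(B.dim_eq_zero j).2 h1, mul_zero, QMod.dim_eq_zero] at h2
    have h4 : P.e j y ∈ W := e_mem_of_quo hW (e_zero_of_not_fsupp hFW hxj) y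
    apply h2
    refine ⟨⟨P.e j y, h4⟩, fun h5 => hy ?_⟩
    have h6 : P.e j (P.e j y) = 0 := congrArg Subtype.val h5
    rwa [P.e_e] at h6
  exact label_supp hac hT h hB i j (Relation.TransGen.single hij) hBi hBj

/-- The heart of a step which satisfies the order condition. -/
theorem heart {y z : Tors K (single m)}
    (hc : ∀ i j, 2 ≤ m i j → ¬ z.Supp i ∨ ¬ y.FSupp j) {N : QMod K m} (hz : (up z).mem N)
    (hF : (up y).Free N) : Killed N ∧ y.Free (flat N) := by
  have hz' : z.mem (flat N) := hz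
  obtain ⟨U, hU, hyU, hyF⟩ := y.exists_tor (flat N)
  have hUN : N.Inv U := by
    refine ⟨hU.1, fun i j k x hx => ?_⟩
    by_cases h : k.1 < single m i j
    · exact hU.2 i j ⟨k.1, h⟩ x hx
    · rcases hc i j (two_le_of_single_le k.2 (not_lt.1 h)) with h1 | h1
      · have h2 : N.e i x = 0 := e_zero_of_not_supp hz' h1 x
        rw [a_zero_src k h2]
        exact U.zero_mem
      · exact a_mem_tgt k (fun w => e_mem_of_quo hU (e_zero_of_not_fsupp hyF h1) w) x
  have h0 : U = ⊥ := by
    have h1 := hF (N.sub U hUN) U.subtype hyU (IsHom.subtype (M := N) U hUN)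
    rw [eq_bot_iff]
    intro x hx
    have h2 : x = 0 := LinearMap.congr_fun h1 ⟨x, hx⟩
    rw [h2]
    exact Submodule.zero_mem _
  have hfree : y.Free (flat N) := by
    refine hyF.of_inj (IsHom.mkQ U hU) fun a b hab => ?_
    have h1 : a - b ∈ U := (Submodule.Quotient.eq U).1 hab
    rw [h0, Submodule.mem_bot, sub_eq_zero] at h1
    exact h1
  refine ⟨fun i j k x hij => ?_, hfree⟩
  rcases hc i j hij with h1 | h1
  · exact a_zero_src k (e_zero_of_not_supp hz' h1 x)
  · exact a_zero_tgt k (fun w => e_zero_of_not_fsupp hfree h1 w) x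

theorem up_covBy {y z : Tors K (single m)} (h : y ⋖ z)
    (hc : ∀ i j, 2 ≤ m i j → ¬ z.Supp i ∨ ¬ y.FSupp j) : (up y : Tors K m) ⋖ up z := by
  refine ⟨lt_of_le_not_ge (up_mono h.le) fun h1 => ?_, fun x h1 h2 => ?_⟩
  · have h2 := down_mono h1
    rw [down_up, down_up] at h2
    exact h.lt.not_ge h2
  · have h3 := down_mono h1.le
    have h4 := down_mono h2.le
    rw [down_up] at h3 h4
    rcases h.eq_or_eq h3 h4 with h5 | h5
    · refine h1.not_ge fun M hM => ?_
      obtain ⟨W, hW, hT, hF⟩ := (up y).exists_tor M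
      have hN : x.mem (M.quo W hW) := x.quot M _ W.mkQ (IsHom.mkQ W hW) W.mkQ_surjective hM
      obtain ⟨hk, hf⟩ := heart hc (h2.le _ hN) hF
      have h6 : (down x).mem (flat (M.quo W hW)) :=
        (x.mem_of_bij (isHom_id_ext0 hk) Function.bijective_id).1 hN
      rw [h5] at h6
      exact mem_of_quo_subsingleton hW hT (y.subsingleton_of_mem_free h6 hf)
    · refine h2.not_ge fun M hM => ?_
      obtain ⟨W, hW, hT, hF⟩ := x.exists_tor M
      have hN : (up z).mem (M.quo W hW) :=
        (up z).quot M _ W.mkQ (IsHom.mkQ W hW) W.mkQ_surjective hM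
      obtain ⟨hk, -⟩ := heart hc hN (hF.mono h1.le)
      have h6 : z.mem (flat (M.quo W hW)) := hN
      rw [← h5] at h6
      have h7 : x.mem (M.quo W hW) := (x.mem_of_bij (isHom_id_ext0 hk) Function.bijective_id).2 h6
      exact mem_of_quo_subsingleton hW hT (x.subsingleton_of_mem_free h7 hF)

theorem isLength_iff [IsAlgClosed K] (hac : ∀ i j, m i j ≠ 0 → i < j) (L : ℕ) :
    IsLength K m L ↔ IsOrdLength K (single m) (fun i j => 2 ≤ m i j) L := by
  constructor
  · rintro ⟨T, h0, hL, hc⟩
    have hsep : ∀ k ≤ L, (T k).Sep := by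
      intro k
      induction k with
      | zero =>
          intro _ i j _ hi
          obtain ⟨M, hM, x, hx⟩ := hi
          exact absurd (((h0 M).1 hM).elim _ _) hx
      | succ k ih =>
          intro hk
          have h1 : Up (T (k + 1)) (L - (k + 1)) := by
            refine up_of_chain (fun j => T (k + 1 + j)) (L - (k + 1)) ?_ ?_
            · have e : k + 1 + (L - (k + 1)) = L := by omega
              simpa only [e] using hL
            · intro j hj
              have := hc (k + 1 + j) (by omega)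
              simpa only [add_assoc] using this
          exact sep_step hac (ih (by omega)) (hc k (by omega)) h1
    refine ⟨fun k => down (T k), fun M => h0 _, fun M => hL _, fun k hk => ⟨?_, ?_⟩⟩
    · exact down_covBy (hsep k hk.le) (hsep (k + 1) hk) (hc k hk)
    · intro i j hij
      rcases step_cond hac (hsep k hk.le) (hsep (k + 1) hk) (hc k hk) hij with h | h
      · exact Or.inl fun h1 => h (supp_down h1)
      · exact Or.inr fun h1 => h (fsupp_down (hsep k hk.le) h1)
  · rintro ⟨y, h0, hL, hc⟩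
    exact ⟨fun k => up (y k), fun M => h0 (flat M), fun M => hL _, fun k hk =>
      up_covBy (hc k hk).1 (hc k hk).2⟩

end Pool.Agent.MP_d9ddf5_al_h20
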