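import Pool.Agent.Lib.MP_d9ddf5_al_h20.Labels

/-!
# The homological form
-/

set_option autoImplicit false

namespace Pool.Agent.MP_d9ddf5_al_h20

open Module LinearMap

variable {K : Type} [Field K] {n : ℕ} {m : Fin n → Fin n → ℕ}

/-- The homological form. -/
def form (m : Fin n → Fin n → ℕ) (d d' : Fin n → ℤ) : ℤ :=
  ∑ i, d i * d' i - ∑ i, ∑ j, (m i j : ℤ) * (d i * d' j)

/-- The dimension vector with integer entries. -/
noncomputable def QMod.dimZ (M : QMod K m) : Fin n → ℤ := fun i => (M.dim i : ℤ)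

variable (M N : QMod K m)

/-- The differential whose kernel is `Hom(M, N)`. -/
noncomputable def diff : ((i : Fin n) → (range (M.e i) →ₗ[K] range (N.e i))) →ₗ[K]
    ((p : Σ i : Fin n, Σ j : Fin n, Fin (m i j)) → (range (M.e p.1) →ₗ[K] range (N.e p.2.1))) where
  toFun f p :=
    ((N.a p.1 p.2.1 p.2.2 ∘ₗ (range (N.e p.1)).subtype ∘ₗ f p.1).codRestrict (range (N.e p.2.1))
      (fun x => ⟨N.a p.1 p.2.1 p.2.2 (f p.1 x), N.a_tgt _ _ _ _⟩)) -
    (f p.2.1 ∘ₗ (M.a p.1 p.2.1 p.2.2 ∘ₗ (range (M.e p.1)).subtype).codRestrict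
      (range (M.e p.2.1)) (fun x => ⟨M.a p.1 p.2.1 p.2.2 x, M.a_tgt _ _ _ _⟩))
  map_add' f g := by
    funext p
    ext x
    simp
    abel
  map_smul' c f := by
    funext p
    ext x
    simp [smul_sub]

/-- The homomorphism defined by an element of the kernel of the differential. -/
noncomputable def homOf (f : (i : Fin n) → (range (M.e i) →ₗ[K] range (N.e i))) :
    M.V →ₗ[K] N.V :=
  ∑ i, (range (N.e i)).subtype ∘ₗ f i ∘ₗ (M.e i).rangeRestrict

theorem homOf_apply (f : (i : Fin n) → (range (M.e i) →ₗ[K] range (N.e i))) (x : M.V) :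
    homOf M N f x = ∑ i, (f i ⟨M.e i x, x, rfl⟩ : N.V) := by
  unfold homOf
  rw [LinearMap.sum_apply]
  rfl

theorem e_homOf (f : (i : Fin n) → (range (M.e i) →ₗ[K] range (N.e i))) (i : Fin n) (x : M.V) :
    N.e i (homOf M N f x) = (f i ⟨M.e i x, x, rfl⟩ : N.V) := by
  rw [homOf_apply, map_sum, Finset.sum_eq_single i]
  · obtain ⟨z, hz⟩ := (f i ⟨M.e i x, x, rfl⟩).2
    rw [← hz, N.e_e]
  · intro j _ hj
    obtain ⟨z, hz⟩ := (f j ⟨M.e j x, x, rfl⟩).2
    rw [← hz, N.e_ne i j hj.symm]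
  · intro h
    exact absurd (Finset.mem_univ i) h

theorem homOf_e (f : (i : Fin n) → (range (M.e i) →ₗ[K] range (N.e i))) (i : Fin n) (x : M.V) :
    homOf M N f (M.e i x) = (f i ⟨M.e i x, x, rfl⟩ : N.V) := by
  rw [homOf_apply, Finset.sum_eq_single i]
  · have : (⟨M.e i (M.e i x), M.e i x, rfl⟩ : range (M.e i)) = ⟨M.e i x, x, rfl⟩ :=
      Subtype.ext (M.e_e i x)
    rw [this]
  · intro j _ hj
    have : (⟨M.e j (M.e i x), M.e i x, rfl⟩ : range (M.e j)) = 0 := Subtype.ext (M.e_ne j i hj x)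
    rw [this, map_zero]
    rfl
  · intro h
    exact absurd (Finset.mem_univ i) h

theorem homOf_injective : Function.Injective (homOf M N) := by
  intro f g h
  funext i
  ext ⟨_, x, rfl⟩
  rw [← homOf_e, ← homOf_e, h]

theorem isHom_homOf {f : (i : Fin n) → (range (M.e i) →ₗ[K] range (N.e i))}
    (hf : diff M N f = 0) : IsHom M N (homOf M N f) := by
  constructor
  · intro i x
    rw [homOf_e, e_homOf]
  · intro i j k x
    have h1 := congrFun hf ⟨i, j, k⟩
    have h2 := LinearMap.congr_fun h1 ⟨M.e i x, x, rfl⟩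
    have h3 : N.a i j k (f i ⟨M.e i x, x, rfl⟩ : N.V) -
        (f j ⟨M.a i j k (M.e i x), M.a i j k (M.e i x), M.a_tgt _ _ _ _⟩ : N.V) = 0 :=
      congrArg Subtype.val h2
    rw [sub_eq_zero] at h3
    rw [← N.a_src, e_homOf, h3]
    have h4 : homOf M N f (M.a i j k x) = homOf M N f (M.e j (M.a i j k x)) := by
      rw [M.a_tgt]
    rw [h4, homOf_e]
    have h5 : (⟨M.a i j k (M.e i x), M.a i j k (M.e i x), M.a_tgt _ _ _ _⟩ : range (M.e j)) =
        ⟨M.e j (M.a i j k x), M.a i j k x, rfl⟩ := by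
      apply Subtype.ext
      change M.a i j k (M.e i x) = M.e j (M.a i j k x)
      rw [M.a_src, M.a_tgt]
    rw [h5]

theorem form_le_finrank_ker : form m M.dimZ N.dimZ ≤ (finrank K (ker (diff M N)) : ℤ) := by
  have h1 := finrank_range_add_finrank_ker (diff M N)
  have h2 : finrank K ((i : Fin n) → (range (M.e i) →ₗ[K] range (N.e i))) =
      ∑ i, M.dim i * N.dim i := by
    rw [finrank_pi_fintype]
    exact Finset.sum_congr rfl fun i _ => finrank_linearMap K K _ _
  have h3 : finrank K ((p : Σ i : Fin n, Σ j : Fin n, Fin (m i j)) →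
      (range (M.e p.1) →ₗ[K] range (N.e p.2.1))) =
      ∑ i, ∑ j, m i j * (M.dim i * N.dim j) := by
    rw [finrank_pi_fintype]
    rw [Finset.sum_congr rfl fun (p : Σ i : Fin n, Σ j : Fin n, Fin (m i j)) _ =>
      finrank_linearMap K K (range (M.e p.1)) (range (N.e p.2.1))]
    rw [Fintype.sum_sigma]
    refine Finset.sum_congr rfl fun i _ => ?_
    rw [Fintype.sum_sigma]
    refine Finset.sum_congr rfl fun j _ => ?_
    refine (Finset.sum_const (M.dim i * N.dim j)).trans ?_
    rw [smul_eq_mul]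
    congr 1
    exact (Finset.card_univ).trans (Fintype.card_fin _)
  have h4 : finrank K (range (diff M N)) ≤ ∑ i, ∑ j, m i j * (M.dim i * N.dim j) := by
    rw [← h3]
    exact Submodule.finrank_le _
  unfold form QMod.dimZ
  rw [h2] at h1
  have h5 : (∑ i, (M.dim i : ℤ) * (N.dim i : ℤ)) = ((∑ i, M.dim i * N.dim i : ℕ) : ℤ) := by
    push_cast
    rfl
  have h6 : (∑ i, ∑ j, (m i j : ℤ) * ((M.dim i : ℤ) * (N.dim j : ℤ))) =
      ((∑ i, ∑ j, m i j * (M.dim i * N.dim j) : ℕ) : ℤ) := by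
    push_cast
    rfl
  rw [h5, h6]
  omega

/-- There is a nonzero homomorphism when the form is positive. -/
theorem exists_hom_of_form_pos (h : 0 < form m M.dimZ N.dimZ) :
    ∃ f : M.V →ₗ[K] N.V, IsHom M N f ∧ f ≠ 0 := by
  have h1 := form_le_finrank_ker M N
  have h2 : 0 < finrank K (ker (diff M N)) := by omega
  have h3 : ker (diff M N) ≠ ⊥ := by
    intro h4
    rw [h4, finrank_bot] at h2
    exact lt_irrefl _ h2
  obtain ⟨f, hf, hf0⟩ := (Submodule.ne_bot_iff _).1 h3
  refine ⟨homOf M N f, isHom_homOf M N hf, fun h4 => hf0 ?_⟩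
  apply homOf_injective M N
  rw [h4]
  ext x
  rw [homOf_apply]
  simp

/-- The form is at most one at modules with scalar endomorphisms. -/
theorem form_le_one (h : ∀ f : M.V →ₗ[K] M.V, IsHom M M f → ∃ c : K, f = c • LinearMap.id) :
    form m M.dimZ M.dimZ ≤ 1 := by
  refine (form_le_finrank_ker M M).trans ?_
  let g : ker (diff M M) →ₗ[K] (M.V →ₗ[K] M.V) :=
    { toFun := fun f => homOf M M f
      map_add' := fun f g => by
        ext x
        simp [homOf_apply, Finset.sum_add_distrib]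
      map_smul' := fun c f => by
        ext x
        simp [homOf_apply, Finset.smul_sum] }
  have hg : Function.Injective g := fun f f' h1 => Subtype.ext (homOf_injective M M h1)
  have h2 : range g ≤ Submodule.span K {(LinearMap.id : M.V →ₗ[K] M.V)} := by
    rintro _ ⟨f, rfl⟩
    obtain ⟨c, hc⟩ := h _ (isHom_homOf M M f.2)
    rw [Submodule.mem_span_singleton]
    exact ⟨c, hc.symm⟩
  have h3 : finrank K (ker (diff M M)) = finrank K (range g) := (finrank_range_of_inj hg).symm
  have h4 : finrank K (range g) ≤ 1 := by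
    refine (Submodule.finrank_mono h2).trans ?_
    exact (finrank_span_le_card _).trans (by simp)
  omega

end Pool.Agent.MP_d9ddf5_al_h20
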