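import Pool.Agent.Lib.MP_d9ddf5_al_h20.Labels

/-!
# Submodules generated by one element; gluing of a module with simple socle and a module with
simple top along multiple arrows
-/

set_option autoImplicit false

namespace Pool.Agent.MP_d9ddf5_al_h20

open Module LinearMap

variable {K : Type} [Field K] {n : ℕ} {m : Fin n → Fin n → ℕ}

/-- The submodule generated by `x`. -/
def QMod.gen (M : QMod K m) (x : M.V) : Submodule K M.V :=
  sInf {W | M.Inv W ∧ x ∈ W}

theorem QMod.gen_inv (M : QMod K m) (x : M.V) : M.Inv (M.gen x) := by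
  constructor
  · intro i y hy
    rw [QMod.gen, Submodule.mem_sInf] at hy ⊢
    exact fun W hW => hW.1.1 i y (hy W hW)
  · intro i j k y hy
    rw [QMod.gen, Submodule.mem_sInf] at hy ⊢
    exact fun W hW => hW.1.2 i j k y (hy W hW)

theorem QMod.mem_gen (M : QMod K m) (x : M.V) : x ∈ M.gen x := by
  rw [QMod.gen, Submodule.mem_sInf]
  exact fun W hW => hW.2

theorem QMod.gen_le (M : QMod K m) {x : M.V} {W : Submodule K M.V} (hW : M.Inv W) (hx : x ∈ W) :
    M.gen x ≤ W := sInf_le ⟨hW, hx⟩

/-- Elements generated by an element of the vertex space at `b`. -/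
theorem QMod.gen_spec (hac : ∀ i j, m i j ≠ 0 → i < j) (M : QMod K m) {b : Fin n} {x : M.V}
    (hx : M.e b x = x) {y : M.V} (hy : y ∈ M.gen x) :
    ∃ c : K, ∀ u ≤ b, M.e u (y - c • x) = 0 := by
  let W : Submodule K M.V :=
    { carrier := {y | ∃ c : K, ∀ u ≤ b, M.e u (y - c • x) = 0}
      add_mem' := by
        rintro y z ⟨c, hc⟩ ⟨d, hd⟩
        refine ⟨c + d, fun u hu => ?_⟩
        have : y + z - (c + d) • x = (y - c • x) + (z - d • x) := by
          rw [add_smul]; abel
        rw [this, map_add, hc u hu, hd u hu, add_zero]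
      zero_mem' := ⟨0, fun u _ => by simp⟩
      smul_mem' := by
        rintro d y ⟨c, hc⟩
        refine ⟨d * c, fun u hu => ?_⟩
        have : d • y - (d * c) • x = d • (y - c • x) := by
          rw [smul_sub, mul_smul]
        rw [this, map_smul, hc u hu, smul_zero] }
  have hW : M.Inv W := by
    constructor
    · rintro i y ⟨c, hc⟩
      refine ⟨if i = b then c else 0, fun u hu => ?_⟩
      by_cases hib : i = b
      · subst hib
        have : M.e i y - c • x = M.e i (y - c • x) := by
          rw [map_sub, map_smul, hx]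
        rw [if_pos rfl, this, hc i le_rfl, map_zero]
      · rw [if_neg hib, zero_smul, sub_zero]
        by_cases hui : u = i
        · subst hui
          have h1 := hc u hu
          rw [map_sub, map_smul, ← hx, M.e_ne u b hib, smul_zero, sub_zero] at h1
          rw [M.e_e, h1]
        · exact M.e_ne u i hui y
    · rintro i j k y ⟨c, hc⟩
      refine ⟨0, fun u hu => ?_⟩
      rw [zero_smul, sub_zero]
      have hij : i < j := hac i j fun h0 => by
        rw [h0] at k
        exact k.elim0
      by_cases huj : u = j
      · subst huj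
        have hib : i < b := lt_of_lt_of_le hij hu
        have h1 := hc i hib.le
        rw [map_sub, map_smul, ← hx, M.e_ne i b hib.ne, smul_zero, sub_zero] at h1
        rw [← M.a_src, h1, map_zero, map_zero]
      · rw [← M.a_tgt, M.e_ne u j huj]
  exact M.gen_le hW (x := x) ⟨1, fun u _ => by simp⟩ hy

/-- `B` has its vertex space at `a` spanned by `w`, contained in every nonzero submodule; its
support is at most `a`. -/
structure SocData (B : QMod K m) (a : Fin n) (w : B.V) : Prop where
  e_w : B.e a w = w
  w0 : w ≠ 0
  span : ∀ y, ∃ c : K, B.e a y = c • w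
  low : ∀ u, a < u → ∀ y, B.e u y = 0
  soc : ∀ W : Submodule K B.V, B.Inv W → W ≠ ⊥ → w ∈ W

/-- `N` is generated by `x`, which spans the vertex space at `b`; its support is at least `b`. -/
structure CycData (N : QMod K m) (b : Fin n) (x : N.V) : Prop where
  e_x : N.e b x = x
  x0 : x ≠ 0
  span : ∀ y, ∃ c : K, N.e b y = c • x
  high : ∀ u, u < b → ∀ y, N.e u y = 0
  top : ∀ W : Submodule K N.V, N.Inv W → x ∈ W → W = ⊤

/-- A cocycle for extensions of `B` by `N`. -/
structure Coc (B N : QMod K m) where
  d : (i j : Fin n) → Fin (m i j) → B.V →ₗ[K] N.V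
  d_src : ∀ i j k x, d i j k (B.e i x) = d i j k x
  d_tgt : ∀ i j k x, N.e j (d i j k x) = d i j k x

/-- The extension of `B` by `N` defined by a cocycle. -/
@[reducible] def glue (B N : QMod K m) (c : Coc B N) : QMod K m where
  V := B.V × N.V
  e i := (B.e i).prodMap (N.e i)
  a i j k := ((B.a i j k) ∘ₗ fst K B.V N.V).prod
    ((N.a i j k) ∘ₗ snd K B.V N.V + (c.d i j k) ∘ₗ fst K B.V N.V)
  rep :=
    { e_e := fun i x => Prod.ext (B.e_e i _) (N.e_e i _)
      e_ne := fun i j h x => Prod.ext (B.e_ne i j h _) (N.e_ne i j h _)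
      e_sum := fun x => by
        apply Prod.ext
        · have h : (∑ i, (B.e i).prodMap (N.e i) x).1 = ∑ i, B.e i x.1 := by
            rw [Prod.fst_sum]
            rfl
          exact h.trans (B.e_sum _)
        · have h : (∑ i, (B.e i).prodMap (N.e i) x).2 = ∑ i, N.e i x.2 := by
            rw [Prod.snd_sum]
            rfl
          exact h.trans (N.e_sum _)
      a_src := fun i j k x => by
        apply Prod.ext
        · exact B.a_src i j k _
        · change N.a i j k (N.e i x.2) + c.d i j k (B.e i x.1) = N.a i j k x.2 + c.d i j k x.1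
          rw [N.a_src, c.d_src]
      a_tgt := fun i j k x => by
        apply Prod.ext
        · exact B.a_tgt i j k _
        · change N.e j (N.a i j k x.2 + c.d i j k x.1) = N.a i j k x.2 + c.d i j k x.1
          rw [map_add, N.a_tgt, c.d_tgt] }

section glue

variable {B N : QMod K m} (c : Coc B N)

theorem glue_inr : IsHom N (glue B N c) (inr K B.V N.V) := by
  constructor
  · intro i x
    apply Prod.ext
    · exact (map_zero (B.e i)).symm
    · rfl
  · intro i j k x
    apply Prod.ext
    · exact (map_zero (B.a i j k)).symm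
    · change N.a i j k x = N.a i j k x + c.d i j k 0
      rw [map_zero, add_zero]

theorem glue_fst : IsHom (glue B N c) B (fst K B.V N.V) :=
  ⟨fun _ _ => rfl, fun _ _ _ _ => rfl⟩

theorem glue_inr_inj : Function.Injective (inr K B.V N.V) := inr_injective

theorem glue_fst_surj : Function.Surjective (fst K B.V N.V) := fst_surjective

theorem glue_exact : ker (fst K B.V N.V) = range (inr K B.V N.V) := by
  ext ⟨p, q⟩
  constructor
  · intro h
    have h1 : p = 0 := h
    exact ⟨q, by rw [h1]; rfl⟩
  · rintro ⟨q', h⟩
    have h1 : (0 : B.V) = p := congrArg Prod.fst h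
    exact h1.symm

end glue

/-- The cocycle on the arrows from `a` to `b` with coefficients `ξ`. -/
noncomputable def coc (B N : QMod K m) (a b : Fin n) (l : B.V →ₗ[K] K) (x : N.V) (ξ : ℕ → K)
    (hl : ∀ y, l (B.e a y) = l y) (hx : N.e b x = x) : Coc B N where
  d i j k := if i = a ∧ j = b then ξ k • l.smulRight x else 0
  d_src i j k y := by
    split_ifs with h
    · obtain ⟨rfl, rfl⟩ := h
      simp [hl]
    · rfl
  d_tgt i j k y := by
    split_ifs with h
    · obtain ⟨rfl, rfl⟩ := h
      simp [hx]
    · simp

end Pool.Agent.MP_d9ddf5_al_h20
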