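import Pool.Agent.Lib.MP_d9ddf5_al_h20.Del

/-!
# Modules of a full subquiver
-/

set_option autoImplicit false

namespace Pool.Agent.MP_d9ddf5_al_h20

open Module LinearMap

variable {K : Type} [Field K] {n n' : ℕ} {m : Fin n → Fin n → ℕ} {m' : Fin n' → Fin n' → ℕ}
  {f : Fin n' → Fin n}

/-- `f` identifies the quiver `m'` with a full subquiver of `m`. -/
structure FullSub (m' : Fin n' → Fin n' → ℕ) (m : Fin n → Fin n → ℕ) (f : Fin n' → Fin n) :
    Prop where
  inj : Function.Injective f
  arr : ∀ i j, m' i j = m (f i) (f j)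

/-- The action of the idempotents on the inflated module. -/
noncomputable def inflE (f : Fin n' → Fin n) (M : QMod K m') (i : Fin n) : M.V →ₗ[K] M.V := by
  classical
  exact if h : ∃ i', f i' = i then M.e h.choose else 0

/-- The action of the arrows on the inflated module. -/
noncomputable def inflA (hf : FullSub m' m f) (M : QMod K m') (i j : Fin n) (k : Fin (m i j)) :
    M.V →ₗ[K] M.V := by
  classical
  exact if h : ∃ p : Fin n' × Fin n', f p.1 = i ∧ f p.2 = j then
    M.a h.choose.1 h.choose.2 (Fin.cast (by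
      rw [hf.arr, h.choose_spec.1, h.choose_spec.2]) k) else 0

theorem inflE_apply (hf : FullSub m' m f) (M : QMod K m') (i : Fin n') :
    inflE f M (f i) = M.e i := by
  classical
  have h : ∃ i', f i' = f i := ⟨i, rfl⟩
  unfold inflE
  rw [dif_pos h, hf.inj h.choose_spec]

theorem inflE_not (M : QMod K m') {i : Fin n} (h : ∀ i', f i' ≠ i) : inflE f M i = 0 := by
  classical
  unfold inflE
  rw [dif_neg]
  rintro ⟨i', hi⟩
  exact h i' hi

theorem inflA_aux (M : QMod K m') (i j : Fin n') (k : Fin (m' i j))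
    (p : Fin n' × Fin n') (h1 : p.1 = i) (h2 : p.2 = j) (e : m' i j = m' p.1 p.2) :
    M.a p.1 p.2 (Fin.cast e k) = M.a i j k := by
  obtain ⟨p1, p2⟩ := p
  subst h1 h2
  rfl

theorem inflA_apply (hf : FullSub m' m f) (M : QMod K m') (i j : Fin n') (k : Fin (m' i j)) :
    inflA hf M (f i) (f j) (Fin.cast (hf.arr i j) k) = M.a i j k := by
  classical
  have h : ∃ p : Fin n' × Fin n', f p.1 = f i ∧ f p.2 = f j := ⟨(i, j), rfl, rfl⟩
  unfold inflA
  rw [dif_pos h]
  have h1 : h.choose.1 = i := hf.inj h.choose_spec.1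
  have h2 : h.choose.2 = j := hf.inj h.choose_spec.2
  exact inflA_aux M i j k h.choose h1 h2 (by rw [h1, h2])

theorem inflA_not (hf : FullSub m' m f) (M : QMod K m') {i j : Fin n} (k : Fin (m i j))
    (h : ∀ i' j', f i' = i → f j' ≠ j) : inflA hf M i j k = 0 := by
  classical
  unfold inflA
  rw [dif_neg]
  rintro ⟨p, h1, h2⟩
  exact h p.1 p.2 h1 h2

/-- Every arrow is inflated from an arrow or acts as zero. -/
theorem inflA_cases (hf : FullSub m' m f) (i j : Fin n) (k : Fin (m i j)) :
    (∃ (i' j' : Fin n') (k' : Fin (m' i' j')), f i' = i ∧ f j' = j ∧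
      ∀ M : QMod K m', inflA hf M i j k = M.a i' j' k') ∨ ∀ M : QMod K m', inflA hf M i j k = 0 := by
  by_cases h : ∃ i' j', f i' = i ∧ f j' = j
  · obtain ⟨i', j', rfl, rfl⟩ := h
    left
    refine ⟨i', j', Fin.cast (hf.arr i' j').symm k, rfl, rfl, fun M => ?_⟩
    rw [← inflA_apply hf M i' j']
    rfl
  · right
    intro M
    refine inflA_not hf M k fun i' j' h1 h2 => h ⟨i', j', h1, h2⟩

theorem inflE_cases (hf : FullSub m' m f) (i : Fin n) :
    (∃ i' : Fin n', f i' = i ∧ ∀ M : QMod K m', inflE f M i = M.e i') ∨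
      ((∀ i', f i' ≠ i) ∧ ∀ M : QMod K m', inflE f M i = 0) := by
  by_cases h : ∃ i', f i' = i
  · obtain ⟨i', rfl⟩ := h
    exact Or.inl ⟨i', rfl, fun M => inflE_apply hf M i'⟩
  · push Not at h
    exact Or.inr ⟨h, fun M => inflE_not M h⟩

theorem infl_rep (hf : FullSub m' m f) (M : QMod K m') : IsRep m (inflE f M) (inflA hf M) where
  e_e i x := by
    rcases inflE_cases (K := K) hf i with ⟨i', -, h⟩ | ⟨-, h⟩
    · rw [h]
      exact M.e_e i' x
    · rw [h]
      rfl
  e_ne i j hij x := by
    rcases inflE_cases (K := K) hf i with ⟨i', hi, h⟩ | ⟨-, h⟩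
    · rcases inflE_cases (K := K) hf j with ⟨j', hj, h'⟩ | ⟨-, h'⟩
      · rw [h, h']
        refine M.e_ne i' j' ?_ x
        rintro rfl
        exact hij (hi.symm.trans hj)
      · rw [h']
        exact map_zero _
    · rw [h]
      rfl
  e_sum x := by
    classical
    have h1 : ∑ i, inflE f M i x = ∑ i ∈ Finset.univ.image f, inflE f M i x := by
      symm
      refine Finset.sum_subset (Finset.subset_univ _) fun i _ hi => ?_
      rw [inflE_not M]
      · rfl
      · rintro i' rfl
        exact hi (Finset.mem_image_of_mem _ (Finset.mem_univ _))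
    rw [h1, Finset.sum_image fun a _ b _ h => hf.inj h]
    refine Eq.trans (Finset.sum_congr rfl fun i _ => ?_) (M.e_sum x)
    rw [inflE_apply hf]
  a_src i j k x := by
    rcases inflA_cases (K := K) hf i j k with ⟨i', j', k', rfl, rfl, h⟩ | h
    · rw [h, inflE_apply hf]
      exact M.a_src i' j' k' x
    · rw [h]
      rfl
  a_tgt i j k x := by
    rcases inflA_cases (K := K) hf i j k with ⟨i', j', k', rfl, rfl, h⟩ | h
    · rw [h, inflE_apply hf]
      exact M.a_tgt i' j' k' x
    · rw [h]
      exact map_zero _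

/-- The module of the larger quiver. -/
@[reducible] noncomputable def infl (hf : FullSub m' m f) (M : QMod K m') : QMod K m where
  V := M.V
  e := inflE f M
  a := inflA hf M
  rep := infl_rep hf M

theorem IsHom.infl (hf : FullSub m' m f) {M N : QMod K m'} {g : M.V →ₗ[K] N.V}
    (hg : IsHom M N g) : IsHom (infl hf M) (infl hf N) g := by
  constructor
  · intro i x
    rcases inflE_cases (K := K) hf i with ⟨i', -, h⟩ | ⟨-, h⟩
    · change g (inflE f M i x) = inflE f N i (g x)
      rw [h, h]
      exact hg.1 i' x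
    · change g (inflE f M i x) = inflE f N i (g x)
      rw [h, h]
      exact map_zero g
  · intro i j k x
    change g (inflA hf M i j k x) = inflA hf N i j k (g x)
    rcases inflA_cases (K := K) hf i j k with ⟨i', j', k', -, -, h⟩ | h
    · rw [h, h]
      exact hg.2 i' j' k' x
    · rw [h, h]
      exact map_zero g

theorem infl_inv (hf : FullSub m' m f) {M : QMod K m'} {W : Submodule K M.V} (hW : M.Inv W) :
    (infl hf M).Inv W := by
  constructor
  · intro i x hx
    change inflE f M i x ∈ W
    rcases inflE_cases (K := K) hf i with ⟨i', -, h⟩ | ⟨-, h⟩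
    · rw [h]
      exact hW.1 i' x hx
    · rw [h]
      exact W.zero_mem
  · intro i j k x hx
    change inflA hf M i j k x ∈ W
    rcases inflA_cases (K := K) hf i j k with ⟨i', j', k', -, -, h⟩ | h
    · rw [h]
      exact hW.2 i' j' k' x hx
    · rw [h]
      exact W.zero_mem

/-- The restriction of a torsion class to a full subquiver. -/
noncomputable def res (hf : FullSub m' m f) (T : Tors K m) : Tors K m' where
  mem M := T.mem (infl hf M)
  zero _ h := T.zero _ h
  quot _ _ g hg hs hM := T.quot _ _ g (hg.infl hf) hs hM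
  extn M W hW h1 h2 := by
    have hs : IsHom (infl hf (M.sub W hW)) (infl hf M) W.subtype :=
      (IsHom.subtype W hW).infl hf
    have hq : IsHom (infl hf M) (infl hf (M.quo W hW)) W.mkQ := (IsHom.mkQ W hW).infl hf
    refine T.mem_exact hs hq W.mkQ_surjective ?_ h1 h2
    exact (Submodule.ker_mkQ W).trans (Submodule.range_subtype W).symm

/-- The part of a module at the full subquiver. -/
def part (f : Fin n' → Fin n) (M : QMod K m) : Submodule K M.V where
  carrier := {x | ∀ i, (∀ i', f i' ≠ i) → M.e i x = 0}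
  zero_mem' := fun i _ => map_zero _
  add_mem' := fun {x y} hx hy i hi => by rw [map_add, hx i hi, hy i hi, add_zero]
  smul_mem' := fun c x hx i hi => by rw [map_smul, hx i hi, smul_zero]

theorem e_mem_part (M : QMod K m) (i : Fin n') (x : M.V) : M.e (f i) x ∈ part f M :=
  fun j hj => M.e_ne j (f i) (fun h => hj i h.symm) x

theorem a_mem_part (M : QMod K m) (i j : Fin n') (k : Fin (m (f i) (f j))) (x : M.V) :
    M.a (f i) (f j) k x ∈ part f M := by
  rw [← M.a_tgt]
  exact e_mem_part M j _

theorem sum_part (hf : FullSub m' m f) (M : QMod K m) {x : M.V} (hx : x ∈ part f M) :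
    ∑ i, M.e (f i) x = x := by
  classical
  have h1 : ∑ i, M.e i x = ∑ i ∈ Finset.univ.image f, M.e i x := by
    symm
    refine Finset.sum_subset (Finset.subset_univ _) fun i _ hi => ?_
    refine hx i fun i' h => hi ?_
    rw [← h]
    exact Finset.mem_image_of_mem _ (Finset.mem_univ _)
  rw [Finset.sum_image fun a _ b _ h => hf.inj h] at h1
  rw [← h1]
  exact M.e_sum x

/-- The restriction of a module to a full subquiver. -/
@[reducible] def cut (hf : FullSub m' m f) (M : QMod K m) : QMod K m' where
  V := part f M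
  e i := (M.e (f i)).restrict fun x _ => e_mem_part M i x
  a i j k := (M.a (f i) (f j) (Fin.cast (hf.arr i j) k)).restrict fun x _ =>
    a_mem_part M i j _ x
  rep :=
    { e_e := fun i x => Subtype.ext (M.e_e (f i) x)
      e_ne := fun i j h x => Subtype.ext (M.e_ne (f i) (f j) (fun h1 => h (hf.inj h1)) x)
      e_sum := fun x => Subtype.ext (by
        rw [AddSubmonoidClass.coe_finsetSum]
        exact sum_part hf M x.2)
      a_src := fun i j _ x => Subtype.ext (M.a_src (f i) (f j) _ x)
      a_tgt := fun i j _ x => Subtype.ext (M.a_tgt (f i) (f j) _ x) }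

theorem hom_part {M N : QMod K m} {g : M.V →ₗ[K] N.V} (hg : IsHom M N g) {x : M.V}
    (hx : x ∈ part f M) : g x ∈ part f N := by
  intro i hi
  rw [← hg.1, hx i hi, map_zero]

theorem IsHom.cut (hf : FullSub m' m f) {M N : QMod K m} {g : M.V →ₗ[K] N.V}
    (hg : IsHom M N g) : IsHom (cut hf M) (cut hf N) (g.restrict fun _ hx => hom_part hg hx) :=
  ⟨fun i x => Subtype.ext (hg.1 (f i) x), fun i j _ x => Subtype.ext (hg.2 (f i) (f j) _ x)⟩

end Pool.Agent.MP_d9ddf5_al_h20
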