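import Pool.Agent.Lib.MP_d9ddf5_al_h20.Basic

/-!
# Labels of covers of torsion classes
-/

set_option autoImplicit false

namespace Pool.Agent.MP_d9ddf5_al_h20

open Module LinearMap

variable {K : Type} [Field K] {n : ℕ} {m : Fin n → Fin n → ℕ}

/-- Dimension at the vertex `i`. -/
noncomputable def QMod.dim (M : QMod K m) (i : Fin n) : ℕ := finrank K (range (M.e i))

theorem finrank_map_add (V W : Type) [AddCommGroup V] [Module K V] [FiniteDimensional K V]
    [AddCommGroup W] [Module K W] (g : V →ₗ[K] W) (U : Submodule K V) :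
    finrank K U = finrank K (U.map g) + finrank K (U ⊓ ker g : Submodule K V) := by
  have h := finrank_range_add_finrank_ker (g.domRestrict U)
  rw [← h, range_domRestrict]
  congr 1
  have h2 : (ker (g.domRestrict U)).map U.subtype = U ⊓ ker g := by
    ext x
    constructor
    · rintro ⟨y, hy, rfl⟩
      exact ⟨y.2, hy⟩
    · rintro ⟨hx, hx'⟩
      exact ⟨⟨x, hx⟩, hx', rfl⟩
  rw [← h2]
  exact (Submodule.equivMapOfInjective U.subtype U.injective_subtype _).finrank_eq

theorem IsHom.dim_add {N M P : QMod K m} {f : N.V →ₗ[K] M.V} {g : M.V →ₗ[K] P.V}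
    (hf : IsHom N M f) (hi : Function.Injective f) (hg : IsHom M P g)
    (hs : Function.Surjective g) (hex : ker g = range f) (i : Fin n) :
    M.dim i = N.dim i + P.dim i := by
  unfold QMod.dim
  have h1 : range (M.e i) ⊓ ker g = (range (N.e i)).map f := by
    ext x
    constructor
    · rintro ⟨⟨y, rfl⟩, hx⟩
      rw [hex] at hx
      obtain ⟨z, hz⟩ := hx
      refine ⟨N.e i z, ⟨z, rfl⟩, ?_⟩
      rw [hf.1, hz, M.e_e]
    · rintro ⟨_, ⟨z, rfl⟩, rfl⟩
      refine ⟨⟨f z, (hf.1 i z).symm⟩, ?_⟩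
      rw [hex]
      exact ⟨_, rfl⟩
  have h2 : (range (M.e i)).map g = range (P.e i) := by
    ext x
    constructor
    · rintro ⟨_, ⟨z, rfl⟩, rfl⟩
      exact ⟨g z, (hg.1 i z).symm⟩
    · rintro ⟨y, rfl⟩
      obtain ⟨z, rfl⟩ := hs y
      exact ⟨M.e i z, ⟨z, rfl⟩, hg.1 i z⟩
  rw [finrank_map_add M.V P.V g (range (M.e i)), h1, h2, add_comm,
    (Submodule.equivMapOfInjective f hi (range (N.e i))).finrank_eq]

theorem IsHom.finrank_add {N M P : QMod K m} {f : N.V →ₗ[K] M.V} {g : M.V →ₗ[K] P.V}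
    (hi : Function.Injective f) (hs : Function.Surjective g) (hex : ker g = range f) :
    finrank K M.V = finrank K N.V + finrank K P.V := by
  have h := finrank_range_add_finrank_ker g
  rw [hex, range_eq_top.2 hs, finrank_top, finrank_range_of_inj hi] at h
  omega

theorem IsHom.dim_eq {M N : QMod K m} {f : M.V →ₗ[K] N.V} (hf : IsHom M N f)
    (hb : Function.Bijective f) (i : Fin n) : M.dim i = N.dim i := by
  unfold QMod.dim
  have h : (range (M.e i)).map f = range (N.e i) := by
    ext x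
    constructor
    · rintro ⟨_, ⟨z, rfl⟩, rfl⟩
      exact ⟨f z, (hf.1 i z).symm⟩
    · rintro ⟨y, rfl⟩
      obtain ⟨z, rfl⟩ := hb.2 y
      exact ⟨M.e i z, ⟨z, rfl⟩, hf.1 i z⟩
  rw [← h]
  exact (Submodule.equivMapOfInjective f hb.1 _).finrank_eq

/-- `V` is the product of its vertex spaces. -/
noncomputable def QMod.split (M : QMod K m) : M.V ≃ₗ[K] ((i : Fin n) → range (M.e i)) where
  toFun x i := ⟨M.e i x, x, rfl⟩
  map_add' x y := by
    funext i
    exact Subtype.ext (map_add _ _ _)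
  map_smul' c x := by
    funext i
    exact Subtype.ext (map_smul _ _ _)
  invFun y := ∑ i, (y i : M.V)
  left_inv x := M.e_sum x
  right_inv y := by
    funext i
    apply Subtype.ext
    have h : ∀ j, M.e i (y j : M.V) = if i = j then (y j : M.V) else 0 := by
      intro j
      obtain ⟨z, hz⟩ := (y j).2
      split_ifs with h
      · subst h
        rw [← hz, M.e_e]
      · rw [← hz, M.e_ne i j h]
    change M.e i (∑ j, (y j : M.V)) = y i
    rw [map_sum, Finset.sum_congr rfl fun j _ => h j]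
    simp

theorem QMod.finrank_eq_sum (M : QMod K m) : finrank K M.V = ∑ i, M.dim i := by
  rw [M.split.finrank_eq, finrank_pi_fintype]
  rfl

theorem QMod.dim_eq_zero (M : QMod K m) (i : Fin n) : M.dim i = 0 ↔ ¬ M.Supp i := by
  unfold QMod.dim QMod.Supp
  rw [Submodule.finrank_eq_zero, range_eq_bot]
  push Not
  constructor
  · intro h x
    rw [h]
    rfl
  · intro h
    ext x
    exact h x

theorem IsHom.supp_of_inj {N M : QMod K m} {f : N.V →ₗ[K] M.V} (hf : IsHom N M f)
    (hi : Function.Injective f) {i : Fin n} (h : N.Supp i) : M.Supp i := by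
  obtain ⟨x, hx⟩ := h
  refine ⟨f x, fun h0 => hx ?_⟩
  apply hi
  rw [hf.1, h0, map_zero]

theorem IsHom.supp_of_surj {M N : QMod K m} {f : M.V →ₗ[K] N.V} (hf : IsHom M N f)
    (hs : Function.Surjective f) {i : Fin n} (h : N.Supp i) : M.Supp i := by
  obtain ⟨y, hy⟩ := h
  obtain ⟨x, rfl⟩ := hs y
  refine ⟨x, fun h0 => hy ?_⟩
  rw [← hf.1, h0, map_zero]

/-- Factorisation through a surjective homomorphism. -/
theorem IsHom.exists_factor {M N P : QMod K m} {g : M.V →ₗ[K] N.V} (hg : IsHom M N g)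
    (hs : Function.Surjective g) {ψ : M.V →ₗ[K] P.V} (hψ : IsHom M P ψ) (h : ker g ≤ ker ψ) :
    ∃ θ : N.V →ₗ[K] P.V, IsHom N P θ ∧ ∀ x, θ (g x) = ψ x := by
  obtain ⟨θ, hθ⟩ : ∃ θ : N.V →ₗ[K] P.V, θ ∘ₗ g = ψ := by
    refine ⟨((ker g).liftQ ψ h) ∘ₗ (g.quotKerEquivOfSurjective hs).symm.toLinearMap, ?_⟩
    ext x
    have h1 : (g.quotKerEquivOfSurjective hs).symm (g x) = (ker g).mkQ x := by
      rw [LinearEquiv.symm_apply_eq]
      rfl
    simp only [coe_comp, LinearEquiv.coe_coe, Function.comp_apply, h1]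
    rfl
  have h2 : ∀ x, θ (g x) = ψ x := fun x => LinearMap.congr_fun hθ x
  refine ⟨θ, ⟨?_, ?_⟩, h2⟩
  · intro i y
    obtain ⟨x, rfl⟩ := hs y
    rw [← hg.1, h2, h2, hψ.1]
  · intro i j k y
    obtain ⟨x, rfl⟩ := hs y
    rw [← hg.2, h2, h2, hψ.2]

/-- A label of the pair `T, T'`: a nonzero module of least dimension in `T'` and free for `T`. -/
structure IsLabel (T T' : Tors K m) (B : QMod K m) : Prop where
  mem : T'.mem B
  free : T.Free B
  nonzero : ¬ Subsingleton B.V
  min : ∀ M, T'.mem M → T.Free M → ¬ Subsingleton M.V → finrank K B.V ≤ finrank K M.V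

theorem exists_label_aux {P : QMod K m → Prop} (h : ∃ M, P M) :
    ∃ B, P B ∧ ∀ M, P M → finrank K B.V ≤ finrank K M.V := by
  classical
  have h1 : ∃ d : ℕ, ∃ M, P M ∧ finrank K M.V = d := ⟨_, h.choose, h.choose_spec, rfl⟩
  obtain ⟨B, hB, hd⟩ := Nat.find_spec h1
  exact ⟨B, hB, fun M hM => hd ▸ Nat.find_le ⟨M, hM, rfl⟩⟩

theorem exists_label {T T' : Tors K m} (h : ¬ T' ≤ T) : ∃ B, IsLabel T T' B := by
  have h1 : ∃ M, T'.mem M ∧ ¬ T.mem M := by
    by_contra h2
    push Not at h2
    exact h fun M hM => h2 M hM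
  obtain ⟨M, hM, hn⟩ := h1
  obtain ⟨N, f, hN, hf, hs, h0⟩ := Tors.exists_free_quotient hn
  obtain ⟨B, ⟨h2, h3, h4⟩, h5⟩ := exists_label_aux
    (P := fun M : QMod K m => T'.mem M ∧ T.Free M ∧ ¬ Subsingleton M.V)
    ⟨N, T'.quot M N f hf hs hM, hN, h0⟩
  exact ⟨B, h2, h3, h4, fun M a b c => h5 M ⟨a, b, c⟩⟩

theorem subsingleton_of_eq_bot {V : Type} [AddCommGroup V] [Module K V]
    (h : (⊤ : Submodule K V) = ⊥) : Subsingleton V := by
  refine ⟨fun x y => ?_⟩
  have hx : x = 0 := by
    have : x ∈ (⊤ : Submodule K V) := trivial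
    rwa [h, Submodule.mem_bot] at this
  have hy : y = 0 := by
    have : y ∈ (⊤ : Submodule K V) := trivial
    rwa [h, Submodule.mem_bot] at this
  rw [hx, hy]

theorem not_subsingleton_range {V W : Type} [AddCommGroup V] [Module K V] [AddCommGroup W]
    [Module K W] {f : V →ₗ[K] W} (h : f ≠ 0) : ¬ Subsingleton (range f) := by
  intro hs
  apply h
  ext x
  exact congrArg Subtype.val (hs.elim (⟨f x, x, rfl⟩ : range f) 0)

namespace IsLabel

variable {T T' : Tors K m} {B : QMod K m}

/-- Nonzero homomorphisms from a label to a module of the heart are injective. -/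
theorem injective (hB : IsLabel T T' B) {M : QMod K m} (hF : T.Free M)
    {f : B.V →ₗ[K] M.V} (hf : IsHom B M f) (h0 : f ≠ 0) : Function.Injective f := by
  have h1 := hB.min _ (T'.mem_range hf hB.mem) (hF.sub _ hf.range_inv) (not_subsingleton_range h0)
  have h2 := finrank_range_add_finrank_ker f
  have h3 : finrank K ((M.sub (range f) hf.range_inv).V) = finrank K (range f) := rfl
  have h4 : finrank K (ker f) = 0 := by omega
  exact ker_eq_bot.1 (Submodule.finrank_eq_zero.1 h4)

/-- Nonzero homomorphisms to a label from a module of the heart are surjective. -/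
theorem surjective (hB : IsLabel T T' B) {M : QMod K m} (hM : T'.mem M)
    {f : M.V →ₗ[K] B.V} (hf : IsHom M B f) (h0 : f ≠ 0) : Function.Surjective f := by
  have h1 := hB.min _ (T'.mem_range hf hM) (hB.free.sub _ hf.range_inv)
    (not_subsingleton_range h0)
  have h3 : finrank K ((B.sub (range f) hf.range_inv).V) = finrank K (range f) := rfl
  exact range_eq_top.1 (Submodule.eq_top_of_finrank_eq (le_antisymm (Submodule.finrank_le _)
    (h3 ▸ h1)))

theorem bijective (hB : IsLabel T T' B) {f : B.V →ₗ[K] B.V} (hf : IsHom B B f) (h0 : f ≠ 0) :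
    Function.Bijective f :=
  ⟨hB.injective hB.free hf h0, hB.surjective hB.mem hf h0⟩

/-- Endomorphisms of a label are scalars. -/
theorem scalar [IsAlgClosed K] (hB : IsLabel T T' B) {f : B.V →ₗ[K] B.V} (hf : IsHom B B f) :
    ∃ c : K, f = c • LinearMap.id := by
  have : Nontrivial B.V := not_subsingleton_iff_nontrivial.1 hB.nonzero
  obtain ⟨c, hc⟩ := Module.End.exists_eigenvalue f
  refine ⟨c, ?_⟩
  by_contra h
  have h1 : f - c • LinearMap.id ≠ 0 := sub_ne_zero.2 h
  have h2 := (hB.bijective (hf.sub ((IsHom.id B).smul c)) h1).1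
  obtain ⟨v, hv⟩ := hc.exists_hasEigenvector
  apply hv.2
  apply h2
  rw [map_zero]
  have := hv.apply_eq_smul
  simp [this]

/-- Proper quotients of a label are torsion. -/
theorem proper (hB : IsLabel T T' B) {M : QMod K m} {f : B.V →ₗ[K] M.V} (hf : IsHom B M f)
    (hs : Function.Surjective f) (hi : ¬ Function.Injective f) : T.mem M := by
  by_contra hn
  obtain ⟨N, g, hN, hg, hgs, h0⟩ := Tors.exists_free_quotient hn
  have h1 : g ∘ₗ f ≠ 0 := by
    intro h
    apply h0
    refine ⟨fun x y => ?_⟩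
    obtain ⟨x, rfl⟩ := hgs x
    obtain ⟨y, rfl⟩ := hgs y
    obtain ⟨x, rfl⟩ := hs x
    obtain ⟨y, rfl⟩ := hs y
    have hx : g (f x) = 0 := LinearMap.congr_fun h x
    have hy : g (f y) = 0 := LinearMap.congr_fun h y
    rw [hx, hy]
  have h2 := hB.injective hN (hg.comp hf) h1
  exact hi fun x y hxy => h2 (by simp [hxy])

theorem not_mem (hB : IsLabel T T' B) : ¬ T.mem B := fun h =>
  hB.nonzero (Tors.subsingleton_of_mem_free h hB.free)

variable (hc : T ⋖ T')

include hc

theorem exists_inj (hB : IsLabel T T' B) {M : QMod K m} (hM : T'.mem M) (hF : T.Free M)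
    (h0 : ¬ Subsingleton M.V) : ∃ f : B.V →ₗ[K] M.V, IsHom B M f ∧ Function.Injective f := by
  by_contra hn
  push Not at hn
  apply h0
  refine Tors.subsingleton_of_mem_free hM ?_
  rw [← join_eq_of_covBy hc hB.mem (hB.not_mem), free_join]
  refine ⟨hF, fun f hf => ?_⟩
  by_contra hf0
  exact hn f hf (hB.injective hF hf hf0)

theorem exists_surj (hB : IsLabel T T' B) {M : QMod K m} (hM : T'.mem M) (hF : T.Free M)
    (h0 : ¬ Subsingleton M.V) : ∃ f : M.V →ₗ[K] B.V, IsHom M B f ∧ Function.Surjective f := by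
  by_contra hn
  push Not at hn
  let U : Tors K m :=
    { mem := fun M => T'.mem M ∧ (perpL fun N => N = B).mem M
      zero := fun M h => ⟨T'.zero M h, Tors.zero _ M h⟩
      quot := fun M N f hf hs h => ⟨T'.quot M N f hf hs h.1, Tors.quot _ M N f hf hs h.2⟩
      extn := fun M W hW h1 h2 => ⟨T'.extn M W hW h1.1 h2.1, Tors.extn _ M W hW h1.2 h2.2⟩ }
  have h1 : T ≤ U := by
    intro X hX
    refine ⟨hc.le X hX, ?_⟩
    rintro N f rfl hf
    exact hB.free X f hX hf
  have h2 : U ≤ T' := fun X hX => hX.1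
  rcases hc.eq_or_eq h1 h2 with h3 | h3
  · apply h0
    refine Tors.subsingleton_of_mem_free (T := T) ?_ hF
    rw [← h3]
    refine ⟨hM, ?_⟩
    rintro N f rfl hf
    by_contra hf0
    exact hn f hf (hB.surjective hM hf hf0)
  · have h4 : U.mem B := h3 ▸ hB.mem
    have h5 := h4.2 B LinearMap.id rfl (IsHom.id B)
    apply hB.nonzero
    refine ⟨fun x y => ?_⟩
    have hx : x = 0 := LinearMap.congr_fun h5 x
    have hy : y = 0 := LinearMap.congr_fun h5 y
    rw [hx, hy]

/-- The cokernel of a homomorphism from the label to a module of the heart is torsion-free. -/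
theorem quo_free (hB : IsLabel T T' B) {M N : QMod K m} (hF : T.Free M)
    {f : B.V →ₗ[K] M.V} (hf : IsHom B M f) (hi : Function.Injective f) {g : M.V →ₗ[K] N.V}
    (hg : IsHom M N g) (hs : Function.Surjective g) (hex : ker g = range f) : T.Free N := by
  intro X φ hX hφ
  by_contra hφ0
  -- the preimage of the image of `φ`
  set R : Submodule K N.V := range φ with hR
  have hRI : N.Inv R := hφ.range_inv
  have hRT : T.mem (N.sub R hRI) := T.mem_range hφ hX
  set U : Submodule K M.V := R.comap g with hU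
  have hUI : M.Inv U := hg.comap_inv hRI
  have hfU : ∀ x, f x ∈ U := by
    intro x
    have h1 : g (f x) = 0 := by
      rw [← mem_ker, hex]
      exact ⟨x, rfl⟩
    rw [hU, Submodule.mem_comap, h1]
    exact Submodule.zero_mem _
  let j : B.V →ₗ[K] (M.sub U hUI).V := f.codRestrict U hfU
  have hj : IsHom B (M.sub U hUI) j := hf.codRestrict U hUI hfU
  have hji : Function.Injective j := fun x y h => hi (congrArg Subtype.val h)
  let q : (M.sub U hUI).V →ₗ[K] (N.sub R hRI).V :=
    (g ∘ₗ U.subtype).codRestrict R (fun x => x.2)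
  have hq : IsHom (M.sub U hUI) (N.sub R hRI) q :=
    (hg.comp (IsHom.subtype U hUI)).codRestrict R hRI _
  have hqs : Function.Surjective q := by
    rintro ⟨y, hy⟩
    obtain ⟨x, rfl⟩ := hs y
    exact ⟨⟨x, hy⟩, rfl⟩
  have hqk : ker q = range j := by
    ext ⟨x, hx⟩
    constructor
    · intro h
      have h1 : g x = 0 := congrArg Subtype.val h
      have h2 : x ∈ range f := by
        rw [← hex]
        exact h1
      obtain ⟨y, hy⟩ := h2
      exact ⟨y, Subtype.ext hy⟩
    · rintro ⟨y, hy⟩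
      have h1 : f y = x := congrArg Subtype.val hy
      have h2 : x ∈ ker g := by
        rw [hex]
        exact ⟨y, h1⟩
      exact Subtype.ext h2
  have hUT : T'.mem (M.sub U hUI) := T'.mem_exact hj hq hqs hqk hB.mem (hc.le _ hRT)
  have hUF : T.Free (M.sub U hUI) := hF.sub U hUI
  have hU0 : ¬ Subsingleton (M.sub U hUI).V := by
    intro h
    apply hB.nonzero
    exact hji.subsingleton
  obtain ⟨ψ, hψ, hψs⟩ := hB.exists_surj hc hUT hUF hU0
  have hψ0 : ψ ≠ 0 := by
    intro h
    apply hB.nonzero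
    refine ⟨fun x y => ?_⟩
    obtain ⟨x, rfl⟩ := hψs x
    obtain ⟨y, rfl⟩ := hψs y
    rw [h]
    rfl
  have hψj : ψ ∘ₗ j ≠ 0 := by
    intro h
    obtain ⟨θ, hθ, h1⟩ := hq.exists_factor hqs hψ (by
      rw [hqk]
      rintro _ ⟨y, rfl⟩
      exact LinearMap.congr_fun h y)
    have h2 := hB.free _ θ hRT hθ
    apply hψ0
    ext x
    rw [← h1, h2]
    rfl
  obtain ⟨ρ, hρ, -, h1, -⟩ := (hψ.comp hj).exists_inv (hB.bijective (hψ.comp hj) hψj)
  have hη : IsHom (M.sub U hUI) (M.sub U hUI) (LinearMap.id - (j ∘ₗ ρ) ∘ₗ ψ) :=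
    (IsHom.id _).sub ((hj.comp hρ).comp hψ)
  obtain ⟨σ, hσ, h2⟩ := hq.exists_factor hqs hη (by
    rw [hqk]
    rintro _ ⟨y, rfl⟩
    have h3 : ρ (ψ (j y)) = y := h1 y
    simp [h3])
  have h3 := hUF _ σ hRT hσ
  have h4 : ∀ x, x = j (ρ (ψ x)) := by
    intro x
    have h5 := h2 x
    rw [h3] at h5
    have h6 : (0 : (M.sub U hUI).V) = x - j (ρ (ψ x)) := h5
    exact (sub_eq_zero.1 h6.symm)
  apply hφ0
  ext x
  obtain ⟨y, hy⟩ := hs (φ x)
  have h5 : y ∈ U := by
    rw [hU, Submodule.mem_comap, hy]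
    exact ⟨x, rfl⟩
  have h6 : y = f (ρ (ψ ⟨y, h5⟩)) := congrArg Subtype.val (h4 ⟨y, h5⟩)
  have h7 : g y = 0 := by
    rw [h6, ← mem_ker, hex]
    exact ⟨_, rfl⟩
  rw [← hy, h7]
  rfl

/-- The modules of the heart of a cover are filtered by the label. -/
theorem exists_mult (hB : IsLabel T T' B) : ∀ (d : ℕ) (M : QMod K m), finrank K M.V ≤ d →
    T'.mem M → T.Free M → ∃ r : ℕ, (∀ i, M.dim i = r * B.dim i) ∧
      (r = 0 → Subsingleton M.V) ∧
      (r = 1 → ∃ f : B.V →ₗ[K] M.V, IsHom B M f ∧ Function.Bijective f) := by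
  intro d
  induction d with
  | zero =>
      intro M hd _ _
      have h : Subsingleton M.V := by
        rw [← finrank_zero_iff (R := K)]
        omega
      refine ⟨0, fun i => ?_, fun _ => h, fun h => absurd h (by norm_num)⟩
      rw [zero_mul, M.dim_eq_zero]
      rintro ⟨x, hx⟩
      exact hx (h.elim _ _)
  | succ d ih =>
      intro M hd hM hF
      by_cases h0 : Subsingleton M.V
      · refine ⟨0, fun i => ?_, fun _ => h0, fun h => absurd h (by norm_num)⟩
        rw [zero_mul, M.dim_eq_zero]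
        rintro ⟨x, hx⟩
        exact hx (h0.elim _ _)
      · obtain ⟨f, hf, hi⟩ := hB.exists_inj hc hM hF h0
        have hex : ker (range f).mkQ = range f := Submodule.ker_mkQ _
        have hg : IsHom M (M.quo (range f) hf.range_inv) (range f).mkQ := IsHom.mkQ _ _
        have hs := (range f).mkQ_surjective
        have hQF : T.Free (M.quo (range f) hf.range_inv) := hB.quo_free hc hF hf hi hg hs hex
        have hQT : T'.mem (M.quo (range f) hf.range_inv) := T'.quot _ _ _ hg hs hM
        have hfr := IsHom.finrank_add (P := M.quo (range f) hf.range_inv) hi hs hex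
        have hB0 : 0 < finrank K B.V := by
          rw [Nat.pos_iff_ne_zero]
          intro h
          exact hB.nonzero ((finrank_zero_iff (R := K)).1 h)
        obtain ⟨r, h1, h2, -⟩ := ih _ (by omega) hQT hQF
        refine ⟨r + 1, fun i => ?_, fun h => absurd h (by omega), fun h => ?_⟩
        · rw [hf.dim_add hi hg hs hex i, h1]
          ring
        · have h3 := h2 (by omega)
          refine ⟨f, hf, hi, fun y => ?_⟩
          have h4 : (range f).mkQ y = 0 := h3.elim _ _
          exact (Submodule.Quotient.mk_eq_zero _).1 h4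

end IsLabel

end Pool.Agent.MP_d9ddf5_al_h20
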