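import Pool.Agent.Lib.MP_d9ddf5_al_h20.Polygon

/-!
# The set of lengths has no gaps
-/

set_option autoImplicit false

namespace Pool.Agent.MP_d9ddf5_al_h20

open Module LinearMap

variable {K : Type} [Field K] {n : ℕ} {m : Fin n → Fin n → ℕ}

theorem up_of_chain (T : ℕ → Tors K m) (L : ℕ) (htop : ∀ M, (T L).mem M)
    (h : ∀ k < L, T k ⋖ T (k + 1)) : Up (T 0) L := by
  induction L generalizing T with
  | zero => exact Up.top _ htop
  | succ L ih =>
      refine Up.step _ (T 1) L (h 0 (by omega)) (ih (fun k => T (k + 1)) htop fun k hk => ?_)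
      exact h (k + 1) (by omega)

/-- Two order connected sets with close elements. -/
theorem nat_join {A B : Set ℕ} (hA : A.OrdConnected) (hB : B.OrdConnected) {a b p q : ℕ}
    (ha : a ∈ A) (hb : b ∈ B) (hp : p ∈ A) (hq : q ∈ B) (hpq : q ≤ p + 1) {c : ℕ}
    (hac : a ≤ c) (hcb : c ≤ b) : c ∈ A ∨ c ∈ B := by
  rcases le_or_gt c p with h | h
  · exact Or.inl (hA.out ha hp ⟨hac, h⟩)
  · exact Or.inr (hB.out hq hb ⟨by omega, hcb⟩)

theorem up_top {T : Tors K m} (h : ∀ M, T.mem M) {L : ℕ} (hL : Up T L) : L = 0 := by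
  cases hL with
  | top _ _ => rfl
  | step _ x L h1 h2 =>
      exact absurd (fun M _ => h M) h1.lt.not_ge

theorem ordConnected_zero {T : Tors K m} (h : ∀ M, T.mem M) : {L | Up T L}.OrdConnected := by
  constructor
  intro a ha b hb c hc
  have h1 := up_top h ha
  have h2 := up_top h hb
  have h3 := hc.1
  have h4 := hc.2
  have h5 : c = a := by omega
  rw [h5]
  exact ha

theorem mu_mono (hP : Pos m) {T U : Tors K m} (h : T ≤ U) : mu T ≤ mu U := by
  refine Set.ncard_le_ncard ?_ ((finite_roots hP).subset fun _ hd => hd.1)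
  rintro d ⟨hd, M, hM, rfl⟩
  exact ⟨hd, M, h M hM, rfl⟩

/-- The interval from `x` to `J` of length one or two. -/
theorem up_of_half {x J : Tors K m} (h : x ⋖ J ∨ ∃ z, x ⋖ z ∧ z ⋖ J) {L : ℕ} (hJ : Up J L) :
    Up x (L + 1) ∨ Up x (L + 2) := by
  rcases h with h | ⟨z, h1, h2⟩
  · exact Or.inl (Up.step _ _ _ h hJ)
  · exact Or.inr (Up.step _ _ _ h1 (Up.step _ _ _ h2 hJ))

theorem up_cases {T : Tors K m} (h : ¬ ∀ M, T.mem M) {L : ℕ} (hL : Up T L) :
    ∃ x L', L = L' + 1 ∧ T ⋖ x ∧ Up x L' := by
  cases hL with
  | top _ h1 => exact absurd h1 h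
  | step _ x L h1 h2 => exact ⟨x, L, rfl, h1, h2⟩

theorem main_induction [IsAlgClosed K] (hac : ∀ i j, m i j ≠ 0 → i < j) (hP : Pos m) :
    ∀ T : Tors K m, T.Sep → (∃ L, Up T L) ∧ {L | Up T L}.OrdConnected := by
  set R := Set.ncard {d : Fin n → ℤ | Thin m d ∧ form m d d ≤ 1} with hR
  suffices H : ∀ k : ℕ, ∀ T : Tors K m, T.Sep → R - mu T ≤ k →
      (∃ L, Up T L) ∧ {L | Up T L}.OrdConnected by
    intro T hT
    exact H _ T hT le_rfl
  intro k
  induction k with
  | zero =>
      intro T hT hk
      by_cases htop : ∀ M, T.mem M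
      · exact ⟨⟨0, Up.top T htop⟩, ordConnected_zero htop⟩
      · exfalso
        obtain ⟨x, hx, hxs⟩ := exists_cover hac hP hT htop
        have h1 := mu_lt hac hP hT hx
        have h2 := mu_le hP x
        omega
  | succ k ih =>
      intro T hT hk
      by_cases htop : ∀ M, T.mem M
      · exact ⟨⟨0, Up.top T htop⟩, ordConnected_zero htop⟩
      · have hup : ∀ x, T ⋖ x → x.Sep → (∃ L, Up x L) ∧ {L | Up x L}.OrdConnected := by
          intro x hx hxs
          have h1 := mu_lt hac hP hT hx
          have h2 := mu_le hP x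
          exact ih x hxs (by omega)
        refine ⟨?_, ?_⟩
        · obtain ⟨x, hx, hxs⟩ := exists_cover hac hP hT htop
          obtain ⟨⟨L, hL⟩, -⟩ := hup x hx hxs
          exact ⟨L + 1, Up.step T x L hx hL⟩
        · constructor
          intro a ha b hb c hc
          obtain ⟨x, a', rfl, hx, ha'⟩ := up_cases htop ha
          obtain ⟨y, b', rfl, hy, hb'⟩ := up_cases htop hb
          have hxs := sep_step hac hT hx ha'
          have hys := sep_step hac hT hy hb'
          obtain ⟨c', rfl⟩ : ∃ c', c = c' + 1 := ⟨c - 1, by have := hc.1; omega⟩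
          have hac' : a' ≤ c' := by have := hc.1; omega
          have hcb' : c' ≤ b' := by have := hc.2; omega
          by_cases hxy : x = y
          · subst hxy
            exact Up.step T x c' hx ((hup x hx hxs).2.out ha' hb' ⟨hac', hcb'⟩)
          · obtain ⟨J, hJs, hJx, hJy⟩ := polygon hac hP hT hx hy hxs hys hxy
            have hTx := mu_lt hac hP hT hx
            have hxJ : mu x ≤ mu J := mu_mono hP (by
              rcases hJx with h1 | ⟨z, h1, h2⟩
              · exact h1.le
              · exact h1.le.trans h2.le)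
            have hJle := mu_le hP J
            obtain ⟨⟨L, hL⟩, -⟩ := ih J hJs (by omega)
            have key : ∀ {p q : ℕ}, Up x p → Up y q → q ≤ p + 1 →
                Up x c' ∨ Up y c' := fun hp hq hpq =>
              nat_join (hup x hx hxs).2 (hup y hy hys).2 ha' hb' hp hq hpq hac' hcb'
            have hres : Up x c' ∨ Up y c' := by
              rcases up_of_half hJx hL with h1 | h1 <;> rcases up_of_half hJy hL with h2 | h2
              · exact key h1 h2 (by omega)
              · exact key h1 h2 (by omega)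
              · exact key h1 h2 (by omega)
              · exact key h1 h2 (by omega)
            rcases hres with h | h
            · exact Up.step T x c' hx h
            · exact Up.step T y c' hy h

/-- **Main theorem.** -/
theorem no_gap [IsAlgClosed K] (hac : ∀ i j, m i j ≠ 0 → i < j) (hP : Pos m) :
    {L | IsLength K m L}.OrdConnected := by
  let T0 : Tors K m :=
    { mem := fun M => Subsingleton M.V
      zero := fun _ h => h
      quot := fun M N f _ hs h => hs.subsingleton
      extn := fun M W hW h1 h2 => by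
        refine ⟨fun x y => ?_⟩
        have h3 : ∀ z : M.V, z = 0 := by
          intro z
          have h4 : W.mkQ z = 0 := h2.elim _ _
          have h5 : z ∈ W := (Submodule.Quotient.mk_eq_zero W).1 h4
          exact congrArg Subtype.val (h1.elim (⟨z, h5⟩ : W) 0)
        rw [h3 x, h3 y] }
  have hT0 : T0.Sep := by
    intro i j _ hi
    obtain ⟨M, hM, x, hx⟩ := hi
    exact absurd (hM.elim _ _) hx
  have h1 : {L | IsLength K m L} = {L | Up T0 L} := by
    ext L
    constructor
    · rintro ⟨T, h0, hL, hc⟩
      have h2 : T 0 = T0 := by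
        apply le_antisymm
        · exact fun M hM => (h0 M).1 hM
        · exact fun M hM => (h0 M).2 hM
      have h3 := up_of_chain T L hL hc
      rwa [h2] at h3
    · intro h
      obtain ⟨c, h0, hL, hc⟩ := chain_of_up h
      refine ⟨c, fun M => ?_, hL, hc⟩
      rw [h0]
  rw [h1]
  exact (main_induction hac hP T0 hT0).2

end Pool.Agent.MP_d9ddf5_al_h20
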