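import Pool.Agent.Lib.MP_d9ddf5_al_h20.Covers

/-!
# Rank two intervals of separated torsion classes
-/

set_option autoImplicit false

namespace Pool.Agent.MP_d9ddf5_al_h20

open Module LinearMap

variable {K : Type} [Field K] {n : ℕ} {m : Fin n → Fin n → ℕ}

theorem exists_pull {B N C : QMod K m} {φ : B.V →ₗ[K] N.V} {g : N.V →ₗ[K] C.V}
    (hφ : IsHom B N φ) (hi : Function.Injective φ) (hg : IsHom N C g)
    (hs : Function.Surjective g) (hex : ker g = range φ) (W : Submodule K C.V) (hW : C.Inv W) :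
    ∃ (P : QMod K m) (ι : P.V →ₗ[K] N.V) (φ' : B.V →ₗ[K] P.V) (g' : P.V →ₗ[K] (C.sub W hW).V),
      IsHom P N ι ∧ Function.Injective ι ∧ IsHom B P φ' ∧ Function.Injective φ' ∧
      IsHom P (C.sub W hW) g' ∧ Function.Surjective g' ∧ ker g' = range φ' := by
  have hU : N.Inv (W.comap g) := hg.comap_inv hW
  have hfU : ∀ x, φ x ∈ W.comap g := by
    intro x
    have h1 : g (φ x) = 0 := by
      rw [← mem_ker, hex]
      exact ⟨x, rfl⟩
    rw [Submodule.mem_comap, h1]
    exact Submodule.zero_mem _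
  refine ⟨N.sub (W.comap g) hU, (W.comap g).subtype, φ.codRestrict _ hfU,
    (g ∘ₗ (W.comap g).subtype).codRestrict W (fun x => x.2), IsHom.subtype _ hU,
    Submodule.injective_subtype _, hφ.codRestrict _ hU hfU, ?_, 
    (hg.comp (IsHom.subtype _ hU)).codRestrict W hW _, ?_, ?_⟩
  · intro x y h
    exact hi (congrArg Subtype.val h)
  · rintro ⟨y, hy⟩
    obtain ⟨x, rfl⟩ := hs y
    exact ⟨⟨x, hy⟩, rfl⟩
  · ext ⟨x, hx⟩
    constructor
    · intro h
      have h1 : g x = 0 := congrArg Subtype.val h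
      have h2 : x ∈ range φ := by
        rw [← hex]
        exact h1
      obtain ⟨y, hy⟩ := h2
      exact ⟨y, Subtype.ext hy⟩
    · rintro ⟨y, hy⟩
      have h1 : φ y = x := congrArg Subtype.val hy
      have h2 : x ∈ ker g := by
        rw [hex]
        exact ⟨y, h1⟩
      exact Subtype.ext h2

theorem dimZ_add {N M P : QMod K m} {f : N.V →ₗ[K] M.V} {g : M.V →ₗ[K] P.V}
    (hf : IsHom N M f) (hi : Function.Injective f) (hg : IsHom M P g)
    (hs : Function.Surjective g) (hex : ker g = range f) : M.dimZ = N.dimZ + P.dimZ := by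
  funext i
  have := hf.dim_add hi hg hs hex i
  simp [QMod.dimZ, this]

theorem dimZ_eq {M N : QMod K m} {f : M.V →ₗ[K] N.V} (hf : IsHom M N f)
    (hb : Function.Bijective f) : M.dimZ = N.dimZ := by
  funext i
  have := hf.dim_eq hb i
  simp [QMod.dimZ, this]

/-- Zero submodule: the quotient by the torsion part is an isomorphism. -/
theorem free_of_tor_bot {T : Tors K m} {M : QMod K m} {W : Submodule K M.V} {hW : M.Inv W}
    (hF : T.Free (M.quo W hW)) (h : W = ⊥) : T.Free M := by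
  have h5 : ker W.mkQ = ⊥ := by rw [W.ker_mkQ, h]
  exact hF.of_inj (IsHom.mkQ W hW) (ker_eq_bot.1 h5)

/-- Data of two covers of a separated class with labels `B1`, `B2`. -/
structure Two (T x y : Tors K m) (B1 B2 : QMod K m) : Prop where
  hx : T ⋖ x
  hy : T ⋖ y
  h1 : IsLabel T x B1
  h2 : IsLabel T y B2
  x2 : x.Free B2
  y1 : y.Free B1
  supp : ∀ i j, Mult m i j → (B1.Supp i ∨ B2.Supp i) → ¬ (B1.Supp j ∨ B2.Supp j)

theorem label_free {T x y : Tors K m} (hx : T ⋖ x) (hy : T ⋖ y) (hne : x ≠ y)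
    {B1 B2 : QMod K m} (h1 : IsLabel T x B1) (h2 : IsLabel T y B2) : x.Free B2 := by
  rw [← join_eq_of_covBy hx h1.mem h1.not_mem, free_join]
  refine ⟨h2.free, fun φ hφ => ?_⟩
  by_contra h0
  have h3 : T.mem (B2.quo (range φ) hφ.range_inv) :=
    h2.proper (IsHom.mkQ _ hφ.range_inv) (range φ).mkQ_surjective (by
      intro hi
      apply h0
      rw [← range_eq_bot, ← (range φ).ker_mkQ]
      exact ker_eq_bot.2 hi)
  have h4 : x.mem B2 := x.mem_exact hφ (IsHom.mkQ _ hφ.range_inv) (range φ).mkQ_surjective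
    (Submodule.ker_mkQ _) h1.mem (hx.le _ h3)
  have h5 : y ≤ x := by
    rw [← join_eq_of_covBy hy h2.mem h2.not_mem]
    exact join_le hx.le h4
  rcases hx.eq_or_eq hy.le h5 with h6 | h6
  · exact hy.lt.ne h6.symm
  · exact hne h6.symm

theorem two_mk (hac : ∀ i j, m i j ≠ 0 → i < j) {T x y : Tors K m} (hT : T.Sep)
    (hx : T ⋖ x) (hy : T ⋖ y) (hxs : x.Sep) (hys : y.Sep) (hne : x ≠ y) :
    ∃ B1 B2, Two T x y B1 B2 := by
  obtain ⟨B1, h1⟩ := exists_label hx.lt.not_ge
  obtain ⟨B2, h2⟩ := exists_label hy.lt.not_ge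
  have x2 := label_free hx hy hne h1 h2
  have y1 := label_free hy hx hne.symm h2 h1
  refine ⟨B1, B2, hx, hy, h1, h2, x2, y1, ?_⟩
  intro i j hij hi hj
  rcases hi with hi | hi <;> rcases hj with hj | hj
  · exact label_supp hac hT hx h1 i j hij hi hj
  · exact hxs.mult hij ⟨B1, h1.mem, hi⟩ ⟨B2, x2, hj⟩
  · exact hys.mult hij ⟨B2, h2.mem, hi⟩ ⟨B1, y1, hj⟩
  · exact label_supp hac hT hy h2 i j hij hi hj

namespace Two

variable {T x y : Tors K m} {B1 B2 : QMod K m} (D : Two T x y B1 B2)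

include D

theorem swap : Two T y x B2 B1 :=
  ⟨D.hy, D.hx, D.h2, D.h1, D.y1, D.x2, fun i j hij hi hj => D.supp i j hij hi.symm hj.symm⟩

theorem thin1 : Thin m B1.dimZ :=
  thin_of_supp fun i j hij hi hj => D.supp i j hij (Or.inl hi) (Or.inl hj)

theorem thin2 : Thin m B2.dimZ :=
  thin_of_supp fun i j hij hi hj => D.supp i j hij (Or.inr hi) (Or.inr hj)

theorem thin12 : Thin m (B1.dimZ + B2.dimZ) := by
  intro i j hij
  by_cases hi : B1.Supp i ∨ B2.Supp i
  · right
    have hj := D.supp i j hij hi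
    push Not at hj
    have e1 := (B1.dim_eq_zero j).2 hj.1
    have e2 := (B2.dim_eq_zero j).2 hj.2
    simp [QMod.dimZ, e1, e2]
  · left
    push Not at hi
    have e1 := (B1.dim_eq_zero i).2 hi.1
    have e2 := (B2.dim_eq_zero i).2 hi.2
    simp [QMod.dimZ, e1, e2]

theorem form11 [IsAlgClosed K] (hP : Pos m) : form m B1.dimZ B1.dimZ = 1 :=
  le_antisymm (form_le_one B1 fun _ hf => D.h1.scalar hf)
    (form_pos hP (dimZ_ne_zero D.h1.nonzero) D.thin1)

theorem form22 [IsAlgClosed K] (hP : Pos m) : form m B2.dimZ B2.dimZ = 1 :=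
  D.swap.form11 hP

theorem form21 : form m B2.dimZ B1.dimZ ≤ 0 := by
  by_contra h
  obtain ⟨f, hf, h0⟩ := exists_hom_of_form_pos B2 B1 (by omega)
  exact h0 (D.y1 B2 f D.h2.mem hf)

theorem form12 [IsAlgClosed K] (hP : Pos m) : -1 ≤ form m B1.dimZ B2.dimZ := by
  have h0 : B1.dimZ + B2.dimZ ≠ 0 := by
    intro h
    apply dimZ_ne_zero D.h1.nonzero
    funext i
    have h1 := congrFun h i
    have e1 : (0 : ℤ) ≤ B1.dimZ i := Int.natCast_nonneg _
    have e2 : (0 : ℤ) ≤ B2.dimZ i := Int.natCast_nonneg _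
    simp only [Pi.add_apply, Pi.zero_apply] at h1 ⊢
    omega
  have h1 := form_pos hP h0 D.thin12
  rw [form_add_left, form_add_right, form_add_right] at h1
  have h2 := D.form11 hP
  have h3 := D.form22 hP
  have h4 := D.form21
  omega

theorem formDD (hP : Pos m) : 1 ≤ form m (B1.dimZ + B2.dimZ) (B1.dimZ + B2.dimZ) := by
  refine form_pos hP ?_ D.thin12
  intro h
  apply dimZ_ne_zero D.h1.nonzero
  funext i
  have h1 := congrFun h i
  have e1 : (0 : ℤ) ≤ B1.dimZ i := Int.natCast_nonneg _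
  have e2 : (0 : ℤ) ≤ B2.dimZ i := Int.natCast_nonneg _
  simp only [Pi.add_apply, Pi.zero_apply] at h1 ⊢
  omega

/-- `B2` embeds in the modules of the join free for `x`. -/
theorem exists_inj {N : QMod K m} (hN : (join2 x y).mem N) (hF : x.Free N)
    (h0 : ¬ Subsingleton N.V) : ∃ φ : B2.V →ₗ[K] N.V, IsHom B2 N φ ∧ Function.Injective φ := by
  by_contra hn
  push Not at hn
  apply h0
  refine Tors.subsingleton_of_mem_free hN ?_
  rw [free_join2]
  refine ⟨hF, ?_⟩
  rw [← join_eq_of_covBy D.hy D.h2.mem D.h2.not_mem, free_join]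
  refine ⟨hF.mono D.hx.le, fun φ hφ => ?_⟩
  by_contra hφ0
  exact hn φ hφ (D.h2.injective (hF.mono D.hx.le) hφ hφ0)

theorem analysis [IsAlgClosed K] (hP : Pos m) {N C : QMod K m} (hN : x.Free N)
    {φ : B2.V →ₗ[K] N.V} (hφ : IsHom B2 N φ) (hi : Function.Injective φ)
    {g : N.V →ₗ[K] C.V} (hg : IsHom N C g) (hs : Function.Surjective g) (hex : ker g = range φ)
    (hC : x.mem C) (hC0 : ¬ Subsingleton C.V) :
    N.dimZ = B1.dimZ + B2.dimZ ∧ form m B1.dimZ B2.dimZ = -1 := by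
  have hCF : T.Free C := by
    obtain ⟨W, hW, hT, hF⟩ := T.exists_tor C
    obtain ⟨P, ι, φ', g', h1, h2, h3, h4, h5, h6, h7⟩ := exists_pull hφ hi hg hs hex W hW
    have hPy : y.mem P := y.mem_exact h3 h5 h6 h7 D.h2.mem (D.hy.le _ hT)
    have hPT : T.Free P := (hN.mono D.hx.le).of_inj h1 h2
    have h8 := D.h2.quo_free D.hy hPT h3 h4 h5 h6 h7
    have h9 := Tors.subsingleton_of_mem_free hT h8
    refine free_of_tor_bot hF ?_
    rw [Submodule.eq_bot_iff]
    intro z hz
    exact congrArg Subtype.val (h9.elim (⟨z, hz⟩ : W) 0)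
  obtain ⟨r, hr, hr0, -⟩ := D.h1.exists_mult D.hx _ C le_rfl hC hCF
  have hr1 : r ≠ 0 := fun h => hC0 (hr0 h)
  have hCd : C.dimZ = (r : ℤ) • B1.dimZ := by
    funext i
    simp [QMod.dimZ, hr i]
  have hNd : N.dimZ = B2.dimZ + (r : ℤ) • B1.dimZ := by
    rw [dimZ_add hφ hi hg hs hex, hCd]
  have h1 : form m B1.dimZ N.dimZ ≤ 0 := by
    by_contra h
    obtain ⟨f, hf, h0⟩ := exists_hom_of_form_pos B1 N (by omega)
    exact h0 (hN B1 f D.h1.mem hf)
  rw [hNd, form_add_right, form_smul_right, D.form11 hP] at h1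
  have h2 := D.form12 hP
  have h3 : r = 1 := by omega
  subst h3
  refine ⟨?_, by omega⟩
  rw [hNd]
  simp [add_comm]

/-- Labels of the pairs `x < U < join`. -/
theorem label_dim [IsAlgClosed K] (hP : Pos m) {U : Tors K m} (hxU : x ≤ U)
    (hUJ : U < join2 x y) {M : QMod K m} (hM : IsLabel x U M) :
    M.dimZ = B1.dimZ + B2.dimZ ∧ form m B1.dimZ B2.dimZ = -1 := by
  obtain ⟨φ, hφ, hi⟩ := D.exists_inj (hUJ.le _ hM.mem) hM.free hM.nonzero
  have hg : IsHom M (M.quo (range φ) hφ.range_inv) (range φ).mkQ := IsHom.mkQ _ _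
  have hs := (range φ).mkQ_surjective
  have hex : ker (range φ).mkQ = range φ := Submodule.ker_mkQ _
  have hB0 : 0 < finrank K B2.V := by
    rw [Nat.pos_iff_ne_zero]
    intro h
    exact D.h2.nonzero ((finrank_zero_iff (R := K)).1 h)
  have hfr := IsHom.finrank_add (P := M.quo (range φ) hφ.range_inv) hi hs hex
  have hCx : x.mem (M.quo (range φ) hφ.range_inv) := by
    by_contra hn
    obtain ⟨N', g', hN', hg', hgs, h0⟩ := Tors.exists_free_quotient hn
    have h1 := hM.min N' (U.quot _ _ g' hg' hgs (U.quot _ _ _ hg hs hM.mem)) hN' h0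
    have h2 : finrank K N'.V ≤ finrank K (M.quo (range φ) hφ.range_inv).V := by
      rw [← finrank_range_add_finrank_ker g', range_eq_top.2 hgs, finrank_top]
      omega
    omega
  have hC0 : ¬ Subsingleton (M.quo (range φ) hφ.range_inv).V := by
    intro h
    have h1 : U.mem B2 := by
      refine (U.mem_of_bij hφ ⟨hi, fun z => ?_⟩).2 hM.mem
      have : (range φ).mkQ z = 0 := h.elim _ _
      exact (Submodule.Quotient.mk_eq_zero _).1 this
    have h2 : join2 x y ≤ U := by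
      refine join2_le hxU ?_
      rw [← join_eq_of_covBy D.hy D.h2.mem D.h2.not_mem]
      exact join_le (D.hx.le.trans hxU) h1
    exact hUJ.not_ge h2
  exact D.analysis hP hM.free hφ hi hg hs hex hCx hC0

theorem half [IsAlgClosed K] (hP : Pos m) :
    x ⋖ join2 x y ∨ ∃ z, x ⋖ z ∧ z ⋖ join2 x y := by
  have hxJ : x < join2 x y := by
    refine lt_of_le_of_ne (le_join2_left x y) fun h => D.h2.nonzero ?_
    refine Tors.subsingleton_of_mem_free (T := x) ?_ D.x2
    rw [h]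
    exact le_join2_right x y _ D.h2.mem
  by_cases hU : ∃ U, x < U ∧ U < join2 x y
  swap
  · left
    exact ⟨hxJ, fun U h1 h2 => hU ⟨U, h1, h2⟩⟩
  right
  obtain ⟨U, hxU, hUJ⟩ := hU
  obtain ⟨M, hM⟩ := exists_label hxU.not_ge
  obtain ⟨hMd, h12⟩ := D.label_dim hP hxU.le hUJ hM
  have hMn : ¬ x.mem M := hM.not_mem
  set U1 := join x M with hU1
  have hU1U : U1 ≤ U := join_le hxU.le hM.mem
  have hxU1 : x < U1 := by
    refine lt_of_le_of_ne (le_join x M) fun h => hMn ?_
    rw [h]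
    exact mem_join x M
  have hDD := D.formDD hP
  have hc1 : x ⋖ U1 := by
    refine ⟨hxU1, fun V hxV hVU => ?_⟩
    obtain ⟨M', hM'⟩ := exists_label hxV.not_ge
    have hMd' := (D.label_dim hP hxV.le (lt_of_lt_of_le hVU (hU1U.trans hUJ.le)) hM').1
    obtain ⟨ψ, hψ, hψ0⟩ := exists_hom_of_form_pos M M' (by rw [hMd, hMd']; omega)
    have hψi := hM.injective hM'.free hψ hψ0
    have hfr : finrank K M.V = finrank K M'.V := by
      rw [M.finrank_eq_sum, M'.finrank_eq_sum]
      refine Finset.sum_congr rfl fun i _ => ?_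
      have h1 : (M.dim i : ℤ) = (M'.dim i : ℤ) := congrFun (hMd.trans hMd'.symm) i
      exact_mod_cast h1
    have hψs : Function.Surjective ψ := (injective_iff_surjective_of_finrank_eq_finrank hfr).1 hψi
    have h1 : V.mem M := (V.mem_of_bij hψ ⟨hψi, hψs⟩).2 hM'.mem
    exact hVU.not_ge (join_le hxV.le h1)
  have hML : IsLabel x U1 M :=
    ⟨mem_join x M, hM.free, hM.nonzero, fun M' h1 h2 h3 => hM.min M' (hU1U _ h1) h2 h3⟩
  refine ⟨U1, hc1, lt_of_le_of_lt hU1U hUJ, fun V hUV hVJ => ?_⟩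
  obtain ⟨N, hN⟩ := exists_label hUV.not_ge
  have hNx : x.Free N := hN.free.mono hxU1.le
  obtain ⟨φ, hφ, hi⟩ := D.exists_inj (hVJ.le _ hN.mem) hNx hN.nonzero
  have hg : IsHom N (N.quo (range φ) hφ.range_inv) (range φ).mkQ := IsHom.mkQ _ _
  have hs := (range φ).mkQ_surjective
  have hex : ker (range φ).mkQ = range φ := Submodule.ker_mkQ _
  have hB0 : 0 < finrank K B2.V := by
    rw [Nat.pos_iff_ne_zero]
    intro h
    exact D.h2.nonzero ((finrank_zero_iff (R := K)).1 h)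
  have hfr := IsHom.finrank_add (P := N.quo (range φ) hφ.range_inv) hi hs hex
  have hCU : U1.mem (N.quo (range φ) hφ.range_inv) := by
    by_contra hn
    obtain ⟨N', g', hN', hg', hgs, h0⟩ := Tors.exists_free_quotient hn
    have h1 := hN.min N' (V.quot _ _ g' hg' hgs (V.quot _ _ _ hg hs hN.mem)) hN' h0
    have h2 : finrank K N'.V ≤ finrank K (N.quo (range φ) hφ.range_inv).V := by
      rw [← finrank_range_add_finrank_ker g', range_eq_top.2 hgs, finrank_top]
      omega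
    omega
  have hC0 : ¬ Subsingleton (N.quo (range φ) hφ.range_inv).V := by
    intro h
    have h1 : V.mem B2 := by
      refine (V.mem_of_bij hφ ⟨hi, fun z => ?_⟩).2 hN.mem
      have : (range φ).mkQ z = 0 := h.elim _ _
      exact (Submodule.Quotient.mk_eq_zero _).1 this
    have h2 : join2 x y ≤ V := by
      refine join2_le (hxU1.le.trans hUV.le) ?_
      rw [← join_eq_of_covBy D.hy D.h2.mem D.h2.not_mem]
      exact join_le (D.hx.le.trans (hxU1.le.trans hUV.le)) h1
    exact hVJ.not_ge h2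
  -- the part of the quotient in `x` vanishes
  obtain ⟨W, hW, hT, hF⟩ := x.exists_tor (N.quo (range φ) hφ.range_inv)
  have hno : ∀ (P : QMod K m) (ι : P.V →ₗ[K] N.V), IsHom P N ι → Function.Injective ι →
      form m (B1.dimZ + B2.dimZ) P.dimZ ≤ 0 := by
    intro P ι h1 h2
    by_contra h
    obtain ⟨f, hf, h0⟩ := exists_hom_of_form_pos M P (by rw [hMd]; omega)
    exact h0 ((hN.free.of_inj h1 h2) M f (mem_join x M) hf)
  have hWb : W = ⊥ := by
    by_contra hW0
    obtain ⟨P, ι, φ', g', h1, h2, h3, h4, h5, h6, h7⟩ := exists_pull hφ hi hg hs hex W hW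
    have h8 : ¬ Subsingleton ((N.quo (range φ) hφ.range_inv).sub W hW).V := by
      intro h
      apply hW0
      rw [Submodule.eq_bot_iff]
      intro z hz
      exact congrArg Subtype.val (h.elim (⟨z, hz⟩ : W) 0)
    have h9 := (D.analysis hP (hNx.of_inj h1 h2) h3 h4 h5 h6 h7 hT h8).1
    have h10 := hno P ι h1 h2
    rw [h9] at h10
    omega
  have hCF : x.Free (N.quo (range φ) hφ.range_inv) := free_of_tor_bot hF hWb
  obtain ⟨ψ, hψ, hψi⟩ := hML.exists_inj hc1 hCU hCF hC0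
  obtain ⟨P, ι, φ', g', h1, h2, h3, h4, h5, h6, h7⟩ :=
    exists_pull hφ hi hg hs hex (range ψ) hψ.range_inv
  have h8 : ((N.quo (range φ) hφ.range_inv).sub (range ψ) hψ.range_inv).dimZ =
      B1.dimZ + B2.dimZ := by
    rw [← hMd]
    have h9 : IsHom M ((N.quo (range φ) hφ.range_inv).sub (range ψ) hψ.range_inv)
      (ψ.codRestrict (range ψ) fun z => ⟨z, rfl⟩) := hψ.codRestrict _ _ _
    refine (dimZ_eq h9 ⟨fun a b h => hψi (congrArg Subtype.val h), ?_⟩).symm
    rintro ⟨_, z, rfl⟩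
    exact ⟨z, rfl⟩
  have h9 := dimZ_add h3 h4 h5 h6 h7
  have h10 := hno P ι h1 h2
  rw [h9, h8, form_add_right, form_add_left, h12, D.form22 hP] at h10
  omega

end Two

theorem join2_comm (x y : Tors K m) : join2 x y = join2 y x :=
  le_antisymm (join2_le (le_join2_right y x) (le_join2_left y x))
    (join2_le (le_join2_right x y) (le_join2_left x y))

/-- Rank two intervals. -/
theorem polygon [IsAlgClosed K] (hac : ∀ i j, m i j ≠ 0 → i < j) (hP : Pos m)
    {T x y : Tors K m} (hT : T.Sep) (hx : T ⋖ x) (hy : T ⋖ y) (hxs : x.Sep) (hys : y.Sep)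
    (hne : x ≠ y) :
    ∃ J : Tors K m, J.Sep ∧ (x ⋖ J ∨ ∃ z, x ⋖ z ∧ z ⋖ J) ∧ (y ⋖ J ∨ ∃ z, y ⋖ z ∧ z ⋖ J) := by
  obtain ⟨B1, B2, D⟩ := two_mk hac hT hx hy hxs hys hne
  refine ⟨join2 x y, ?_, D.half hP, ?_⟩
  · intro i j hij hi hj
    have hj' : x.FSupp j ∧ y.FSupp j := by
      obtain ⟨N, hN, h⟩ := hj
      exact ⟨⟨N, hN.mono (le_join2_left x y), h⟩, ⟨N, hN.mono (le_join2_right x y), h⟩⟩
    obtain ⟨M, hM, hMi⟩ := hi
    have h1 : join2 x y ≤ suppClass K m {i | x.Supp i ∨ y.Supp i} :=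
      join2_le (fun M hM i hi => Or.inl ⟨M, hM, hi⟩) (fun M hM i hi => Or.inr ⟨M, hM, hi⟩)
    rcases h1 M hM i hMi with h | h
    · exact hxs i j hij h hj'.1
    · exact hys i j hij h hj'.2
  · have := D.swap.half hP
    rwa [join2_comm y x] at this

end Pool.Agent.MP_d9ddf5_al_h20
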