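import Pool.Agent.Lib.MP_d9ddf5_al_h20.Euler

/-!
# Finiteness of the set of roots
-/

set_option autoImplicit false

namespace Pool.Agent.MP_d9ddf5_al_h20

open Module LinearMap

variable {n : ℕ} {m : Fin n → Fin n → ℕ}

/-- There is a path of multiple arrows from `i` to `j`. -/
def Mult (m : Fin n → Fin n → ℕ) (i j : Fin n) : Prop :=
  Relation.TransGen (fun a b => 2 ≤ m a b) i j

/-- The quadratic form is positive on nonzero vectors whose support contains no pair of vertices
joined by a path of multiple arrows. -/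
def Pos (m : Fin n → Fin n → ℕ) : Prop :=
  ∀ d : Fin n → ℝ, d ≠ 0 → (∀ i j, Mult m i j → d i * d j = 0) →
    0 < ∑ i, d i ^ 2 - ∑ i, ∑ j, (m i j : ℝ) * (d i * d j)

/-- No two vertices of the support are joined by a path of multiple arrows. -/
def Thin (m : Fin n → Fin n → ℕ) (d : Fin n → ℤ) : Prop :=
  ∀ i j, Mult m i j → d i = 0 ∨ d j = 0

theorem Mult.lt (hac : ∀ i j, m i j ≠ 0 → i < j) {i j : Fin n} (h : Mult m i j) : i < j := by
  induction h with
  | single h => exact hac _ _ (by omega)
  | tail _ h ih => exact ih.trans (hac _ _ (by omega))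

theorem form_cast (d : Fin n → ℤ) : ((form m d d : ℤ) : ℝ) =
    ∑ i, (d i : ℝ) ^ 2 - ∑ i, ∑ j, (m i j : ℝ) * ((d i : ℝ) * (d j : ℝ)) := by
  unfold form
  push_cast
  congr 1
  exact Finset.sum_congr rfl fun i _ => (pow_two _).symm

theorem form_pos (hP : Pos m) {d : Fin n → ℤ} (h0 : d ≠ 0) (ht : Thin m d) :
    1 ≤ form m d d := by
  have h1 := hP (fun i => (d i : ℝ)) (by
    intro h
    apply h0
    funext i
    have := congrFun h i
    simpa using this) (by
    intro i j hij
    rcases ht i j hij with h | h <;> simp [h])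
  rw [← form_cast] at h1
  have h2 : 0 < form m d d := by exact_mod_cast h1
  omega

theorem finite_roots (hP : Pos m) : {d : Fin n → ℤ | Thin m d ∧ form m d d ≤ 1}.Finite := by
  let q : (Fin n → ℝ) → ℝ := fun v => ∑ i, v i ^ 2 - ∑ i, ∑ j, (m i j : ℝ) * (v i * v j)
  have hq : Continuous q := by fun_prop
  let C : Set (Fin n → ℝ) := Metric.sphere 0 1 ∩ {v | ∀ i j, Mult m i j → v i * v j = 0}
  have hCc : IsCompact C := by
    refine (isCompact_sphere 0 1).inter_right ?_
    simp only [Set.ofPred_forall]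
    refine isClosed_iInter fun i => isClosed_iInter fun j => isClosed_iInter fun _ => ?_
    exact isClosed_eq (by fun_prop) continuous_const
  obtain ⟨c, hc, hmin⟩ : ∃ c : ℝ, 0 < c ∧ ∀ v ∈ C, c ≤ q v := by
    by_cases hne : C.Nonempty
    · obtain ⟨v, hv, hmin⟩ := hCc.exists_isMinOn hne hq.continuousOn
      refine ⟨q v, ?_, fun w hw => hmin hw⟩
      refine hP v ?_ hv.2
      intro h
      have := hv.1
      rw [h] at this
      simp at this
    · exact ⟨1, one_pos, fun v hv => absurd ⟨v, hv⟩ hne⟩
  obtain ⟨R, hR⟩ := exists_nat_gt (1 / c + 1)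
  refine (Set.finite_Icc (fun _ : Fin n => -(R : ℤ)) (fun _ => (R : ℤ))).subset ?_
  rintro d ⟨ht, hd⟩
  set v : Fin n → ℝ := fun i => (d i : ℝ) with hv
  have hqv : q v ≤ 1 := by
    have : q v = ((form m d d : ℤ) : ℝ) := (form_cast d).symm
    rw [this]
    exact_mod_cast hd
  have hnorm : ‖v‖ ≤ R := by
    by_cases h0 : v = 0
    · rw [h0, norm_zero]
      positivity
    · have hpos : 0 < ‖v‖ := norm_pos_iff.2 h0
      have h1 : ‖v‖⁻¹ • v ∈ C := by
        refine ⟨?_, ?_⟩
        · simp [norm_smul, hpos.ne']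
        · intro i j hij
          have : v i * v j = 0 := by
            rcases ht i j hij with h | h <;> simp [hv, h]
          simp only [Pi.smul_apply, smul_eq_mul]
          rw [mul_mul_mul_comm, this, mul_zero]
      have h2 := hmin _ h1
      have h3 : q (‖v‖⁻¹ • v) = (‖v‖⁻¹) ^ 2 * q v := by
        simp only [q, Pi.smul_apply, smul_eq_mul]
        rw [mul_sub, Finset.mul_sum, Finset.mul_sum]
        congr 1
        · exact Finset.sum_congr rfl fun i _ => by ring
        · refine Finset.sum_congr rfl fun i _ => ?_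
          rw [Finset.mul_sum]
          exact Finset.sum_congr rfl fun j _ => by ring
      rw [h3] at h2
      have h4 : c * ‖v‖ ^ 2 ≤ q v := by
        have h5 : ‖v‖ ^ 2 * c ≤ ‖v‖ ^ 2 * ((‖v‖⁻¹) ^ 2 * q v) :=
          mul_le_mul_of_nonneg_left h2 (by positivity)
        have h6 : ‖v‖ ^ 2 * ((‖v‖⁻¹) ^ 2 * q v) = q v := by
          field_simp
        linarith
      have h7 : c * ‖v‖ ^ 2 ≤ 1 := h4.trans hqv
      have h8 : ‖v‖ ^ 2 ≤ 1 / c := by
        rw [le_div_iff₀ hc]
        linarith
      nlinarith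
  rw [Set.mem_Icc]
  constructor
  · intro i
    have h1 := norm_le_pi_norm v i
    have h2 : |(d i : ℝ)| ≤ R := h1.trans hnorm
    have h3 := (abs_le.1 h2).1
    exact_mod_cast h3
  · intro i
    have h1 := norm_le_pi_norm v i
    have h2 : |(d i : ℝ)| ≤ R := h1.trans hnorm
    have h3 := (abs_le.1 h2).2
    exact_mod_cast h3

theorem form_add_left (d e f : Fin n → ℤ) : form m (d + e) f = form m d f + form m e f := by
  unfold form
  simp only [Pi.add_apply, add_mul, mul_add, Finset.sum_add_distrib]
  ring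

theorem form_add_right (d e f : Fin n → ℤ) : form m d (e + f) = form m d e + form m d f := by
  unfold form
  simp only [Pi.add_apply, mul_add, Finset.sum_add_distrib]
  ring

theorem form_smul_right (c : ℤ) (d e : Fin n → ℤ) : form m d (c • e) = c * form m d e := by
  unfold form
  simp only [Pi.smul_apply, smul_eq_mul]
  rw [mul_sub, Finset.mul_sum, Finset.mul_sum]
  congr 1
  · exact Finset.sum_congr rfl fun i _ => by ring
  · refine Finset.sum_congr rfl fun i _ => ?_
    rw [Finset.mul_sum]
    exact Finset.sum_congr rfl fun j _ => by ring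

end Pool.Agent.MP_d9ddf5_al_h20
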