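import Pool.Agent.Lib.MP_d9ddf5_al_h20.Glue

/-!
# Separation: in a finite maximal chain, labels supported at the head of a multiple arrow come
before the labels supported at its tail
-/

set_option autoImplicit false

namespace Pool.Agent.MP_d9ddf5_al_h20

open Module LinearMap

variable {K : Type} [Field K] {n : ℕ} {m : Fin n → Fin n → ℕ}

/-- Separated torsion classes. -/
def Tors.Sep (T : Tors K m) : Prop := ∀ i j, 2 ≤ m i j → T.Supp i → ¬ T.FSupp j

/-- `L` is the length of a chain of covers from `T` to the class of all modules. -/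
inductive Up : Tors K m → ℕ → Prop
  | top (T : Tors K m) (h : ∀ M, T.mem M) : Up T 0
  | step (T x : Tors K m) (L : ℕ) (h : T ⋖ x) (hx : Up x L) : Up T (L + 1)

theorem chain_of_up {T : Tors K m} {L : ℕ} (h : Up T L) : ∃ c : ℕ → Tors K m, c 0 = T ∧
    (∀ M, (c L).mem M) ∧ ∀ k < L, c k ⋖ c (k + 1) := by
  induction h with
  | top T h => exact ⟨fun _ => T, rfl, h, fun k hk => absurd hk (by omega)⟩
  | step T x L h hx ih =>
      obtain ⟨c, h0, h1, h2⟩ := ih
      refine ⟨fun k => if k = 0 then T else c (k - 1), by simp, ?_, ?_⟩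
      · simpa using h1
      · intro k hk
        rcases Nat.eq_zero_or_pos k with rfl | hk0
        · simp [h0, h]
        · have e1 : k ≠ 0 := by omega
          have e2 : k - 1 + 1 = k := by omega
          have := h2 (k - 1) (by omega)
          rw [e2] at this
          simpa [e1] using this

theorem chain_le {c : ℕ → Tors K m} {L : ℕ} (h : ∀ k < L, c k ⋖ c (k + 1)) {i j : ℕ}
    (hij : i ≤ j) (hj : j ≤ L) : c i ≤ c j := by
  induction j, hij using Nat.le_induction with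
  | base => exact le_rfl
  | succ k hk ih => exact (ih (by omega)).trans (h k (by omega)).le

/-- A module of a larger class with the support of a vertex has a free quotient with it. -/
theorem exists_free_supp {T x : Tors K m} {a : Fin n} (h : x.Supp a) (hn : ¬ T.Supp a) :
    ∃ N : QMod K m, x.mem N ∧ T.Free N ∧ N.Supp a := by
  obtain ⟨M, hM, y, hy⟩ := h
  obtain ⟨W, hW, hT, hF⟩ := T.exists_tor M
  refine ⟨_, x.quot M _ W.mkQ (IsHom.mkQ W hW) W.mkQ_surjective hM, hF, W.mkQ y, ?_⟩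
  intro h0
  have h1 : W.mkQ (M.e a y) = 0 := h0
  have h2 : M.e a y ∈ W := (Submodule.Quotient.mk_eq_zero W).1 h1
  apply hn
  refine ⟨_, hT, ⟨M.e a y, h2⟩, ?_⟩
  intro h3
  apply hy
  have h4 : M.e a (M.e a y) = 0 := congrArg Subtype.val h3
  rwa [M.e_e] at h4

theorem QMod.gen_ne_bot (M : QMod K m) {x : M.V} (hx : x ≠ 0) : M.gen x ≠ ⊥ := by
  intro h
  have h1 := M.mem_gen x
  rw [h, Submodule.mem_bot] at h1
  exact hx h1

/-- The label of a cover which creates the vertex `a`. -/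
theorem exists_socData (hac : ∀ i j, m i j ≠ 0 → i < j) {T x : Tors K m} (h : T ⋖ x)
    {a : Fin n} (ha : x.Supp a) (hn : ¬ T.Supp a) :
    ∃ (B : QMod K m) (w : B.V), IsLabel T x B ∧ SocData B a w := by
  obtain ⟨B, hB⟩ := exists_label h.lt.not_ge
  obtain ⟨N, hN, hNF, hNa⟩ := exists_free_supp ha hn
  obtain ⟨r, hr, -, -⟩ := hB.exists_mult h _ N le_rfl hN hNF
  have hBa : B.Supp a := by
    by_contra h0
    have h1 := hr a
    rw [(B.dim_eq_zero a).2 h0, mul_zero] at h1
    exact (N.dim_eq_zero a).1 h1 hNa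
  -- every nonzero submodule contains the vertex space
  have hall : ∀ W : Submodule K B.V, B.Inv W → W ≠ ⊥ → ∀ y, B.e a y ∈ W := by
    intro W hW h0 y
    have h1 : T.mem (B.quo W hW) := hB.proper (IsHom.mkQ W hW) W.mkQ_surjective (by
      intro hi
      apply h0
      rw [← W.ker_mkQ]
      exact ker_eq_bot.2 hi)
    by_contra h2
    apply hn
    refine ⟨_, h1, W.mkQ y, fun h3 => h2 ?_⟩
    exact (Submodule.Quotient.mk_eq_zero W).1 h3
  obtain ⟨y0, hy0⟩ := hBa
  have hew : B.e a (B.e a y0) = B.e a y0 := B.e_e a y0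
  have hspan : ∀ y, ∃ c : K, B.e a y = c • B.e a y0 := by
    intro y
    obtain ⟨c, hc⟩ := B.gen_spec hac hew (hall _ (B.gen_inv _) (B.gen_ne_bot hy0) y)
    refine ⟨c, ?_⟩
    have h1 := hc a le_rfl
    rw [map_sub, map_smul, B.e_e, hew, sub_eq_zero] at h1
    exact h1
  refine ⟨B, B.e a y0, hB, hew, hy0, hspan, ?_, fun W hW h0 => hall W hW h0 y0⟩
  intro u hu y
  by_contra h0
  have h1 : B.e u (B.e u y) = B.e u y := B.e_e u y
  obtain ⟨c, hc⟩ := B.gen_spec hac h1 (hall _ (B.gen_inv _) (B.gen_ne_bot h0) y0)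
  have h2 := hc a hu.le
  rw [map_sub, map_smul, B.e_ne a u hu.ne, smul_zero, sub_zero, hew] at h2
  exact hy0 h2

/-- The torsion-free part of a cyclic module. -/
theorem exists_cycData (hac : ∀ i j, m i j ≠ 0 → i < j) {T U : Tors K m} {N : QMod K m}
    {b : Fin n} {x : N.V} (hx : N.e b x = x) (hU : U.mem (N.sub (N.gen x) (N.gen_inv x)))
    (hn : ¬ T.mem (N.sub (N.gen x) (N.gen_inv x))) :
    ∃ (N' : QMod K m) (x' : N'.V), U.mem N' ∧ T.Free N' ∧ CycData N' b x' := by
  set N1 := N.sub (N.gen x) (N.gen_inv x) with hN1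
  obtain ⟨W, hW, hT, hF⟩ := T.exists_tor N1
  let x1 : N1.V := ⟨x, N.mem_gen x⟩
  have hx1 : N1.e b x1 = x1 := Subtype.ext hx
  -- `x1` generates `N1`
  have htop : ∀ S : Submodule K N1.V, N1.Inv S → x1 ∈ S → S = ⊤ := by
    intro S hS hxS
    have h1 : N.Inv (S.map (N.gen x).subtype) := (IsHom.subtype _ (N.gen_inv x)).map_inv hS
    have h2 : N.gen x ≤ S.map (N.gen x).subtype := N.gen_le h1 ⟨x1, hxS, rfl⟩
    rw [eq_top_iff]
    rintro ⟨y, hy⟩ -
    obtain ⟨z, hz, hzy⟩ := h2 hy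
    have h3 : z = ⟨y, hy⟩ := Subtype.ext hzy
    rwa [h3] at hz
  have hspec : ∀ y : N1.V, ∃ c : K, ∀ u ≤ b, N1.e u (y - c • x1) = 0 := by
    rintro ⟨y, hy⟩
    obtain ⟨c, hc⟩ := N.gen_spec hac hx hy
    exact ⟨c, fun u hu => Subtype.ext (hc u hu)⟩
  have hxW : x1 ∉ W := by
    intro h
    have h1 := htop W hW h
    apply hn
    exact T.quot (N1.sub W hW) N1 W.subtype (IsHom.subtype W hW)
      (fun y => ⟨⟨y, h1 ▸ Submodule.mem_top⟩, rfl⟩) hT
  refine ⟨N1.quo W hW, W.mkQ x1, U.quot N1 _ W.mkQ (IsHom.mkQ W hW) W.mkQ_surjective hU, hF,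
    ⟨congrArg W.mkQ hx1, fun h => hxW ((Submodule.Quotient.mk_eq_zero W).1 h), ?_, ?_, ?_⟩⟩
  · intro y
    obtain ⟨y, rfl⟩ := W.mkQ_surjective y
    obtain ⟨c, hc⟩ := hspec y
    refine ⟨c, ?_⟩
    have h1 := hc b le_rfl
    rw [map_sub, map_smul, hx1, sub_eq_zero] at h1
    exact congrArg W.mkQ h1
  · intro u hu y
    obtain ⟨y, rfl⟩ := W.mkQ_surjective y
    obtain ⟨c, hc⟩ := hspec y
    have h1 := hc u hu.le
    rw [map_sub, map_smul, ← hx1, N1.e_ne u b hu.ne, smul_zero, sub_zero] at h1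
    exact congrArg W.mkQ h1
  · intro S hS hxS
    have h1 := htop (S.comap W.mkQ) ((IsHom.mkQ W hW).comap_inv hS) hxS
    rw [eq_top_iff]
    intro y _
    obtain ⟨y, rfl⟩ := W.mkQ_surjective y
    have h2 : y ∈ S.comap W.mkQ := by
      rw [h1]
      trivial
    exact h2

end Pool.Agent.MP_d9ddf5_al_h20
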