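import Pool.Agent.Lib.MP_d9ddf5_al_h20.Infl

/-!
# Torsion classes of a disjoint union of quivers
-/

set_option autoImplicit false

namespace Pool.Agent.MP_d9ddf5_al_h20

open Module LinearMap

variable {K : Type} [Field K] {n n1 n2 : ℕ} {m : Fin n → Fin n → ℕ} {m1 : Fin n1 → Fin n1 → ℕ}
  {m2 : Fin n2 → Fin n2 → ℕ} {f1 : Fin n1 → Fin n} {f2 : Fin n2 → Fin n}

/-- The quiver `m` is the disjoint union of the full subquivers `f1` and `f2`. -/
structure Disj (m1 : Fin n1 → Fin n1 → ℕ) (m2 : Fin n2 → Fin n2 → ℕ) (m : Fin n → Fin n → ℕ)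
    (f1 : Fin n1 → Fin n) (f2 : Fin n2 → Fin n) : Prop where
  s1 : FullSub m1 m f1
  s2 : FullSub m2 m f2
  cov : ∀ i, (∃ i', f1 i' = i) ∨ ∃ i', f2 i' = i
  dis : ∀ i j, f1 i ≠ f2 j
  no12 : ∀ i j, m (f1 i) (f2 j) = 0
  no21 : ∀ i j, m (f2 j) (f1 i) = 0

theorem Disj.swap (D : Disj m1 m2 m f1 f2) : Disj m2 m1 m f2 f1 :=
  ⟨D.s2, D.s1, fun i => (D.cov i).symm, fun i j h => D.dis j i h.symm, fun i j => D.no21 j i,
    fun i j => D.no12 j i⟩

/-- The projection to a part. -/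
def proj (f : Fin n1 → Fin n) (M : QMod K m) : M.V →ₗ[K] part f M :=
  LinearMap.codRestrict (part f M) (∑ i, M.e (f i)) fun x => by
    rw [LinearMap.sum_apply]
    exact Submodule.sum_mem _ fun i _ => e_mem_part M i x

theorem proj_apply (f : Fin n1 → Fin n) (M : QMod K m) (x : M.V) :
    (proj f M x : M.V) = ∑ i, M.e (f i) x := by
  change (∑ i, M.e (f i)) x = _
  rw [LinearMap.sum_apply]

theorem proj_of_mem (D : Disj m1 m2 m f1 f2) (M : QMod K m) {x : M.V} (hx : x ∈ part f1 M) :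
    (proj f1 M x : M.V) = x := by
  rw [proj_apply]
  exact sum_part D.s1 M hx

theorem proj_zero (D : Disj m1 m2 m f1 f2) (M : QMod K m) {x : M.V} (hx : x ∈ part f2 M) :
    proj f1 M x = 0 := by
  apply Subtype.ext
  rw [proj_apply]
  refine Finset.sum_eq_zero fun i _ => hx _ fun j h => D.dis i j h.symm

theorem e_proj (D : Disj m1 m2 m f1 f2) (M : QMod K m) (i : Fin n1) (x : M.V) :
    M.e (f1 i) (proj f1 M x : M.V) = M.e (f1 i) x := by
  classical
  rw [proj_apply, map_sum, Finset.sum_eq_single i]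
  · exact M.e_e _ x
  · intro j _ hj
    exact M.e_ne _ _ (fun h => hj (D.s1.inj h).symm) x
  · intro h
    exact absurd (Finset.mem_univ i) h

theorem part_of_proj_zero (D : Disj m1 m2 m f1 f2) (M : QMod K m) {x : M.V}
    (hx : proj f1 M x = 0) : x ∈ part f2 M := by
  intro i hi
  rcases D.cov i with ⟨i', rfl⟩ | ⟨i', rfl⟩
  · rw [← e_proj D, hx]
    exact map_zero _
  · exact absurd rfl (hi i')

theorem incl_hom (D : Disj m1 m2 m f1 f2) (M : QMod K m) :
    IsHom (infl D.s1 (cut D.s1 M)) M (part f1 M).subtype := by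
  constructor
  · intro i x
    change ((inflE f1 (cut D.s1 M) i x : part f1 M) : M.V) = M.e i x.1
    rcases D.cov i with ⟨i', rfl⟩ | ⟨i', rfl⟩
    · rw [inflE_apply D.s1]
      rfl
    · rw [inflE_not (cut D.s1 M) fun j => D.dis j i']
      exact (x.2 _ fun j => D.dis j i').symm
  · intro i j k x
    change ((inflA D.s1 (cut D.s1 M) i j k x : part f1 M) : M.V) = M.a i j k x.1
    rcases D.cov i with ⟨i', rfl⟩ | ⟨i', rfl⟩
    · rcases D.cov j with ⟨j', rfl⟩ | ⟨j', rfl⟩
      · have h := inflA_apply D.s1 (cut D.s1 M) i' j' (Fin.cast (D.s1.arr i' j').symm k)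
        change inflA D.s1 (cut D.s1 M) (f1 i') (f1 j') k = _ at h
        rw [h]
        rfl
      · exact (Nat.not_lt_zero _ (lt_of_lt_of_eq k.2 (D.no12 _ _))).elim
    · rw [inflA_not D.s1 (cut D.s1 M) k fun a _ h => absurd h (D.dis a i')]
      have h0 : M.e (f2 i') x.1 = 0 := x.2 _ fun j => D.dis j i'
      exact (a_zero_src k h0).symm

theorem proj_hom (D : Disj m1 m2 m f1 f2) (M : QMod K m) :
    IsHom M (infl D.s1 (cut D.s1 M)) (proj f1 M) := by
  constructor
  · intro i x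
    apply Subtype.ext
    change (proj f1 M (M.e i x) : M.V) = ((inflE f1 (cut D.s1 M) i (proj f1 M x) : part f1 M) : M.V)
    rcases D.cov i with ⟨i', rfl⟩ | ⟨i', rfl⟩
    · rw [inflE_apply D.s1]
      change _ = M.e (f1 i') (proj f1 M x : M.V)
      rw [e_proj D, proj_of_mem D M (e_mem_part M i' x)]
    · rw [inflE_not (cut D.s1 M) fun j => D.dis j i', proj_zero D M (e_mem_part M i' x)]
      rfl
  · intro i j k x
    apply Subtype.ext
    change (proj f1 M (M.a i j k x) : M.V) =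
      ((inflA D.s1 (cut D.s1 M) i j k (proj f1 M x) : part f1 M) : M.V)
    rcases D.cov i with ⟨i', rfl⟩ | ⟨i', rfl⟩
    · rcases D.cov j with ⟨j', rfl⟩ | ⟨j', rfl⟩
      · have h := inflA_apply D.s1 (cut D.s1 M) i' j' (Fin.cast (D.s1.arr i' j').symm k)
        change inflA D.s1 (cut D.s1 M) (f1 i') (f1 j') k = _ at h
        rw [h]
        change _ = M.a (f1 i') (f1 j') k (proj f1 M x : M.V)
        rw [proj_of_mem D M (a_mem_part M i' j' k x), ← M.a_src _ _ _ x, ← M.a_src _ _ _ (proj f1 M x : M.V),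
          e_proj D]
      · exact (Nat.not_lt_zero _ (lt_of_lt_of_eq k.2 (D.no12 _ _))).elim
    · rw [inflA_not D.s1 (cut D.s1 M) k fun a _ h => absurd h (D.dis a i')]
      rcases D.cov j with ⟨j', rfl⟩ | ⟨j', rfl⟩
      · exact (Nat.not_lt_zero _ (lt_of_lt_of_eq k.2 (D.no21 _ _))).elim
      · rw [proj_zero D M (a_mem_part M i' j' k x)]
        rfl

theorem proj_surj (D : Disj m1 m2 m f1 f2) (M : QMod K m) :
    Function.Surjective (proj f1 M) := fun y => ⟨y.1, Subtype.ext (proj_of_mem D M y.2)⟩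

theorem mem_iff (D : Disj m1 m2 m f1 f2) (T : Tors K m) (M : QMod K m) :
    T.mem M ↔ (res D.s1 T).mem (cut D.s1 M) ∧ (res D.s2 T).mem (cut D.s2 M) := by
  constructor
  · intro h
    exact ⟨T.quot _ _ _ (proj_hom D M) (proj_surj D M) h,
      T.quot _ _ _ (proj_hom D.swap M) (proj_surj D.swap M) h⟩
  · rintro ⟨h1, h2⟩
    refine T.mem_exact (incl_hom D.swap M) (proj_hom D M) (proj_surj D M) ?_ h2 h1
    ext x
    constructor
    · intro h
      exact ⟨⟨x, part_of_proj_zero D M h⟩, rfl⟩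
    · rintro ⟨y, rfl⟩
      exact proj_zero D M y.2

theorem cut_surj (D : Disj m1 m2 m f1 f2) {M N : QMod K m} {g : M.V →ₗ[K] N.V}
    (hg : IsHom M N g) (hs : Function.Surjective g) :
    Function.Surjective (g.restrict (p := part f1 M) (q := part f1 N)
      fun _ hx => hom_part hg hx) := by
  rintro ⟨y, hy⟩
  obtain ⟨x, rfl⟩ := hs y
  refine ⟨proj f1 M x, Subtype.ext ?_⟩
  change g (proj f1 M x : M.V) = g x
  rw [proj_apply, map_sum]
  refine Eq.trans (Finset.sum_congr rfl fun i _ => hg.1 (f1 i) x) (sum_part D.s1 N hy)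

theorem cut_exact (D : Disj m1 m2 m f1 f2) {N M P : QMod K m} {f : N.V →ₗ[K] M.V}
    {g : M.V →ₗ[K] P.V} (hf : IsHom N M f) (hg : IsHom M P g) (hex : ker g = range f) :
    ker (g.restrict (p := part f1 M) (q := part f1 P) fun _ hx => hom_part hg hx) =
      range (f.restrict (p := part f1 N) (q := part f1 M) fun _ hx => hom_part hf hx) := by
  ext ⟨x, hx⟩
  constructor
  · intro h
    have h1 : g x = 0 := congrArg Subtype.val h
    have h2 : x ∈ range f := by
      rw [← hex]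
      exact h1
    obtain ⟨z, rfl⟩ := h2
    refine ⟨proj f1 N z, Subtype.ext ?_⟩
    change f (proj f1 N z : N.V) = f z
    rw [proj_apply, map_sum]
    refine Eq.trans (Finset.sum_congr rfl fun i _ => hf.1 (f1 i) z) (sum_part D.s1 M hx)
  · rintro ⟨z, hz⟩
    have h1 : f z.1 = x := congrArg Subtype.val hz
    apply Subtype.ext
    change g x = 0
    rw [← h1]
    have h2 : f z.1 ∈ ker g := by
      rw [hex]
      exact ⟨z.1, rfl⟩
    exact h2

/-- The torsion class with the given parts. -/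
def glue2 (D : Disj m1 m2 m f1 f2) (y1 : Tors K m1) (y2 : Tors K m2) : Tors K m where
  mem M := y1.mem (cut D.s1 M) ∧ y2.mem (cut D.s2 M)
  zero M h := ⟨y1.zero _ (inferInstanceAs (Subsingleton (part f1 M))),
    y2.zero _ (inferInstanceAs (Subsingleton (part f2 M)))⟩
  quot _ _ _ hg hs h := ⟨y1.quot _ _ _ (hg.cut D.s1) (cut_surj D hg hs) h.1,
    y2.quot _ _ _ (hg.cut D.s2) (cut_surj D.swap hg hs) h.2⟩
  extn M W hW h1 h2 := by
    have hex : ker W.mkQ = range W.subtype :=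
      (Submodule.ker_mkQ W).trans (Submodule.range_subtype W).symm
    exact ⟨y1.mem_exact ((IsHom.subtype W hW).cut D.s1) ((IsHom.mkQ W hW).cut D.s1)
        (cut_surj D (IsHom.mkQ W hW) W.mkQ_surjective)
        (cut_exact D (IsHom.subtype W hW) (IsHom.mkQ W hW) hex) h1.1 h2.1,
      y2.mem_exact ((IsHom.subtype W hW).cut D.s2) ((IsHom.mkQ W hW).cut D.s2)
        (cut_surj D.swap (IsHom.mkQ W hW) W.mkQ_surjective)
        (cut_exact D.swap (IsHom.subtype W hW) (IsHom.mkQ W hW) hex) h1.2 h2.2⟩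

theorem infl_part (D : Disj m1 m2 m f1 f2) (M : QMod K m1) (x : M.V) :
    x ∈ part f1 (infl D.s1 M) := by
  intro i hi
  change inflE f1 M i x = 0
  rw [inflE_not M hi]
  rfl

theorem isHom_cut_infl (D : Disj m1 m2 m f1 f2) (M : QMod K m1) :
    IsHom M (cut D.s1 (infl D.s1 M))
      (LinearMap.id.codRestrict (part f1 (infl D.s1 M)) (infl_part D M)) := by
  constructor
  · intro i x
    apply Subtype.ext
    change M.e i x = inflE f1 M (f1 i) x
    rw [inflE_apply D.s1]
  · intro i j k x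
    apply Subtype.ext
    change M.a i j k x = inflA D.s1 M (f1 i) (f1 j) (Fin.cast (D.s1.arr i j) k) x
    rw [inflA_apply D.s1]

theorem cut_infl_other (D : Disj m1 m2 m f1 f2) (M : QMod K m1) :
    Subsingleton (cut D.s2 (infl D.s1 M)).V := by
  have key : ∀ x : part f2 (infl D.s1 M), x = 0 := by
    rintro ⟨x, hx⟩
    apply Subtype.ext
    change x = 0
    have h1 : ∀ i, M.e i x = 0 := by
      intro i
      have h2 : inflE f1 M (f1 i) x = 0 := hx (f1 i) fun j h => D.dis i j h.symm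
      rwa [inflE_apply D.s1] at h2
    rw [← M.e_sum x]
    exact Finset.sum_eq_zero fun i _ => h1 i
  exact ⟨fun x y => (key x).trans (key y).symm⟩

theorem res_glue2 (D : Disj m1 m2 m f1 f2) (y1 : Tors K m1) (y2 : Tors K m2) :
    res D.s1 (glue2 D y1 y2) = y1 := by
  have hb : ∀ M : QMod K m1, Function.Bijective
      (LinearMap.id.codRestrict (part f1 (infl D.s1 M)) (infl_part D M)) := by
    intro M
    refine ⟨fun x y h => congrArg Subtype.val h, fun y => ⟨y.1, rfl⟩⟩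
  refine Tors.eq_of_mem (fun M h => ?_) fun M h => ⟨?_, ?_⟩
  · exact (y1.mem_of_bij (isHom_cut_infl D M) (hb M)).2 h.1
  · exact (y1.mem_of_bij (isHom_cut_infl D M) (hb M)).1 h
  · exact y2.zero _ (cut_infl_other D M)

theorem glue2_swap (D : Disj m1 m2 m f1 f2) (y1 : Tors K m1) (y2 : Tors K m2) :
    glue2 D y1 y2 = glue2 D.swap y2 y1 :=
  Tors.eq_of_mem (fun _ h => ⟨h.2, h.1⟩) fun _ h => ⟨h.2, h.1⟩

theorem res_glue2' (D : Disj m1 m2 m f1 f2) (y1 : Tors K m1) (y2 : Tors K m2) :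
    res D.s2 (glue2 D y1 y2) = y2 := by
  rw [glue2_swap]
  exact res_glue2 D.swap y2 y1

theorem glue2_res (D : Disj m1 m2 m f1 f2) (T : Tors K m) :
    glue2 D (res D.s1 T) (res D.s2 T) = T :=
  Tors.eq_of_mem (fun M h => (mem_iff D T M).2 h) fun M h => (mem_iff D T M).1 h

/-- Torsion classes of a disjoint union. -/
noncomputable def iso (D : Disj m1 m2 m f1 f2) : Tors K m ≃o Tors K m1 × Tors K m2 where
  toFun T := (res D.s1 T, res D.s2 T)
  invFun y := glue2 D y.1 y.2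
  left_inv T := glue2_res D T
  right_inv y := Prod.ext (res_glue2 D y.1 y.2) (res_glue2' D y.1 y.2)
  map_rel_iff' := by
    intro T U
    constructor
    · rintro ⟨h1, h2⟩ M hM
      rw [mem_iff D] at hM ⊢
      exact ⟨h1 _ hM.1, h2 _ hM.2⟩
    · intro h
      exact ⟨fun M hM => h _ hM, fun M hM => h _ hM⟩

theorem covBy_iff (D : Disj m1 m2 m f1 f2) {T x : Tors K m} : T ⋖ x ↔
    (res D.s1 T ⋖ res D.s1 x ∧ res D.s2 T = res D.s2 x) ∨
      (res D.s2 T ⋖ res D.s2 x ∧ res D.s1 T = res D.s1 x) := by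
  rw [← apply_covBy_apply_iff (iso D)]
  change (res D.s1 T, res D.s2 T) ⋖ (res D.s1 x, res D.s2 x) ↔ _
  rw [Prod.mk_covBy_mk_iff]

theorem supp_res (D : Disj m1 m2 m f1 f2) {T : Tors K m} {i : Fin n1} :
    (res D.s1 T).Supp i ↔ T.Supp (f1 i) := by
  constructor
  · rintro ⟨M, hM, x, hx⟩
    refine ⟨infl D.s1 M, hM, x, ?_⟩
    change inflE f1 M (f1 i) x ≠ 0
    rwa [inflE_apply D.s1]
  · rintro ⟨M, hM, x, hx⟩
    refine ⟨cut D.s1 M, ((mem_iff D T M).1 hM).1, ⟨M.e (f1 i) x, e_mem_part M i x⟩, ?_⟩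
    intro h
    apply hx
    rw [← M.e_e]
    exact congrArg Subtype.val h

theorem hom_of_infl (D : Disj m1 m2 m f1 f2) {M N : QMod K m1} {g : M.V →ₗ[K] N.V}
    (hg : IsHom (infl D.s1 M) (infl D.s1 N) g) : IsHom M N g := by
  constructor
  · intro i x
    have h : g (inflE f1 M (f1 i) x) = inflE f1 N (f1 i) (g x) := hg.1 (f1 i) x
    rwa [inflE_apply D.s1, inflE_apply D.s1] at h
  · intro i j k x
    have h : g (inflA D.s1 M (f1 i) (f1 j) (Fin.cast (D.s1.arr i j) k) x) =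
        inflA D.s1 N (f1 i) (f1 j) (Fin.cast (D.s1.arr i j) k) (g x) := hg.2 (f1 i) (f1 j) _ x
    rwa [inflA_apply D.s1, inflA_apply D.s1] at h

theorem fsupp_res (D : Disj m1 m2 m f1 f2) {T : Tors K m} {i : Fin n1} :
    (res D.s1 T).FSupp i ↔ T.FSupp (f1 i) := by
  constructor
  · rintro ⟨N, hN, x, hx⟩
    refine ⟨infl D.s1 N, ?_, x, ?_⟩
    · intro X g hX hg
      have h1 := ((mem_iff D T X).1 hX).1
      have h2 : IsHom (infl D.s1 (cut D.s1 X)) (infl D.s1 N) (g ∘ₗ (part f1 X).subtype) :=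
        hg.comp (incl_hom D X)
      have h3 := hN _ _ h1 (hom_of_infl D h2)
      ext x
      have h4 : g (proj f1 X x : X.V) = 0 := LinearMap.congr_fun h3 (proj f1 X x)
      rw [proj_apply, map_sum] at h4
      have h5 : ∑ i, g (X.e (f1 i) x) = ∑ i, N.e i (g x) := by
        refine Finset.sum_congr rfl fun i _ => ?_
        have h6 : g (X.e (f1 i) x) = inflE f1 N (f1 i) (g x) := hg.1 (f1 i) x
        rw [h6, inflE_apply D.s1]
      rw [h5] at h4
      exact (N.e_sum (g x)).symm.trans h4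
    · change inflE f1 N (f1 i) x ≠ 0
      rwa [inflE_apply D.s1]
  · rintro ⟨N, hN, x, hx⟩
    refine ⟨cut D.s1 N, ?_, ⟨N.e (f1 i) x, e_mem_part N i x⟩, ?_⟩
    · intro X g hX hg
      have h1 : IsHom (infl D.s1 X) N ((part f1 N).subtype ∘ₗ g) :=
        (incl_hom D N).comp (hg.infl D.s1)
      have h2 := hN _ _ hX h1
      ext x
      exact LinearMap.congr_fun h2 x
    · intro h
      apply hx
      rw [← N.e_e]
      exact congrArg Subtype.val h

/-- Chains which satisfy the order condition. -/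
inductive OrdUp {n : ℕ} {m : Fin n → Fin n → ℕ} (R : Fin n → Fin n → Prop) :
    Tors K m → ℕ → Prop
  | top (T : Tors K m) (h : ∀ M, T.mem M) : OrdUp R T 0
  | step (T x : Tors K m) (L : ℕ) (h : T ⋖ x)
      (hc : ∀ i j, R i j → ¬ x.Supp i ∨ ¬ T.FSupp j) (hx : OrdUp R x L) : OrdUp R T (L + 1)

theorem ordUp_chain {R : Fin n → Fin n → Prop} {T : Tors K m} {L : ℕ} (h : OrdUp R T L) :
    ∃ c : ℕ → Tors K m, c 0 = T ∧ (∀ M, (c L).mem M) ∧ ∀ k < L, c k ⋖ c (k + 1) ∧
      ∀ i j, R i j → ¬ (c (k + 1)).Supp i ∨ ¬ (c k).FSupp j := by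
  induction h with
  | top T h => exact ⟨fun _ => T, rfl, h, fun k hk => absurd hk (by omega)⟩
  | step T x L h hc hx ih =>
      obtain ⟨c, h0, h1, h2⟩ := ih
      refine ⟨fun k => if k = 0 then T else c (k - 1), by simp, ?_, ?_⟩
      · simpa using h1
      · intro k hk
        rcases Nat.eq_zero_or_pos k with rfl | hk0
        · simpa [h0] using And.intro h hc
        · have e1 : k ≠ 0 := by omega
          have e2 : k - 1 + 1 = k := by omega
          have := h2 (k - 1) (by omega)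
          rw [e2] at this
          simpa [e1] using this

theorem ordUp_of_chain {R : Fin n → Fin n → Prop} (L : ℕ) : ∀ (c : ℕ → Tors K m),
    (∀ M, (c L).mem M) → (∀ k < L, c k ⋖ c (k + 1) ∧
      ∀ i j, R i j → ¬ (c (k + 1)).Supp i ∨ ¬ (c k).FSupp j) → OrdUp R (c 0) L := by
  induction L with
  | zero => exact fun c h _ => OrdUp.top _ h
  | succ L ih =>
      intro c h1 h2
      refine OrdUp.step (c 0) (c 1) L (h2 0 (by omega)).1 (h2 0 (by omega)).2 ?_
      exact ih (fun k => c (k + 1)) h1 fun k hk => h2 (k + 1) (by omega)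

theorem ordUp_res (D : Disj m1 m2 m f1 f2) {R : Fin n → Fin n → Prop} {T : Tors K m} {L : ℕ}
    (h : OrdUp R T L) : ∃ L1 L2, OrdUp (fun i j => R (f1 i) (f1 j)) (res D.s1 T) L1 ∧
      OrdUp (fun i j => R (f2 i) (f2 j)) (res D.s2 T) L2 ∧ L1 + L2 = L := by
  induction h with
  | top T h => exact ⟨0, 0, OrdUp.top _ fun M => h _, OrdUp.top _ fun M => h _, rfl⟩
  | step T x L h hc hx ih =>
      obtain ⟨L1, L2, h1, h2, h3⟩ := ih
      rcases (covBy_iff D).1 h with ⟨h4, h5⟩ | ⟨h4, h5⟩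
      · refine ⟨L1 + 1, L2, OrdUp.step _ _ _ h4 (fun i j hij => ?_) h1, by rwa [h5], by omega⟩
        rw [supp_res D, fsupp_res D]
        exact hc _ _ hij
      · refine ⟨L1, L2 + 1, by rwa [h5], OrdUp.step _ _ _ h4 (fun i j hij => ?_) h2, by omega⟩
        rw [supp_res D.swap, fsupp_res D.swap]
        exact hc _ _ hij

theorem ordUp_glue1 (D : Disj m1 m2 m f1 f2) {R : Fin n → Fin n → Prop}
    (hR : ∀ i j, ¬ R (f2 i) (f1 j)) {y2 : Tors K m2} (hy2 : ∀ M, y2.mem M) {y1 : Tors K m1}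
    {L : ℕ} (h : OrdUp (fun i j => R (f1 i) (f1 j)) y1 L) : OrdUp R (glue2 D y1 y2) L := by
  induction h with
  | top T h => exact OrdUp.top _ fun M => ⟨h _, hy2 _⟩
  | step T x L h hc hx ih =>
      refine OrdUp.step _ _ _ ((covBy_iff D).2 (Or.inl ?_)) (fun i j hij => ?_) ih
      · rw [res_glue2, res_glue2, res_glue2', res_glue2']
        exact ⟨h, rfl⟩
      · rcases D.cov j with ⟨j', rfl⟩ | ⟨j', rfl⟩
        · rcases D.cov i with ⟨i', rfl⟩ | ⟨i', rfl⟩
          · rw [← supp_res D, ← fsupp_res D, res_glue2, res_glue2]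
            exact hc i' j' hij
          · exact absurd hij (hR _ _)
        · right
          rw [← fsupp_res D.swap, res_glue2']
          rintro ⟨N, hN, z, hz⟩
          have := y2.subsingleton_of_mem_free (hy2 N) hN
          exact hz (Subsingleton.elim _ _)

theorem ordUp_glue2 (D : Disj m1 m2 m f1 f2) {R : Fin n → Fin n → Prop}
    (hR : ∀ i j, ¬ R (f2 i) (f1 j)) {y1 : Tors K m1} (hy1 : ∀ M, y1.mem M ↔ Subsingleton M.V)
    {L1 : ℕ} (h1 : OrdUp (fun i j => R (f1 i) (f1 j)) y1 L1) {y2 : Tors K m2}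
    {L : ℕ} (h : OrdUp (fun i j => R (f2 i) (f2 j)) y2 L) :
    OrdUp R (glue2 D y1 y2) (L1 + L) := by
  induction h with
  | top T h => exact ordUp_glue1 D hR h h1
  | step T x L h hc hx ih =>
      refine OrdUp.step _ _ _ ((covBy_iff D).2 (Or.inr ?_)) (fun i j hij => ?_) ih
      · rw [res_glue2, res_glue2, res_glue2', res_glue2']
        exact ⟨h, rfl⟩
      · rcases D.cov i with ⟨i', rfl⟩ | ⟨i', rfl⟩
        · left
          rw [← supp_res D, res_glue2]
          rintro ⟨M, hM, z, hz⟩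
          exact hz (((hy1 M).1 hM).elim _ _)
        · rcases D.cov j with ⟨j', rfl⟩ | ⟨j', rfl⟩
          · exact absurd hij (hR _ _)
          · rw [← supp_res D.swap, ← fsupp_res D.swap, res_glue2', res_glue2']
            exact hc i' j' hij

/-- The zero class. -/
def zeroClass (K : Type) [Field K] {n : ℕ} (m : Fin n → Fin n → ℕ) : Tors K m where
  mem M := Subsingleton M.V
  zero _ h := h
  quot _ _ _ _ hs h := hs.subsingleton
  extn M W _ h1 h2 := by
    refine ⟨fun x y => ?_⟩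
    have h3 : ∀ z : M.V, z = 0 := by
      intro z
      have h4 : W.mkQ z = 0 := h2.elim _ _
      have h5 : z ∈ W := (Submodule.Quotient.mk_eq_zero W).1 h4
      exact congrArg Subtype.val (h1.elim (⟨z, h5⟩ : W) 0)
    rw [h3 x, h3 y]

theorem isOrdLength_iff {R : Fin n → Fin n → Prop} {L : ℕ} :
    IsOrdLength K m R L ↔ OrdUp R (zeroClass K m) L := by
  constructor
  · rintro ⟨c, h0, hL, hc⟩
    have h1 : c 0 = zeroClass K m :=
      Tors.eq_of_mem (fun M h => (h0 M).1 h) fun M h => (h0 M).2 h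
    rw [← h1]
    exact ordUp_of_chain L c hL hc
  · intro h
    obtain ⟨c, h0, hL, hc⟩ := ordUp_chain h
    refine ⟨c, fun M => ?_, hL, hc⟩
    rw [h0]
    rfl

theorem isOrdLength_disj (D : Disj m1 m2 m f1 f2) {R : Fin n → Fin n → Prop}
    (hR : ∀ i j, ¬ R (f2 i) (f1 j)) (L : ℕ) : IsOrdLength K m R L ↔
      ∃ L1 L2, IsOrdLength K m1 (fun i j => R (f1 i) (f1 j)) L1 ∧
        IsOrdLength K m2 (fun i j => R (f2 i) (f2 j)) L2 ∧ L1 + L2 = L := by
  have e1 : ∀ {n' : ℕ} {m' : Fin n' → Fin n' → ℕ} {f : Fin n' → Fin n} (h : FullSub m' m f),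
      res h (zeroClass K m) = zeroClass K m' := fun h =>
    Tors.eq_of_mem (fun M h => h) fun M h => h
  constructor
  · intro h
    obtain ⟨L1, L2, h1, h2, h3⟩ := ordUp_res D (isOrdLength_iff.1 h)
    rw [e1] at h1 h2
    exact ⟨L1, L2, isOrdLength_iff.2 h1, isOrdLength_iff.2 h2, h3⟩
  · rintro ⟨L1, L2, h1, h2, rfl⟩
    have h3 := ordUp_glue2 D hR (y1 := zeroClass K m1) (fun _ => Iff.rfl) (isOrdLength_iff.1 h1)
      (isOrdLength_iff.1 h2)
    have h4 : glue2 D (zeroClass K m1) (zeroClass K m2) = zeroClass K m := by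
      rw [← e1 D.s1, ← e1 D.s2]
      exact glue2_res D _
    rw [h4] at h3
    exact isOrdLength_iff.2 h3

end Pool.Agent.MP_d9ddf5_al_h20
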