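import Pool.Agent.Lib.MP_d9ddf5_al_h20.Del
import Pool.Agent.Lib.MP_d9ddf5_al_h20.Split

/-!
# Sums, truncation and deletion of multiple arrows
-/

set_option autoImplicit false

namespace Pool.Agent.MP_d9ddf5_al_h20

variable {K : Type} [Field K]

/-- The ordered lengths depend on the quiver and the relation only. -/
theorem isLength_congr [IsAlgClosed K] {n : ℕ} {m m' : Fin n → Fin n → ℕ}
    (hac : ∀ i j, m i j ≠ 0 → i < j) (h : ∀ i j, min (m i j) 2 = min (m' i j) 2) (L : ℕ) :
    IsLength K m L ↔ IsLength K m' L := by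
  have hac' : ∀ i j, m' i j ≠ 0 → i < j := by
    intro i j h1
    refine hac i j fun h2 => h1 ?_
    have := h i j
    omega
  rw [isLength_iff hac, isLength_iff hac']
  have e1 : single m' = single m := by
    funext i j
    have := h i j
    unfold single
    split_ifs <;> omega
  have e2 : (fun i j : Fin n => 2 ≤ m' i j) = fun i j => 2 ≤ m i j := by
    funext i j
    have := h i j
    apply propext
    omega
  rw [e1, e2]

theorem isLength_single [IsAlgClosed K] {n : ℕ} {m : Fin n → Fin n → ℕ}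
    (hac : ∀ i j, m i j ≠ 0 → i < j) {L : ℕ} (h : IsLength K m L) : IsLength K (single m) L := by
  obtain ⟨y, h0, hL, hc⟩ := (isLength_iff hac L).1 h
  exact ⟨y, h0, hL, fun k hk => (hc k hk).1⟩

variable {n1 n2 : ℕ}

theorem isLength_sum [IsAlgClosed K] (m : Fin (n1 + n2) → Fin (n1 + n2) → ℕ)
    (hac : ∀ i j, m i j ≠ 0 → i < j)
    (h : ∀ i j, m (Fin.castAdd n2 i) (Fin.natAdd n1 j) ≠ 1) (L : ℕ) :
    IsLength K m L ↔
      ∃ L1 L2, IsLength K (fstPart m) L1 ∧ IsLength K (sndPart m) L2 ∧ L1 + L2 = L := by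
  have hac1 : ∀ i j, fstPart m i j ≠ 0 → i < j := by
    intro i j h1
    have := Fin.lt_def.1 (hac _ _ h1)
    simp only [Fin.val_castAdd] at this
    exact Fin.lt_def.2 (by omega)
  have hac2 : ∀ i j, sndPart m i j ≠ 0 → i < j := by
    intro i j h1
    have := Fin.lt_def.1 (hac _ _ h1)
    simp only [Fin.val_natAdd] at this
    exact Fin.lt_def.2 (by omega)
  have h21 : ∀ i j, m (Fin.natAdd n1 j) (Fin.castAdd n2 i) = 0 := by
    intro i j
    by_contra h1
    have := hac _ _ h1
    simp only [Fin.lt_def, Fin.val_natAdd, Fin.val_castAdd] at this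
    omega
  have D : Disj (single (fstPart m)) (single (sndPart m)) (single m) (Fin.castAdd n2)
      (Fin.natAdd n1) := by
    refine ⟨⟨Fin.castAdd_injective n1 n2, fun i j => rfl⟩, ⟨Fin.natAdd_injective n2 n1,
      fun i j => rfl⟩, ?_, ?_, ?_, ?_⟩
    · intro i
      induction i using Fin.addCases with
      | left i => exact Or.inl ⟨i, rfl⟩
      | right i => exact Or.inr ⟨i, rfl⟩
    · intro i j h1
      have := congrArg Fin.val h1
      simp only [Fin.val_natAdd, Fin.val_castAdd] at this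
      omega
    · intro i j
      unfold single
      rw [if_neg (h i j)]
    · intro i j
      unfold single
      rw [h21 i j]
      rfl
  rw [isLength_iff hac, isOrdLength_disj D (by
    intro i j
    rw [h21]
    omega)]
  simp only [isLength_iff hac1, isLength_iff hac2]
  rfl

theorem ordConnected_add {A B : Set ℕ} (hA : A.OrdConnected) (hB : B.OrdConnected) :
    {L : ℕ | ∃ L1 L2, L1 ∈ A ∧ L2 ∈ B ∧ L1 + L2 = L}.OrdConnected := by
  constructor
  rintro _ ⟨a1, b1, ha1, hb1, rfl⟩ _ ⟨a2, b2, ha2, hb2, rfl⟩ c ⟨hc1, hc2⟩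
  rcases le_total a1 a2 with h | h
  · rcases le_total c (a2 + b1) with h1 | h1
    · exact ⟨c - b1, b1, hA.out ha1 ha2 ⟨by omega, by omega⟩, hb1, by omega⟩
    · exact ⟨a2, c - a2, ha2, hB.out hb1 hb2 ⟨by omega, by omega⟩, by omega⟩
  · exact ⟨a1, c - a1, ha1, hB.out hb1 hb2 ⟨by omega, by omega⟩, by omega⟩

theorem no_gap_sum [IsAlgClosed K] (m : Fin (n1 + n2) → Fin (n1 + n2) → ℕ)
    (hac : ∀ i j, m i j ≠ 0 → i < j)
    (h : ∀ i j, m (Fin.castAdd n2 i) (Fin.natAdd n1 j) ≠ 1)
    (h1 : {L | IsLength K (fstPart m) L}.OrdConnected)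
    (h2 : {L | IsLength K (sndPart m) L}.OrdConnected) : {L | IsLength K m L}.OrdConnected := by
  have h3 := ordConnected_add h1 h2
  have h4 : {L | IsLength K m L} = {L : ℕ | ∃ L1 L2, L1 ∈ {L | IsLength K (fstPart m) L} ∧
      L2 ∈ {L | IsLength K (sndPart m) L} ∧ L1 + L2 = L} := by
    ext L
    exact isLength_sum m hac h L
  rw [h4]
  exact h3

end Pool.Agent.MP_d9ddf5_al_h20
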